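import Pool.Agent.Lib.MP_60ff09_nt.Main
import Pool.Agent.Lib.MP_696deb_nt.HRank

/-! The rank of the modular curve over a quadratic field is the rank of the twist. -/

set_option autoImplicit false

open Complex WeierstrassCurve WeierstrassCurve.Affine
open Pool.Agent.Shared.Weier Pool.Agent.Lib.MP_696deb_nt Pool.Agent.Lib.MP_696deb_nt.Gal

namespace Pool.Agent.Lib.MP_60ff09_nt

theorem rank_le_of_range {A B C : Type} [AddCommGroup A] [AddCommGroup B] [AddCommGroup C]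
    (f : A →+ C) (g : B →+ C) (hf : ∀ x, f x = 0 → IsOfFinAddOrder x) (h : ∀ x, ∃ y, g y = f x) :
    Module.rank ℤ A ≤ Module.rank ℤ B := by
  rw [← f.toIntLinearMap.rank_range_add_rank_ker, Module.rank_eq_zero_iff_isTorsion.mpr
    (show Module.IsTorsion ℤ (LinearMap.ker f.toIntLinearMap) from fun x => ?_), add_zero]
  · refine (Submodule.rank_mono ?_).trans (rank_range_le g.toIntLinearMap)
    rintro _ ⟨x, rfl⟩
    exact h x
  · obtain ⟨n, h0, h1⟩ := isOfFinAddOrder_iff_zsmul_eq_zero.mp (hf x x.2)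
    exact ⟨⟨n, mem_nonZeroDivisors_of_ne_zero h0⟩, Subtype.ext h1⟩

theorem exists_isog {L M : PeriodPair} {W W' : WeierstrassCurve ℚ} (h : IsPer L (W.baseChange ℂ))
    (h' : IsPer M (W'.baseChange ℂ)) {k j : ℕ} (hk : 0 < k) (hj : 0 < j)
    (h1 : ∀ z ∈ L.lattice, (k : ℂ) * z ∈ M.lattice) (h2 : ∀ z ∈ M.lattice, (j : ℂ) * z ∈ L.lattice) :
    ∃ Φ : Pt W ℂ →+ Pt W' ℂ, (∀ P, Φ P = 0 → IsOfFinAddOrder P) ∧
      ∀ (σ : ℂ ≃+* ℂ) P, pmap (σ : ℂ →+* ℂ) (Φ P) = Φ (pmap (σ : ℂ →+* ℂ) P) := by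
  let Φ : Pt W ℂ →+ Pt W' ℂ := h.unif.liftOfSurjective h.unif_surjective
    ⟨h'.unif.comp (AddMonoidHom.mulLeft (k : ℂ)), fun z hz =>
      h'.unif_eq_zero_iff.mpr (h1 z (h.unif_eq_zero_iff.mp hz))⟩
  have e : ∀ z, Φ (h.unif z) = h'.unif (k * z) := fun z =>
    AddMonoidHom.liftOfRightInverse_comp_apply _ _ _ _ z
  refine ⟨Φ, fun P hP => ?_, fun σ P => ?_⟩ <;> obtain ⟨z, rfl⟩ := h.unif_surjective P
  · refine isOfFinAddOrder_iff_nsmul_eq_zero.mpr ⟨j * k, mul_pos hj hk, ?_⟩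
    rw [← map_nsmul, h.unif_eq_zero_iff, nsmul_eq_mul, Nat.cast_mul, mul_assoc]
    exact h2 _ (h'.unif_eq_zero_iff.mp (e z ▸ hP))
  · obtain ⟨w, hw⟩ := h.unif_surjective (pmap (σ : ℂ →+* ℂ) (h.unif z))
    rw [← hw, e, e, ← rel_iff_pmap h']
    simpa using ((rel_iff_pmap h).mpr hw.symm).isog (cj_self h σ) (cj_self h' σ)
      (by exact_mod_cast hk.ne') h1

theorem finite_W15 : Finite (@Pt W15 ℚ _ DivisionRing.toRatAlgebra) :=
  finite_point_of_finX (finX_A1.affine (u := 4) (v := 9) (c := 4) (by norm_num) fun x => by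
    simp [W15, WeierstrassCurve.baseChange, b₂, b₄, b₆]
    ring)

theorem mem_range_pmap {K : Type} [Field K] [DecidableEq K] [CharZero K] {W : WeierstrassCurve ℚ}
    (f : K →+* ℂ) {Q : Pt W ℂ} (hx : xco Q ∈ f.range) (hy : yco Q ∈ f.range) :
    ∃ P, pmap f P = Q := by
  rcases Q with _ | ⟨_, _, hQ⟩
  · exact ⟨0, rfl⟩
  obtain ⟨x, rfl⟩ := hx
  obtain ⟨y, rfl⟩ := hy
  exact ⟨.some x y ((W.toAffine.baseChange_nonsingular f.toRatAlgHom.injective x y).mp hQ), rfl⟩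

variable {N : ℤ}

theorem mem_range_twist (hN : 0 < N) {Q : Pt W15 ℂ}
    (hQ : ∀ σ : ℂ ≃+* ℂ, σ (del (-N)) = del (-N) → pmap (σ : ℂ →+* ℂ) Q = Q)
    (hc : pmap (starRingEnd ℂ) Q = -Q) :
    ∃ P, (vc_twist (D := -N) (by omega) (del_sq (by omega))).hom P = Q := by
  have hD : -N < 0 := by omega
  obtain ⟨a, b, ha⟩ := exists_rat hD (x := xco Q) fun σ hσ => by
    rw [← RingHom.coe_coe, ← xco_pmap, hQ σ hσ]
  obtain ⟨c, d, hd⟩ := exists_rat hD (x := yco Q) fun σ hσ => by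
    rw [← RingHom.coe_coe, ← yco_pmap, hQ σ hσ]
  have hcδ : (starRingEnd ℂ) (del (-N)) = -del (-N) := by simp [del]
  have h0 : del (-N) ≠ 0 := fun e => by simpa [e] using im_del hD
  have hδ : (N : ℂ) = -del (-N) ^ 2 := by rw [del_sq hD]; simp
  rcases Q with _ | ⟨X, Y, hP⟩
  · exact ⟨0, rfl⟩
  have e1 := congrArg xco hc
  have e2 := congrArg yco hc
  rw [xco_pmap, xco_neg] at e1
  rw [yco_pmap, Point.neg_some] at e2
  simp only [xco_some, yco_some, negY, toAffine, W15_a₁, W15_a₃] at ha hd e1 e2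
  rw [ha] at e1
  rw [hd, ha] at e2
  simp only [map_add, map_mul, map_ratCast, hcδ] at e1 e2
  refine VC.mem_range _ hP (x := -36 * N * (a - 7 / 12)) (y := 216 * N ^ 2 * d) ?_ ?_ <;>
    simp only [eq_ratCast] <;> push_cast
  · rw [ha, hδ]
    field_simp
    linear_combination (-(6 : ℂ) * 36) * e1
  · rw [hd, hδ]
    field_simp
    linear_combination (62208 : ℂ) * e2 + (31104 : ℂ) * e1

theorem rank_W1 {K : Type} [Field K] [NumberField K] [DecidableEq K] (hN : 0 < N)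
    (hK : Module.finrank ℚ K = 2) {δ : K} (hδ : δ ^ 2 = -N) :
    Module.rank ℤ (Pt W1 K) = Module.rank ℤ (twist15 (-N)).toAffine.Point := by
  have hD : -N < 0 := by omega
  obtain ⟨ι⟩ : Nonempty (K →+* ℂ) := inferInstance
  obtain ⟨δ, hδ, hι⟩ : ∃ δ : K, δ ^ 2 = -N ∧ ι δ = del (-N) := by
    rcases sq_eq_sq_iff_eq_or_eq_neg.mp (show ι δ ^ 2 = del (-N) ^ 2 by
      rw [← map_pow, hδ, del_sq hD]; simp) with h | h
    exacts [⟨δ, hδ, h⟩, ⟨-δ, by rw [neg_sq, hδ], by rw [map_neg, h, neg_neg]⟩]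
  have h4 : ∀ z ∈ Unif.L15.lattice, ((4 : ℕ) : ℂ) * z ∈ L1.lattice := fun z hz =>
    isPer1.unif_eq_zero_iff.mp (by rw [← nsmul_eq_mul, map_nsmul]; exact (u1_L15 hz).1)
  have h1 : ∀ z ∈ L1.lattice, ((1 : ℕ) : ℂ) * z ∈ Unif.L15.lattice := fun z hz => by
    simpa using kl.le hz
  have hv := vc_twist (D := -N) (by omega) (del_sq hD)
  refine le_antisymm ?_ ?_
  · obtain ⟨Φ, k1, k2⟩ := exists_isog isPer1 Unif.isPer15 one_pos four_pos h1 h4
    have hf : ∀ P, ∀ σ : ℂ ≃+* ℂ, σ (del (-N)) = del (-N) →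
        pmap (σ : ℂ →+* ℂ) (Φ (pmap ι P)) = Φ (pmap ι P) := fun P σ hσ => by
      rw [k2, pmap_pmap, show (σ : ℂ →+* ℂ).comp ι = ι from RingHom.ext fun z => ?_]
      obtain ⟨r, s, rfl⟩ := exists_coords hK hN hδ z
      simp [hι, hσ]
    have hc : (starRingEnd ℂ) (del (-N)) = -del (-N) := by simp [del]
    refine rank_le_of_range ((AddMonoidHom.id _ - pmap (starRingEnd ℂ)).comp (Φ.comp (pmap ι)))
      hv.hom (fun P hP => ?_) fun P => mem_range_twist hN (fun σ hσ => ?_) ?_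
    · have h2 : Φ (pmap ι P) = pmap (starRingEnd ℂ) (Φ (pmap ι P)) := sub_eq_zero.mp hP
      have h3 : ∀ x : ℂ, (∀ σ : ℂ ≃+* ℂ, σ (del (-N)) = del (-N) → σ x = x) →
          x = starRingEnd ℂ x → x ∈ (algebraMap ℚ ℂ).range := fun x k k' => by
        obtain ⟨a, b, rfl⟩ := exists_rat hD k
        simp only [map_add, map_mul, map_ratCast, hc] at k'
        exact ⟨a, by simp only [eq_ratCast]; linear_combination (-1 / 2 : ℂ) * k'⟩
      obtain ⟨R, hR⟩ := mem_range_pmap (algebraMap ℚ ℂ) (Q := Φ (pmap ι P))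
        (h3 _ (fun σ hσ => by rw [← RingHom.coe_coe, ← xco_pmap, hf P σ hσ])
          (by rw [← xco_pmap, ← h2]))
        (h3 _ (fun σ hσ => by rw [← RingHom.coe_coe, ← yco_pmap, hf P σ hσ])
          (by rw [← yco_pmap, ← h2]))
      have := finite_W15
      obtain ⟨m, m0, hm⟩ := isOfFinAddOrder_iff_nsmul_eq_zero.mp
        (hR ▸ (pmap (W := W15) (algebraMap ℚ ℂ)).isOfFinAddOrder (isOfFinAddOrder_of_finite R))
      exact ((pmap_injective ι).isOfFinAddOrder_iff.mp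
        (k1 (pmap ι (m • P)) (by rw [map_nsmul, map_nsmul, hm]))).of_nsmul m0.ne'
    · have := hf P ((starRingAut.trans σ).trans starRingAut) (by simp [hc, hσ])
      simp only [AddMonoidHom.comp_apply, AddMonoidHom.sub_apply, AddMonoidHom.id_apply, map_sub,
        hf P σ hσ]
      rw [pmap_pmap, show (σ : ℂ →+* ℂ).comp (starRingEnd ℂ) = (starRingEnd ℂ).comp
        ((starRingAut.trans σ).trans starRingAut : ℂ ≃+* ℂ) from RingHom.ext fun z => by simp,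
        ← pmap_pmap, this]
    · simp only [AddMonoidHom.comp_apply, AddMonoidHom.sub_apply, AddMonoidHom.id_apply, map_sub,
        pmap_pmap, neg_sub]
      rw [show (starRingEnd ℂ).comp (starRingEnd ℂ) = (RingEquiv.refl ℂ : ℂ →+* ℂ) by ext; simp,
        pmap_refl]
  · obtain ⟨Φ, k1, k2⟩ := exists_isog Unif.isPer15 isPer1 four_pos one_pos h4 h1
    refine rank_le_of_range (Φ.comp hv.hom) (pmap ι)
      (fun P hP => hv.hom_injective.isOfFinAddOrder_iff.mp (k1 _ hP)) fun P => ?_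
    have hf : ∀ σ : ℂ ≃+* ℂ, σ (del (-N)) = del (-N) →
        pmap (σ : ℂ →+* ℂ) (Φ (hv.hom P)) = Φ (hv.hom P) := fun σ hσ => by
      rw [k2]
      congr 1
      rcases P with _ | ⟨x, y, hP⟩
      · rfl
      · exact IsPer.some_congr (by simp [hσ, map_ofNat]) (by simp [hσ, map_ofNat])
    have h3 : ∀ x : ℂ, (∀ σ : ℂ ≃+* ℂ, σ (del (-N)) = del (-N) → σ x = x) → x ∈ ι.range :=
      fun x k => by
        obtain ⟨a, b, rfl⟩ := exists_rat hD k
        exact ⟨a + b * δ, by simp [hι]⟩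
    exact mem_range_pmap ι (h3 _ fun σ hσ => by
        rw [← RingHom.coe_coe, ← xco_pmap, AddMonoidHom.comp_apply, hf σ hσ])
      (h3 _ fun σ hσ => by rw [← RingHom.coe_coe, ← yco_pmap, AddMonoidHom.comp_apply, hf σ hσ])

end Pool.Agent.Lib.MP_60ff09_nt
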