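import Pool.Agent.Lib.MP_696deb_nt.C5Final
import Pool.Agent.Lib.MP_696deb_nt.ReFinal
import Pool.Agent.Lib.MP_60ff09_nt.Isog

/-! From the incomplete Euler product to the complete twisted series. -/

set_option autoImplicit false

open scoped Classical
open NumberTheorySymbols Pool.Agent.Lib.MP_696deb_nt

namespace Pool.Agent.Lib.MP_60ff09_nt.V4

variable {d : ℤ}

theorem dvd_disc (p : ℕ) (hp : p.Prime) :
    (p : ℤ) ∣ 2 * (-4 * (-12987 * d ^ 2) ^ 3 - 27 * (-263466 * d ^ 3) ^ 2) ↔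
      p ∣ 30 ∨ p ∣ d.natAbs := by
  have hP := Nat.prime_iff_prime_int.mp hp
  rw [show 2 * (-4 * (-12987 * d ^ 2) ^ 3 - 27 * (-263466 * d ^ 3) ^ 2) =
    2 * (81 * 225 * 144) ^ 2 * d ^ 6 by ring, hP.dvd_mul, hP.dvd_pow_iff_dvd (by norm_num),
    Int.natCast_dvd (n := d)]
  refine or_congr_left ⟨fun h => ?_, fun h => ?_⟩
  · exact_mod_cast hP.dvd_of_dvd_pow (h.trans (by norm_num : _ ∣ (30 : ℤ) ^ 16))
  · exact (show (p : ℤ) ∣ 30 by exact_mod_cast h).trans (by norm_num)

theorem entire_of_bsd (hs : Squarefree d) (h4 : d % 4 = 1) {r : ℕ∞}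
    (h : BSD (-12987 * d ^ 2) (-263466 * d ^ 3) r) : ∃ G : ℂ → ℂ, Differentiable ℂ G ∧
      (∀ s : ℂ, (3 : ℝ) / 2 < s.re → G s = LSeries (fun n => xi d.natAbs n * a15 n) s) ∧
      analyticOrderAt G 1 = r := by
  obtain ⟨F, hF, hP, -, -, hr⟩ := h
  obtain ⟨G, -, hG, hGL, -⟩ := exists_entire_jacobi (N := d.natAbs) (Nat.odd_iff.2 (by omega))
    (Int.squarefree_natAbs.2 hs)
  refine ⟨G, hG, hGL, ?_⟩
  set D := 2 * (-4 * (-12987 * d ^ 2) ^ 3 - 27 * (-263466 * d ^ 3) ^ 2) with hD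
  have hD0 : D ≠ 0 := by
    rw [show D = 2 * (81 * 225 * 144) ^ 2 * d ^ 6 by rw [hD]; ring]
    have := hs.ne_zero
    positivity
  let P := fun s => ∏ p ∈ D.natAbs.primeFactors,
    loc (xi d.natAbs) a15 (fun p => if p ∣ 15 then 0 else p) p s
  have dP : Differentiable ℂ P := Differentiable.fun_finsetProd fun p hp =>
    loc_differentiable _ _ _ (Nat.mem_primeFactors.mp hp).1.ne_zero
  have e : F = P * G := by
    refine AnalyticOnNhd.eq_of_eventuallyEq (hF.differentiableOn.analyticOnNhd isOpen_univ)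
      ((dP.mul hG).differentiableOn.analyticOnNhd isOpen_univ) (z₀ := 2) ?_
    filter_upwards [(isOpen_lt continuous_const Complex.continuous_re).mem_nhds
      (show (3 : ℝ) / 2 < (2 : ℂ).re by norm_num)] with s hs'
    rw [Pi.mul_apply, hGL s hs']
    refine (hP s hs').unique (hasProd_frozen hecke15 (xi_one _) (xi_mul _)
      (summable_twist (norm_xi_le _) (a15_summable hs')) hD0 _ fun p hp hd => ?_)
    rw [dvd_disc p hp, not_or] at hd
    refine ⟨?_, ?_, by simp [show ¬ p ∣ 15 from fun h => hd.1 (h.trans (by norm_num))]⟩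
    · obtain ⟨N, rfl | rfl⟩ := d.eq_nat_or_neg
      · exact Re.trace_real (by omega) rfl rfl hp hd.1 hd.2
      · rw [Int.natAbs_neg] at hd ⊢
        exact trace_twist (by omega) (by simp) (by simp; ring) hp hd.1 hd.2
    · rw [xi]
      exact_mod_cast jacobiSym.sq_one (by
        rw [Int.gcd_natCast_natCast]; exact (Nat.Prime.coprime_iff_not_dvd hp).mpr hd.2)
  have P1 : P 1 ≠ 0 := Finset.prod_ne_zero_iff.2 fun p hp => by
    obtain ⟨hp, hd, -⟩ := Nat.mem_primeFactors.mp hp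
    refine loc_one_ne_zero _ _ _ hp.ne_zero ?_
    rcases (dvd_disc p hp).1 (Int.natCast_dvd.2 hd) with h | h
    · refine (xi_cases d.natAbs p).imp_right fun k => ⟨k, ?_⟩
      rw [show 30 = 2 * 3 * 5 from rfl, hp.dvd_mul, hp.dvd_mul,
        Nat.prime_dvd_prime_iff_eq hp Nat.prime_two, Nat.prime_dvd_prime_iff_eq hp Nat.prime_three,
        Nat.prime_dvd_prime_iff_eq hp Nat.prime_five] at h
      rcases h with (rfl | rfl) | rfl
      · norm_num [a15_two]
      · norm_num [a15_three]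
      · norm_num [a15_five]
    · have : NeZero d.natAbs := ⟨by omega⟩
      left
      rw [xi, jacobiSym.eq_zero_iff_not_coprime.2, Int.cast_zero]
      rw [Int.gcd_natCast_natCast]
      exact fun k => (Nat.Prime.coprime_iff_not_dvd hp).1 k h
  rw [← hr, e, analyticOrderAt_mul (dP.analyticAt 1) (hG.analyticAt 1),
    (dP.analyticAt 1).analyticOrderAt_eq_zero.2 P1, zero_add]

theorem bsd_unit : BSD (-12987 * 1 ^ 2) (-263466 * 1 ^ 3) 0 := by
  obtain ⟨G, h1, h2, h3⟩ := exists_entire_one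
  obtain ⟨F, k1, k2, -, k4⟩ := Re.exists_entire_real (N := 1) rfl (a := -12987 * 1 ^ 2)
    (b := -263466 * 1 ^ 3) rfl rfl G h1 (fun s hs => by simpa [xi] using h2 s hs) h3
  have : Finite (twist15 1).toAffine.Point :=
    finite_point_of_finX (finX_A1.affine (u := 1 / 9) (v := 102 / 9) (c := 1 / 54) (by norm_num)
      fun x => by
        simp [twist15, WeierstrassCurve.b₂, WeierstrassCurve.b₄, WeierstrassCurve.b₆]
        ring)
  exact ⟨F, k1, k2, k4.trans (by
    exact_mod_cast (finrank_eq_zero_of_finite (G := (twist15 1).toAffine.Point)).symm), inferInstanceAs (Module.Finite ℤ (twist15 1).toAffine.Point), k4⟩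

end Pool.Agent.Lib.MP_60ff09_nt.V4
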