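import Mathlib

/-! Frobenius elements and inertia groups acting on square roots of integers. -/

set_option autoImplicit false

open scoped Classical Pointwise
open NumberField NumberTheorySymbols

namespace Pool.Agent.Lib.MP_60ff09_nt.V4

theorem exists_mul_mem_inertia {B G : Type} [CommRing B] [Group G] [Finite G]
    [MulSemiringAction G B] (N : Subgroup G) (Q : Ideal B) [Q.IsPrime]
    (h : ∀ (g : G) (a : B), (∀ n ∈ N, n • a = a) → g • a - a ∈ Q) (g : G) :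
    ∃ n ∈ N, n * g ∈ Q.inertia G := by
  let A := FixedPoints.subring B N
  have hA : ∀ a : A, ∀ n ∈ N, n • (a : B) = a := fun a n hn => a.2 ⟨n, hn⟩
  have : Algebra.IsInvariant A B N := ⟨fun b hb => ⟨⟨b, hb⟩, rfl⟩⟩
  have : SMulCommClass N A B := ⟨fun n a b => by
    change (n : G) • ((a : B) * b) = (a : B) * (n : G) • b
    rw [smul_mul', hA a n n.2]⟩
  obtain ⟨n, hn⟩ := Algebra.IsInvariant.exists_smul_of_under_eq A B N (g • Q) Q (by
    ext a
    change (a : B) ∈ g • Q ↔ (a : B) ∈ Q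
    rw [Ideal.mem_pointwise_smul_iff_inv_smul_mem]
    exact ⟨fun k => by simpa using sub_mem k (h g⁻¹ a (hA a)),
      fun k => by simpa using add_mem (h g⁻¹ a (hA a)) k⟩)
  have hs : Q = Q.map (MulSemiringAction.toRingEquiv G B (n * g) : B →+* B) := by
    conv_lhs => rw [hn]
    change (n : G) • g • Q = _
    rw [← mul_smul]
    rfl
  let f : (B ⧸ Q) ≃ₐ[A ⧸ Q.under A] B ⧸ Q :=
    { Ideal.quotientEquiv Q Q _ hs with
      commutes' := fun a => by
        obtain ⟨a, rfl⟩ := Ideal.Quotient.mk_surjective a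
        exact Ideal.Quotient.eq.2 (h (n * g) a (hA a)) }
  obtain ⟨m, hm⟩ := Ideal.Quotient.stabilizerHom_surjective N (Q.under A) Q f
  have hI : ((n : G) * g)⁻¹ * (m : N) ∈ Q.inertia G := fun x => by
    have e : ((m : N) : G) • x - ((n : G) * g) • x ∈ Q :=
      Ideal.Quotient.eq.1 (DFunLike.congr_fun hm (Ideal.Quotient.mk Q x))
    have k : ((n : G) * g) • Q = Q := by rw [mul_smul]; exact hn.symm
    have e' := Ideal.mem_pointwise_smul_iff_inv_smul_mem.1 (k.ge e)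
    rwa [smul_sub, inv_smul_smul, ← mul_smul] at e'
  refine ⟨((m : N) : G)⁻¹ * n, mul_mem (inv_mem (m : N).2) n.2, ?_⟩
  simpa [mul_assoc] using inv_mem hI

variable {M : Type} [Field M] [NumberField M] {δ : M} {d : ℤ} {p : ℕ} {Q : Ideal (𝓞 M)}

theorem pm_of_sq (hδ : δ ^ 2 = d) (σ : M ≃ₐ[ℚ] M) : σ δ = δ ∨ σ δ = -δ :=
  sq_eq_sq_iff_eq_or_eq_neg.1 (by rw [← map_pow, hδ, map_intCast])

omit [NumberField M] in
theorem under_eq (hp : p.Prime) [Q.IsPrime] (hQ : (p : 𝓞 M) ∈ Q) :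
    Q.under ℤ = Ideal.span {(p : ℤ)} :=
  ((Ideal.liesOver_span_iff (Ideal.IsPrime.ne_top ‹_›) (Nat.prime_iff_prime_int.1 hp)).2
    (by simpa using hQ)).over.symm

omit [NumberField M] in
theorem int_mem (hp : p.Prime) [Q.IsPrime] (hQ : (p : 𝓞 M) ∈ Q) {n : ℤ} :
    (n : 𝓞 M) ∈ Q ↔ (p : ℤ) ∣ n := by
  rw [← Ideal.mem_span_singleton, ← under_eq hp hQ, Ideal.mem_comap, eq_intCast]

omit [NumberField M] in
theorem exists_rt (hδ : δ ^ 2 = d) : ∃ D : 𝓞 M, (D : M) = δ ∧ D ^ 2 = d := by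
  have : IsIntegral ℤ δ := IsIntegral.of_pow two_pos (hδ ▸ isIntegral_algebraMap (x := d))
  exact ⟨⟨δ, this⟩, rfl, RingOfIntegers.ext (by simpa using hδ)⟩

theorem exists_om (hδ : δ ^ 2 = d) {k : ℤ} (hk : d = 4 * k + 1) :
    ∃ w : 𝓞 M, 2 * (w : M) - 1 = δ ∧ w ^ 2 = w + k := by
  have e : ((1 + δ) / 2) ^ 2 = (1 + δ) / 2 + k := by
    have : (d : M) = 4 * k + 1 := by exact_mod_cast hk
    linear_combination (hδ + this) / 4
  have : IsIntegral ℤ ((1 + δ) / 2) := by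
    refine ⟨Polynomial.X ^ 2 - Polynomial.X - Polynomial.C k, by monicity!, ?_⟩
    simp only [Polynomial.eval₂_sub, Polynomial.eval₂_X_pow, Polynomial.eval₂_X,
      Polynomial.eval₂_C, e]
    simp
  exact ⟨⟨_, this⟩, by change 2 * ((1 + δ) / 2) - 1 = δ; ring,
    RingOfIntegers.ext (by simpa using e)⟩

theorem om_smul {w : 𝓞 M} (hw : 2 * (w : M) - 1 = δ) (σ : M ≃ₐ[ℚ] M) :
    (σ δ = δ → σ • w = w) ∧ (σ δ = -δ → σ • w = 1 - w) := by
  have e : σ δ = 2 * σ w - 1 := by rw [← hw, map_sub, map_mul, map_one, map_ofNat]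
  refine ⟨fun h => RingOfIntegers.ext ?_, fun h => RingOfIntegers.ext ?_⟩
  · change σ w = w
    linear_combination (h - e - hw) / 2
  · change σ w = 1 - w
    linear_combination (h - e + hw) / 2

theorem ine_fix (hδ : δ ^ 2 = d) (h4 : d % 4 = 1) (hp : p.Prime) [Q.IsPrime] (hQ : (p : 𝓞 M) ∈ Q)
    (hd : ¬ (p : ℤ) ∣ d) {τ : M ≃ₐ[ℚ] M} (hτ : τ ∈ Q.inertia (M ≃ₐ[ℚ] M)) : τ δ = δ := by
  have hk : d = 4 * (d / 4) + 1 := by omega
  obtain ⟨w, h1, h2⟩ := exists_om hδ hk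
  refine (pm_of_sq hδ τ).resolve_right fun h => hd ((int_mem hp hQ).1 ?_)
  have e := hτ w
  rw [(om_smul h1 τ).2 h] at e
  have e' : (d : 𝓞 M) = (1 - w - w) * (1 - w - w) := by
    have : (d : 𝓞 M) = 4 * (d / 4 : ℤ) + 1 := by exact_mod_cast congrArg (Int.cast : ℤ → 𝓞 M) hk
    linear_combination this - 4 * h2
  exact e' ▸ Q.mul_mem_left _ e

theorem jac_recip (h4 : d % 4 = 1) (hp : Odd p) : J((p : ℤ) | d.natAbs) = J(d | p) := by
  obtain ⟨n, rfl | rfl⟩ := d.eq_nat_or_neg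
  · rw [Int.natAbs_natCast, jacobiSym.quadratic_reciprocity_one_mod_four (by omega) hp]
  · rw [Int.natAbs_neg, Int.natAbs_natCast, jacobiSym.neg _ hp]
    rcases Nat.odd_mod_four_iff.1 (Nat.odd_iff.1 hp) with h | h
    · rw [jacobiSym.quadratic_reciprocity_one_mod_four h (Nat.odd_iff.2 (by omega)),
        ZMod.χ₄_nat_one_mod_four h, one_mul]
    · rw [jacobiSym.quadratic_reciprocity_three_mod_four h (by omega),
        ZMod.χ₄_nat_three_mod_four h, neg_one_mul]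

theorem frob_rt (hδ : δ ^ 2 = d) (h4 : d % 4 = 1) (hp : p.Prime) [Q.IsPrime] (hQ : (p : 𝓞 M) ∈ Q)
    (hd : ¬ (p : ℤ) ∣ d) {φ : M ≃ₐ[ℚ] M} (hφ : IsArithFrobAt ℤ φ Q) :
    (φ δ = δ ∧ J((p : ℤ) | d.natAbs) = 1) ∨ (φ δ = -δ ∧ J((p : ℤ) | d.natAbs) = -1) := by
  have hf : ∀ x : 𝓞 M, φ • x - x ^ p ∈ Q := fun x => by
    have := hφ x
    rwa [under_eq hp hQ, Int.card_ideal_quot] at this
  rcases hp.eq_two_or_odd' with rfl | ho
  · have hk : d = 4 * (d / 4) + 1 := by omega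
    obtain ⟨w, h1, h2⟩ := exists_om hδ hk
    have e := hf w
    rw [Nat.cast_ofNat, jacobiSym.at_two (Nat.odd_iff.2 (by omega)), ZMod.χ₈_nat_eq_if_mod_eight,
      if_neg (by omega)]
    refine (pm_of_sq hδ φ).imp (fun h => ⟨h, if_pos ?_⟩) fun h => ⟨h, if_neg ?_⟩
    · rw [(om_smul h1 φ).1 h, h2] at e
      have := (int_mem hp hQ (n := d / 4)).1 (by simpa using neg_mem e)
      omega
    · rw [(om_smul h1 φ).2 h, h2] at e
      have := (int_mem hp hQ (n := 1 - d / 4)).1 (by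
        convert add_mem e (Q.mul_mem_right w hQ) using 1
        push_cast
        ring)
      omega
  · have := Fact.mk hp
    obtain ⟨D, h1, h2⟩ := exists_rt hδ
    have e := hf D
    have k : (p : ℤ) ∣ d ^ (p / 2) - legendreSym p d := by
      rw [← ZMod.intCast_eq_intCast_iff_dvd_sub, legendreSym.eq_pow, Int.cast_pow]
    have e2 : φ • D - legendreSym p d * D ∈ Q := by
      convert add_mem e (Q.mul_mem_right D ((int_mem hp hQ).2 k)) using 1
      obtain ⟨m, rfl⟩ := ho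
      rw [show (2 * m + 1) / 2 = m by omega, pow_succ, pow_mul, h2]
      push_cast
      ring
    have no : 2 * D ∉ Q := fun h => by
      have h4 := (int_mem hp hQ (n := 2 ^ 2 * d)).1 (by
        convert Q.mul_mem_left (2 * D) h using 1
        push_cast
        linear_combination -4 * h2)
      have hP := Nat.prime_iff_prime_int.1 hp
      have h5 : p ∣ 2 := by exact_mod_cast hP.dvd_of_dvd_pow ((hP.dvd_or_dvd h4).resolve_right hd)
      exact (Nat.not_even_iff_odd.2 ho) ((Nat.prime_dvd_prime_iff_eq hp Nat.prime_two).1 h5 ▸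
        even_two)
    rw [jac_recip h4 ho, ← jacobiSym.legendreSym.to_jacobiSym]
    have hl := legendreSym.eq_one_or_neg_one p (a := d)
      (mt (ZMod.intCast_zmod_eq_zero_iff_dvd d p).1 hd)
    refine (pm_of_sq hδ φ).imp (fun h => ⟨h, hl.resolve_right fun l => no ?_⟩)
      fun h => ⟨h, hl.resolve_left fun l => no ?_⟩
    · rw [l, show φ • D = D from RingOfIntegers.ext (by change φ D = D; rwa [h1])] at e2
      convert e2 using 1
      push_cast
      ring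
    · rw [l, show φ • D = -D from RingOfIntegers.ext (by change φ D = -D; rwa [h1])] at e2
      convert neg_mem e2 using 1
      push_cast
      ring

theorem exists_ine [IsGalois ℚ M] (hδ : δ ^ 2 = d) (hs : Squarefree d) (hp : p.Prime) [Q.IsPrime]
    (hQ : (p : 𝓞 M) ∈ Q) (hd : (p : ℤ) ∣ d) : ∃ τ ∈ Q.inertia (M ≃ₐ[ℚ] M), τ δ = -δ := by
  obtain ⟨D, rfl, h2⟩ := exists_rt hδ
  have hP := Nat.prime_iff_prime_int.1 hp
  have inv : ∀ x : 𝓞 M, (∀ σ : M ≃ₐ[ℚ] M, σ • x = x) → ∃ n : ℤ, (n : 𝓞 M) = x := fun x hx =>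
    Algebra.IsInvariant.isInvariant (A := ℤ) x hx
  have pm : ∀ σ : M ≃ₐ[ℚ] M, σ • D = D ∨ σ • D = -D := fun σ =>
    (pm_of_sq hδ σ).imp (fun h => RingOfIntegers.ext h) fun h => RingOfIntegers.ext h
  have key : ∀ c : 𝓞 M, (∀ σ : M ≃ₐ[ℚ] M, (σ • D = D → σ • c = c) ∧ (σ • D = -D → σ • c = -c)) →
      c ∈ Q := fun c hc => by
    obtain ⟨m, hm⟩ := inv (c * D) fun σ => by
      rcases pm σ with h | h
      · rw [smul_mul', h, (hc σ).1 h]
      · rw [smul_mul', h, (hc σ).2 h, neg_mul_neg]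
    obtain ⟨n, hn⟩ := inv (c * c) fun σ => by
      rcases pm σ with h | h
      · rw [smul_mul', (hc σ).1 h]
      · rw [smul_mul', (hc σ).2 h, neg_mul_neg]
    have e : m ^ 2 = n * d := Int.cast_injective (α := 𝓞 M) (by
      push_cast
      rw [hm, hn, ← h2]
      ring)
    obtain ⟨d', rfl⟩ := hd
    obtain ⟨m', rfl⟩ := hP.dvd_of_dvd_pow (show (p : ℤ) ∣ m ^ 2 from ⟨n * d', by rw [e]; ring⟩)
    have e' : (p : ℤ) ∣ n * d' := ⟨m' ^ 2, mul_left_cancel₀ hP.ne_zero (by linear_combination -e)⟩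
    have hn' := (hP.dvd_or_dvd e').resolve_right fun k =>
      hP.not_isUnit (hs _ (mul_dvd_mul_left _ k))
    exact (Ideal.IsPrime.mem_or_mem ‹_› (hn ▸ (int_mem hp hQ).2 hn')).elim id id
  obtain ⟨g, hg⟩ : ∃ g : M ≃ₐ[ℚ] M, g • D = -D := by
    by_contra! k
    obtain ⟨m, rfl⟩ := inv D fun σ => (pm σ).resolve_right (k σ)
    have e : m ^ 2 = d := by exact_mod_cast h2
    exact hP.not_isUnit (hs _ (by
      rw [← e, sq]
      exact mul_dvd_mul (hP.dvd_of_dvd_pow (e ▸ hd)) (hP.dvd_of_dvd_pow (e ▸ hd))))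
  obtain ⟨n, hn, hI⟩ := exists_mul_mem_inertia (MulAction.stabilizer (M ≃ₐ[ℚ] M) D) Q
    (fun σ a ha => by
      rcases pm σ with h | h
      · rw [ha σ h, sub_self]
        exact zero_mem _
      have z : ∀ τ : M ≃ₐ[ℚ] M, τ • D = -D → τ • a = σ • a := fun τ k => by
        rw [← inv_smul_eq_iff, ← mul_smul, ha]
        rw [MulAction.mem_stabilizer_iff, mul_smul, k, inv_smul_eq_iff, h]
      refine key _ fun τ => ⟨fun k => ?_, fun k => ?_⟩
      · rw [smul_sub, ha τ k, ← mul_smul, z _ (by rw [mul_smul, h, smul_neg, k])]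
      · rw [smul_sub, z τ k, ← mul_smul, ha, neg_sub]
        rw [MulAction.mem_stabilizer_iff, mul_smul, h, smul_neg, k, neg_neg]) g
  refine ⟨_, hI, congrArg (fun x : 𝓞 M => (x : M)) (?_ : (n * g) • D = -D)⟩
  rw [mul_smul, hg, smul_neg, MulAction.mem_stabilizer_iff.1 hn]

end Pool.Agent.Lib.MP_60ff09_nt.V4
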