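import Pool.Agent.Lib.MP_60ff09_nt.V4Defs
import Pool.Agent.Lib.MP_60ff09_nt.V4Gal
import Pool.Agent.Lib.MP_696deb_nt.Assembly

/-! The Euler factors of a sum of quadratic characters. -/

set_option autoImplicit false

open scoped Classical TensorProduct
open NumberField NumberTheorySymbols Pool.Agent.Lib.MP_696deb_nt

namespace Pool.Agent.Lib.MP_60ff09_nt.V4

theorem det_diag {W ι : Type} [AddCommGroup W] [Module ℂ W] [Fintype ι] (w : Module.Basis ι ℂ W)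
    (S : Module.End ℂ W) (μ : ι → ℂ) (h : ∀ i, S (w i) = μ i • w i) :
    LinearMap.det S = ∏ i, μ i := by
  rw [← LinearMap.det_toMatrix w, ← Matrix.det_diagonal]
  congr 1
  ext i j
  rw [LinearMap.toMatrix_apply, h, map_smul, w.repr_self, Matrix.diagonal_apply, Finsupp.smul_apply,
    Finsupp.single_apply, smul_eq_mul]
  by_cases e : i = j
  · simp [e]
  · simp [e, Ne.symm e]

theorem onInv_apply {G : Type} [Group G] [Finite G] (V : Rep ℂ G) (I : Subgroup G) (φ : G) (w : V) :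
    onInv V I φ w = (Nat.card I : ℂ)⁻¹ • ∑ᶠ τ : I, V.ρ φ (V.ρ τ w) := by
  have := Fintype.ofFinite I
  simp [onInv, finsum_eq_sum_of_fintype, LinearMap.sum_apply]

theorem onInv_fix {G : Type} [Group G] [Finite G] (V : Rep ℂ G) (I : Subgroup G) (φ : G) {w : V}
    (h : ∀ τ ∈ I, V.ρ τ w = w) : onInv V I φ w = V.ρ φ w := by
  have := Fintype.ofFinite I
  rw [onInv_apply, finsum_eq_sum_of_fintype, Finset.sum_congr rfl fun τ _ => by rw [h τ τ.2],
    Finset.sum_const, Finset.card_univ, ← Nat.card_eq_fintype_card, ← Nat.cast_smul_eq_nsmul ℂ,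
    inv_smul_smul₀ (Nat.cast_ne_zero.2 Nat.card_pos.ne')]

theorem onInv_zero {G : Type} [Group G] [Finite G] (V : Rep ℂ G) (I : Subgroup G) (φ : G) {w : V}
    {τ : G} (hτ : τ ∈ I) (h : V.ρ τ w = -w) : onInv V I φ w = 0 := by
  have := Fintype.ofFinite I
  have e : ∑ σ : I, V.ρ φ (V.ρ σ w) = -∑ σ : I, V.ρ φ (V.ρ σ w) := by
    rw [← Finset.sum_neg_distrib, ← Equiv.sum_comp (Equiv.mulRight (⟨τ, hτ⟩ : I))]
    refine Finset.sum_congr rfl fun σ _ => ?_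
    simp [h]
  rw [onInv_apply, finsum_eq_sum_of_fintype, smul_eq_zero_of_right]
  rw [eq_neg_iff_add_eq_zero, ← two_smul ℂ] at e
  exact (smul_eq_zero.1 e).resolve_left two_ne_zero

theorem bc_tmul {R G : Type} [CommRing R] [Group G] (S : Type) [CommRing S] [Algebra R S]
    (A : Rep R G) (g : G) (s : S) (x : A) :
    (bc S A).ρ g (s ⊗ₜ[R] x) = s ⊗ₜ[R] A.ρ g x := rfl

variable {M L : Type} [Field M] [NumberField M] [IsGalois ℚ M] [Field L] [Algebra L ℂ]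
  {V : Rep L (M ≃ₐ[ℚ] M)} {d : Fin 4 → ℤ}

theorem eul_eq (hV : Splits V d) (hd : ∀ i, Squarefree (d i) ∧ d i % 4 = 1) {p : ℕ} (hp : p.Prime)
    {Q : Ideal (𝓞 M)} [Q.IsPrime] (hQ : (p : 𝓞 M) ∈ Q) {φ : M ≃ₐ[ℚ] M} (hφ : IsArithFrobAt ℤ φ Q)
    (a : ℕ → ℤ) (s : ℂ) : eul (onInv (bc ℂ V) (Q.inertia (M ≃ₐ[ℚ] M)) φ) (a p) p s =
      ∏ i, loc (xi (d i).natAbs) a (fun p => if p ∣ 15 then 0 else p) p s := by
  obtain ⟨v, δ, h⟩ := hV
  let w : Module.Basis (Fin 4) ℂ (bc ℂ V) := v.baseChange ℂ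
  have hw : ∀ i, w i = (1 : ℂ) ⊗ₜ[L] v i := fun i => v.baseChange_apply ℂ i
  have h1 : ∀ i σ, σ (δ i) = δ i → (bc ℂ V).ρ σ (w i) = w i := fun i σ e => by
    rw [hw, bc_tmul, ((h i).2 σ).1 e]
  have h2 : ∀ i σ, σ (δ i) = -δ i → (bc ℂ V).ρ σ (w i) = -w i := fun i σ e => by
    rw [hw, bc_tmul, ((h i).2 σ).2 e, TensorProduct.tmul_neg]
    rfl
  have key : ∀ i, onInv (bc ℂ V) (Q.inertia (M ≃ₐ[ℚ] M)) φ (w i) = xi (d i).natAbs p • w i := by
    intro i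
    by_cases hi : (p : ℤ) ∣ d i
    · obtain ⟨τ, hτ, e⟩ := exists_ine (h i).1 (hd i).1 hp hQ hi
      have : NeZero (d i).natAbs := ⟨by have := (hd i).2; omega⟩
      rw [onInv_zero _ _ _ hτ (h2 i τ e), xi, jacobiSym.eq_zero_iff_not_coprime.2, Int.cast_zero,
        zero_smul]
      rw [Int.gcd_natCast_natCast]
      exact fun k => (Nat.Prime.coprime_iff_not_dvd hp).1 k (Int.natCast_dvd.1 hi)
    · rw [onInv_fix _ _ _ fun τ hτ => h1 i τ (ine_fix (h i).1 (hd i).2 hp hQ hi hτ), xi]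
      rcases frob_rt (h i).1 (hd i).2 hp hQ hi hφ with ⟨e, j⟩ | ⟨e, j⟩
      · rw [h1 i φ e, j, Int.cast_one, one_smul]
      · rw [h2 i φ e, j, Int.cast_neg, Int.cast_one, neg_one_smul]
  refine det_diag w _ _ fun i => ?_
  have hp0 : (p : ℂ) ≠ 0 := Nat.cast_ne_zero.2 hp.ne_zero
  have e : (p : ℂ) ^ (1 - 2 * s) = p * ((p : ℂ) ^ (-s)) ^ 2 := by
    rw [sub_eq_add_neg, Complex.cpow_add _ _ hp0, Complex.cpow_one, sq, ← Complex.cpow_add _ _ hp0]
    congr 2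
    ring
  simp only [LinearMap.add_apply, LinearMap.sub_apply, LinearMap.smul_apply, sq,
    Module.End.mul_apply, Module.End.one_apply, key, map_smul, smul_smul, loc, e, add_smul,
    sub_smul, one_smul]
  congr 2
  · congr 1
    ring
  · split_ifs <;> simp
    ring

end Pool.Agent.Lib.MP_60ff09_nt.V4
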