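import Pool.Agent.Lib.MP_60ff09_nt.V4Rk
import Pool.Agent.Lib.MP_60ff09_nt.V4Eul
import Pool.Agent.Lib.MP_60ff09_nt.V4An

/-! The conjecture of Beilinson for a sum of quadratic characters from the rank statement for the
quadratic twists. -/

set_option autoImplicit false

open scoped Classical
open NumberField NumberTheorySymbols CategoryTheory Pool.Agent.Lib.MP_696deb_nt

namespace Pool.Agent.Lib.MP_60ff09_nt.V4

variable {M L : Type} [Field M] [NumberField M] [IsGalois ℚ M] [Field L]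
  {V : Rep L (M ≃ₐ[ℚ] M)} {d : Fin 4 → ℤ}

theorem rank_sub {A : Type} [AddCommGroup A] (S : Submodule ℤ A) :
    @Module.rank ℤ S _ _ S.module = Module.rank ℤ S.toAddSubgroup := rfl

theorem rank_res {G H : Type} [Group G] [Field H] [NumberField H] [Normal ℚ H] {e : ℤ} (he : e ≠ 0)
    {δ : H} (hδ : δ ^ 2 = e) (f : G →* (H ≃ₐ[ℚ] H)) (hf : Function.Surjective f) (χ : G → ℤ)
    (h1 : ∀ σ, f σ δ = δ → χ σ = 1) (h2 : ∀ σ, f σ δ = -δ → χ σ = -1) :
    @Module.rank ℤ _ _ _ (eig (Rep.res f (pts X115 H)) χ).module =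
      Module.rank ℤ (twist15 e).toAffine.Point := by
  refine (rank_sub (A := Pt W1 H) (eig (Rep.res f (pts X115 H)) χ)).trans
    (rank_tw he hδ _ fun P => ⟨fun h τ => ?_, fun h σ => ?_⟩)
  · obtain ⟨σ, rfl⟩ := hf τ
    exact ⟨fun k => (h σ).trans (by rw [h1 σ k, one_zsmul]),
      fun k => (h σ).trans (by rw [h2 σ k, neg_one_zsmul]; rfl)⟩
  · rcases pm_of_sq hδ (f σ) with k | k
    · rw [h1 σ k, one_zsmul]
      exact (h _).1 k
    · rw [h2 σ k, neg_one_zsmul]
      exact (h _).2 k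

omit [IsGalois ℚ M] in
theorem rank_mw [Normal ℚ M] [CharZero L] (H : IntermediateField ℚ M) [Normal ℚ H] {e : ℤ}
    (he : e ≠ 0) {δ : M} (hδ : δ ^ 2 = e) (hH : δ ∈ H) :
    Module.rank L (eig (mw L X115 H) fun σ => if σ δ = δ then 1 else -1) =
      Module.rank ℤ (twist15 e).toAffine.Point := by
  have ne : δ ≠ -δ := fun k => he (by
    have : δ = 0 := by linear_combination k / 2
    exact_mod_cast (hδ.symm.trans (by rw [this]; ring) : (e : M) = 0))
  have c : ∀ σ : M ≃ₐ[ℚ] M, (AlgEquiv.restrictNormalHom H σ ⟨δ, hH⟩ : M) = σ δ := fun σ =>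
    σ.restrictNormal_commutes H ⟨δ, hH⟩
  have k1 := rank_eig L (Rep.res (AlgEquiv.restrictNormalHom H) (pts X115 H))
    (fun σ : M ≃ₐ[ℚ] M => if σ δ = δ then 1 else -1) (fun σ τ => by
      rcases pm_of_sq hδ σ with k | k <;> rcases pm_of_sq hδ τ with l | l <;>
        simp [k, l, ne.symm]) fun σ => by split_ifs <;> rfl
  have k2 := rank_res he (δ := (⟨δ, hH⟩ : H)) (Subtype.ext (by simpa using hδ))
    (AlgEquiv.restrictNormalHom H) (AlgEquiv.restrictNormalHom_surjective M)
    (fun σ : M ≃ₐ[ℚ] M => if σ δ = δ then 1 else -1)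
    (fun σ k => if_pos ((c σ).symm.trans (congrArg Subtype.val k)))
    fun σ k => if_neg fun l => ne (l.symm.trans ((c σ).symm.trans (congrArg Subtype.val k)))
  exact k1.trans k2

theorem hom_dim [CharZero L] (hV : Splits V d) (hd : ∀ i, d i ≠ 0)
    (hf : ∀ i, Module.Finite ℤ (twist15 (d i)).toAffine.Point) : Module.Finite L (HomG V) ∧
      Module.finrank L (HomG V) = ∑ i, Module.finrank ℤ (twist15 (d i)).toAffine.Point := by
  obtain ⟨v, δ, h⟩ := hV
  obtain ⟨e⟩ := hom_equiv V (mw L X115 (IntermediateField.fixedField V.ρ.ker)) v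
    (fun i σ => if σ (δ i) = δ i then 1 else -1) fun i σ => by
      split_ifs with k
      · rw [((h i).2 σ).1 k, one_zsmul]
      · rw [((h i).2 σ).2 ((pm_of_sq (h i).1 σ).resolve_left k), neg_one_zsmul]
  have k := fun i => rank_mw (L := L) (IntermediateField.fixedField V.ρ.ker) (hd i) (h i).1
    fun σ => (pm_of_sq (h i).1 σ).resolve_right fun l => v.ne_zero i (by
      have e := ((h i).2 σ).2 l
      rw [σ.2, Module.End.one_apply, eq_neg_iff_add_eq_zero, ← two_smul L] at e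
      exact (smul_eq_zero.1 e).resolve_left two_ne_zero)
  have f := fun i => Module.rank_lt_aleph0_iff.mp (k i ▸ Module.rank_lt_aleph0 ℤ _)
  refine ⟨Module.Finite.equiv e.symm, e.finrank_eq.trans ?_⟩
  rw [Module.finrank_pi_fintype]
  exact Finset.sum_congr rfl fun i _ => congrArg Cardinal.toNat (k i)

theorem beil_of_bsd [Algebra L ℂ] (hV : Splits V d) (hd : ∀ i, Squarefree (d i) ∧ d i % 4 = 1)
    {r : Fin 4 → ℕ} (h : ∀ i, BSD (-12987 * d i ^ 2) (-263466 * d i ^ 3) (r i)) :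
    Beil a15 V (∑ i, r i) := by
  have : CharZero L := (algebraMap L ℂ).charZero
  choose G h1 h2 h3 using fun i => entire_of_bsd (hd i).1 (hd i).2 (h i)
  obtain ⟨k1, k2⟩ := hom_dim hV (fun i => (hd i).1.ne_zero) fun i => (h i).choose_spec.2.2.2.1
  have k3 : Module.finrank L (HomG V) = ∑ i, r i := k2.trans (Finset.sum_congr rfl fun i _ => by
    obtain ⟨F, -, -, e1, -, e2⟩ := h i
    exact_mod_cast e1.symm.trans e2)
  refine ⟨∏ i, G i, Differentiable.finsetProd fun i _ => h1 i, fun Q φ hQ s hs => ?_, k1, ?_, k3⟩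
  · rw [Finset.prod_apply]
    convert hasProd_prod (s := Finset.univ) fun i _ => hasProd_loc hecke15 (xi_one (d i).natAbs)
      (xi_mul _) (summable_twist (norm_xi_le _) (a15_summable hs)) using 2 with p i
    · split_ifs with hp
      · obtain ⟨q1, q2, q3⟩ := hQ p hp
        rw [eul_eq hV hd hp q2 q3, Finset.prod_inv_distrib]
      · simp
    · exact h2 i s hs
  · rw [k3, Fin.prod_univ_four, Fin.sum_univ_four]
    have a := fun i => (h1 i).analyticAt 1
    rw [analyticOrderAt_mul (((a 0).mul (a 1)).mul (a 2)) (a 3),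
      analyticOrderAt_mul ((a 0).mul (a 1)) (a 2), analyticOrderAt_mul (a 0) (a 1), h3, h3, h3, h3]
    push_cast
    rfl

end Pool.Agent.Lib.MP_60ff09_nt.V4
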