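import Pool.Agent.Lib.MP_60ff09_nt.Two

set_option autoImplicit false

open NumberField CategoryTheory MonoidalCategory

namespace Pool.Agent.Lib.MP_60ff09_nt.Eis15Old

/-- The modular curve `X_1(15)`, the elliptic curve `y^2 + x y + y = x^3 + x^2` over `ℚ`. -/
def X115 : WeierstrassCurve ℚ := { a₁ := 1, a₂ := 1, a₃ := 1, a₄ := 0, a₆ := 0 }

variable (K : Type) [Field K] [NumberField K] [DecidableEq K]

/-- The group of `K`-points of `X_1(15)`, that is of degree zero divisor classes over `K`. -/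
abbrev Pts : Type := (X115.baseChange K).toAffine.Point

/-- The rational vector space `ℚ ⊗ X_1(15)(K)`. -/
noncomputable def MW : ModuleCat ℚ := ModuleCat.of ℚ (TensorProduct ℤ ℚ (Pts K))

/-- The Galois action on points. -/
noncomputable def actP (σ : K ≃ₐ[ℚ] K) : Pts K →+ Pts K :=
  WeierstrassCurve.Affine.Point.map (W' := X115.toAffine) (σ : K →ₐ[ℚ] K)

/-- The Galois action on `ℚ ⊗ X_1(15)(K)`. -/
noncomputable def actMW (σ : K ≃ₐ[ℚ] K) : MW K ⟶ MW K :=
  ModuleCat.ofHom (LinearMap.baseChange ℚ (actP K σ).toIntLinearMap)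

/-- The space of the regular representation `V_g` of the Galois group of `K`. -/
noncomputable def Vg : ModuleCat ℚ := ModuleCat.of ℚ ((K ≃ₐ[ℚ] K) →₀ ℚ)

/-- The Galois action on `V_g` by left translation. -/
noncomputable def actG (σ : K ≃ₐ[ℚ] K) : Vg K ⟶ Vg K :=
  ModuleCat.ofHom (Finsupp.lmapDomain ℚ ℚ fun τ : K ≃ₐ[ℚ] K => σ * τ)

/-- The Galois equivariant linear maps from `V_g ⊗ V_g` to `ℚ ⊗ X_1(15)(K)`. -/
noncomputable def HomG : Submodule ℚ (Vg K ⊗ Vg K ⟶ MW K) where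
  carrier := {φ | ∀ σ : K ≃ₐ[ℚ] K, (actG K σ ⊗ₘ actG K σ) ≫ φ = φ ≫ actMW K σ}
  add_mem' ha hb σ := by rw [Preadditive.comp_add, Preadditive.add_comp, ha σ, hb σ]
  zero_mem' σ := by simp
  smul_mem' c φ h σ := by rw [Linear.comp_smul, Linear.smul_comp, h σ]

/-- The dimension of the space of equivariant maps. -/
noncomputable def dimHom : ℕ := Module.finrank ℚ (HomG K)

theorem result (K : Type) [Field K] [NumberField K] [DecidableEq K] (N : ℕ)
    (hK : Module.finrank ℚ K = 2) (δ : K) (hδ : δ ^ 2 = -(N : K)) (hN : Squarefree N)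
    (h12 : N % 12 = 11) (h5 : ¬ 5 ∣ N)
    (hCl : ∀ c : ClassGroup (𝓞 K), orderOf c ≠ 4) :
    ∃ a : ℕ → ℤ,
      (∀ z : ℂ, 0 < z.im →
        HasSum (fun n : ℕ => (a n : ℂ) * Complex.exp (2 * Real.pi * Complex.I * n * z))
          (ModularForm.eta z * ModularForm.eta (3 * z) * ModularForm.eta (5 * z) *
            ModularForm.eta (15 * z))) ∧
      (∀ s : ℂ, (3 : ℝ) / 2 < s.re → LSeriesSummable (fun n => (a n : ℂ)) s) ∧
      ∃ F : ℂ → ℂ, Differentiable ℂ F ∧
        (∀ s : ℂ, (3 : ℝ) / 2 < s.re → F s = LSeries (fun n => (a n : ℂ)) s ^ 2 *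
          LSeries (fun n => ((jacobiSym n N : ℤ) : ℂ) * (a n : ℂ)) s ^ 2) ∧
        analyticOrderAt F 1 = (dimHom K : ℕ∞) ∧
        Module.Finite ℚ (HomG K) ∧
        dimHom K = if N % 5 = 1 ∨ N % 5 = 4 then 2 else 0 := by
  open Pool.Agent.Lib.MP_696deb_nt Pool.Agent.Lib.MP_60ff09_nt in
  have hB := condB_of_no_order_four hK hδ hN (by omega) hCl
  obtain ⟨G, hG, hGL, hG1, hr⟩ := exists_twist hN h12 h5 hB
  obtain ⟨F, h1, h2, h0⟩ := exists_triple' G hG hGL
  have hf := (finite_and_finrank_le hN (by omega) (by omega) (by omega) hB).1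
  have hk : Module.rank ℚ (MW K) = Module.rank ℤ (twist15 (-(N : ℤ))).toAffine.Point :=
    (TensorProduct.isBaseChange ℤ (Pts K) ℚ).rank_eq.trans
      (rank_W1 (N := N) (by omega) hK (by simpa using hδ))
  have hM : Module.Finite ℚ (MW K) :=
    Module.rank_lt_aleph0_iff.mp (hk ▸ Module.rank_lt_aleph0 _ _)
  obtain ⟨e⟩ := exists_equiv (G := K ≃ₐ[ℚ] K) (M := MW K) (fun σ => (actMW K σ).hom)
    (fun x => by
      rw [actMW, show (actP K 1).toIntLinearMap = .id from LinearMap.ext fun P => by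
        cases P <;> rfl, LinearMap.baseChange_id]
      rfl)
    (fun σ τ x => by
      rw [actMW, show (actP K (σ * τ)).toIntLinearMap =
        (actP K σ).toIntLinearMap ∘ₗ (actP K τ).toIntLinearMap from LinearMap.ext fun P => by
          cases P <;> rfl, LinearMap.baseChange_comp]
      rfl)
    ((ModuleCat.homLinearEquiv (S := ℚ)).toLinearMap ∘ₗ (HomG K).subtype)
    ((ModuleCat.homLinearEquiv (S := ℚ)).injective.comp Subtype.val_injective) fun φ =>
      ⟨fun ⟨x, hx⟩ σ => hx ▸ congrArg ModuleCat.Hom.hom (x.2 σ),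
        fun h => ⟨⟨ModuleCat.ofHom φ, fun σ => ModuleCat.hom_ext (h σ)⟩, rfl⟩⟩
  have : Algebra.IsQuadraticExtension ℚ K := { finrank_eq_two' := hK }
  have hd : dimHom K = 2 * if N % 5 = 1 ∨ N % 5 = 4 then 1 else 0 := by
    rw [dimHom, e.finrank_eq, Module.finrank_pi_fintype, Finset.sum_const, Finset.card_univ,
      ← Nat.card_eq_fintype_card, IsGalois.card_aut_eq_finrank, hK, smul_eq_mul, ← hr,
      Module.finrank, hk, Module.finrank]
  refine ⟨a15, hasSum_a15, fun s hs => a15_summable hs, F, h1, h2, ?_, .equiv e.symm, ?_⟩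
  · rw [h0, hG1, hd, Nat.cast_mul, Nat.cast_ofNat]
  · rw [hd]
    split_ifs <;> rfl

end Pool.Agent.Lib.MP_60ff09_nt.Eis15Old
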