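import Pool.Agent.Lib.MP_60ff09_nt.Rank
import Pool.Agent.Lib.MP_696deb_nt.Per

set_option autoImplicit false

open Complex ModularForm
open scoped Real
open Pool.Agent.Lib.MP_696deb_nt

namespace Pool.Agent.Lib.MP_60ff09_nt

theorem hasSum_a15 (z : ℂ) (hz : 0 < z.im) :
    HasSum (fun n : ℕ => (a15 n : ℂ) * cexp (2 * π * I * n * z))
      (η z * η (3 * z) * η (5 * z) * η (15 * z)) := by
  have := qe_f15.hasSum hz
  rw [f15_eq] at this
  refine this.congr_fun fun n => ?_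
  rw [← q1_nat_mul, q1, show 2 * π * I * (n * z) = 2 * π * I * n * z by ring]
  simp [a15]

theorem exists_entire_one : ∃ G : ℂ → ℂ, Differentiable ℂ G ∧
    (∀ s : ℂ, (3 : ℝ) / 2 < s.re → G s = LSeries (fun n => (a15 n : ℂ)) s) ∧ G 1 ≠ 0 := by
  obtain ⟨G, τ, h1, h2, -, h3⟩ := exists_entire_jacobi (N := 1) odd_one squarefree_one
  refine ⟨G, h1, fun s hs => by simpa using h2 s hs, fun h0 => ?_⟩
  rw [h0, mul_zero] at h3
  have h4 : ms 0 1 = 0 := by simpa using h3.symm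
  have := ms_zero_one_pos
  rw [h4] at this
  simp at this

theorem exists_triple {N : ℕ} (G : ℂ → ℂ) (hG : Differentiable ℂ G)
    (hGL : ∀ s : ℂ, (3 : ℝ) / 2 < s.re → G s = LSeries (fun n => xi N n * a15 n) s)
    (hG1 : G 1 ≠ 0) :
    ∃ F : ℂ → ℂ, Differentiable ℂ F ∧
      (∀ s : ℂ, (3 : ℝ) / 2 < s.re → F s = LSeries (fun n => (a15 n : ℂ)) s ^ 2 *
        LSeries (fun n => ((jacobiSym n N : ℤ) : ℂ) * a15 n) s ^ 2) ∧
      analyticOrderAt F 1 = 0 := by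
  obtain ⟨G0, h1, h2, h3⟩ := exists_entire_one
  have hF : Differentiable ℂ fun s => G0 s ^ 2 * G s ^ 2 := (h1.pow 2).mul (hG.pow 2)
  refine ⟨_, hF, fun s hs => by rw [h2 s hs, hGL s hs]; rfl, ?_⟩
  rw [(hF.analyticAt 1).analyticOrderAt_eq_zero]
  exact mul_ne_zero (pow_ne_zero 2 h3) (pow_ne_zero 2 hG1)

end Pool.Agent.Lib.MP_60ff09_nt
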