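import Pool.Agent.Lib.MP_60ff09_nt.V4Den
import Pool.Agent.Lib.MP_696deb_nt.B3.LF

/-! Sums of arbitrary quadratic characters. -/

set_option autoImplicit false

open scoped Classical TensorProduct
open Finset Filter Topology NumberField NumberTheorySymbols Pool.Agent.Lib.MP_696deb_nt

namespace Pool.Agent.Lib.MP_60ff09_nt.V4

open B3

section

variable {M : Type} [Field M] [NumberField M] {δ : M} {d : ℤ} {p : ℕ} {Q : Ideal (𝓞 M)}

theorem exists_ine2 [IsGalois ℚ M] (hδ : δ ^ 2 = d) (h3 : d % 4 = 3) [Q.IsPrime]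
    (hQ : ((2 : ℕ) : 𝓞 M) ∈ Q) : ∃ τ ∈ Q.inertia (M ≃ₐ[ℚ] M), τ δ = -δ := by
  obtain ⟨D, rfl, h2⟩ := exists_rt hδ
  have inv : ∀ x : 𝓞 M, (∀ σ : M ≃ₐ[ℚ] M, σ • x = x) → ∃ n : ℤ, (n : 𝓞 M) = x := fun x hx =>
    Algebra.IsInvariant.isInvariant (A := ℤ) x hx
  have pm : ∀ σ : M ≃ₐ[ℚ] M, σ • D = D ∨ σ • D = -D := fun σ =>
    (pm_of_sq hδ σ).imp (fun h => RingOfIntegers.ext h) fun h => RingOfIntegers.ext h
  have sq4 : ∀ m : ℤ, m ^ 2 % 4 = 0 ∨ m ^ 2 % 4 = 1 := fun m => by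
    obtain ⟨k, rfl | rfl⟩ := Int.even_or_odd' m
    · exact .inl (by rw [show (2 * k) ^ 2 = 4 * k ^ 2 by ring]; omega)
    · exact .inr (by rw [show (2 * k + 1) ^ 2 = 4 * (k ^ 2 + k) + 1 by ring]; omega)
  have key : ∀ a b : 𝓞 M, (∀ σ : M ≃ₐ[ℚ] M, (σ • D = D → σ • a = a ∧ σ • b = b) ∧
      (σ • D = -D → σ • a = b ∧ σ • b = a)) → b - a ∈ Q := fun a b hc => by
    obtain ⟨m, hm⟩ := inv ((b - a) * D) fun σ => by
      rcases pm σ with h | h
      · rw [smul_mul', smul_sub, h, ((hc σ).1 h).1, ((hc σ).1 h).2]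
      · rw [smul_mul', smul_sub, h, ((hc σ).2 h).1, ((hc σ).2 h).2]
        ring
    obtain ⟨t, ht⟩ := inv (a + b) fun σ => by
      rcases pm σ with h | h
      · rw [smul_add, ((hc σ).1 h).1, ((hc σ).1 h).2]
      · rw [smul_add, ((hc σ).2 h).1, ((hc σ).2 h).2, add_comm]
    obtain ⟨s, hs⟩ := inv (a * b) fun σ => by
      rcases pm σ with h | h
      · rw [smul_mul', ((hc σ).1 h).1, ((hc σ).1 h).2]
      · rw [smul_mul', ((hc σ).2 h).1, ((hc σ).2 h).2, mul_comm]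
    have e : m ^ 2 = (t ^ 2 - 4 * s) * d := Int.cast_injective (α := 𝓞 M) (by
      push_cast
      rw [hm, ht, hs, ← h2]
      ring)
    have hn : ((2 : ℕ) : ℤ) ∣ t ^ 2 - 4 * s := by
      have k1 := sq4 m
      rcases sq4 t with k | k
      · omega
      · rw [e, Int.mul_emod, h3, show (t ^ 2 - 4 * s) % 4 = 1 by omega] at k1
        omega
    have k2 := (int_mem Nat.prime_two hQ).2 hn
    rw [show ((t ^ 2 - 4 * s : ℤ) : 𝓞 M) = (b - a) * (b - a) by
      push_cast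
      rw [ht, hs]
      ring] at k2
    exact (Ideal.IsPrime.mem_or_mem ‹_› k2).elim id id
  obtain ⟨g, hg⟩ : ∃ g : M ≃ₐ[ℚ] M, g • D = -D := by
    by_contra! k
    obtain ⟨m, rfl⟩ := inv D fun σ => (pm σ).resolve_right (k σ)
    have e : m ^ 2 = d := by exact_mod_cast h2
    have := sq4 m
    omega
  obtain ⟨n, hn, hI⟩ := exists_mul_mem_inertia (MulAction.stabilizer (M ≃ₐ[ℚ] M) D) Q
    (fun σ a ha => by
      rcases pm σ with h | h
      · rw [ha σ h, sub_self]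
        exact zero_mem _
      have z : ∀ τ : M ≃ₐ[ℚ] M, τ • D = -D → τ • a = σ • a := fun τ k => by
        rw [← inv_smul_eq_iff, ← mul_smul, ha]
        rw [MulAction.mem_stabilizer_iff, mul_smul, k, inv_smul_eq_iff, h]
      refine key _ _ fun τ => ⟨fun k => ⟨ha τ k, ?_⟩, fun k => ⟨z τ k, ?_⟩⟩
      · rw [← mul_smul, z _ (by rw [mul_smul, h, smul_neg, k])]
      · rw [← mul_smul, ha]
        rw [MulAction.mem_stabilizer_iff, mul_smul, h, smul_neg, k, neg_neg]) g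
  refine ⟨_, hI, congrArg (fun x : 𝓞 M => (x : M)) (?_ : (n * g) • D = -D)⟩
  rw [mul_smul, hg, smul_neg, MulAction.mem_stabilizer_iff.1 hn]

theorem frob_odd (hδ : δ ^ 2 = d) (hp : p.Prime) (ho : Odd p) [Q.IsPrime] (hQ : (p : 𝓞 M) ∈ Q)
    (hd : ¬ (p : ℤ) ∣ d) {φ : M ≃ₐ[ℚ] M} (hφ : IsArithFrobAt ℤ φ Q) :
    (∀ τ ∈ Q.inertia (M ≃ₐ[ℚ] M), τ δ = δ) ∧
      ((φ δ = δ ∧ J(d | p) = 1) ∨ (φ δ = -δ ∧ J(d | p) = -1)) := by
  have hf : ∀ x : 𝓞 M, φ • x - x ^ p ∈ Q := fun x => by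
    have := hφ x
    rwa [under_eq hp hQ, Int.card_ideal_quot] at this
  have := Fact.mk hp
  obtain ⟨D, h1, h2⟩ := exists_rt hδ
  have e := hf D
  have k : (p : ℤ) ∣ d ^ (p / 2) - legendreSym p d := by
    rw [← ZMod.intCast_eq_intCast_iff_dvd_sub, legendreSym.eq_pow, Int.cast_pow]
  have e2 : φ • D - legendreSym p d * D ∈ Q := by
    convert add_mem e (Q.mul_mem_right D ((int_mem hp hQ).2 k)) using 1
    obtain ⟨m, rfl⟩ := ho
    rw [show (2 * m + 1) / 2 = m by omega, pow_succ, pow_mul, h2]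
    push_cast
    ring
  have no : 2 * D ∉ Q := fun h => by
    have h4 := (int_mem hp hQ (n := 2 ^ 2 * d)).1 (by
      convert Q.mul_mem_left (2 * D) h using 1
      push_cast
      linear_combination -4 * h2)
    have hP := Nat.prime_iff_prime_int.1 hp
    have h5 : p ∣ 2 := by exact_mod_cast hP.dvd_of_dvd_pow ((hP.dvd_or_dvd h4).resolve_right hd)
    exact (Nat.not_even_iff_odd.2 ho) ((Nat.prime_dvd_prime_iff_eq hp Nat.prime_two).1 h5 ▸
      even_two)
  refine ⟨fun τ hτ => (pm_of_sq hδ τ).resolve_right fun h => no ?_, ?_⟩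
  · have e3 : τ • D - D ∈ Q := hτ D
    rw [show τ • D = -D from RingOfIntegers.ext (by change τ D = -D; rwa [h1])] at e3
    convert neg_mem e3 using 1
    ring
  rw [← jacobiSym.legendreSym.to_jacobiSym]
  have hl := legendreSym.eq_one_or_neg_one p (a := d)
    (mt (ZMod.intCast_zmod_eq_zero_iff_dvd d p).1 hd)
  refine (pm_of_sq hδ φ).imp (fun h => ⟨h, hl.resolve_right fun l => no ?_⟩)
    fun h => ⟨h, hl.resolve_left fun l => no ?_⟩
  · rw [l, show φ • D = D from RingOfIntegers.ext (by change φ D = D; rwa [h1])] at e2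
    convert e2 using 1
    push_cast
    ring
  · rw [l, show φ • D = -D from RingOfIntegers.ext (by change φ D = -D; rwa [h1])] at e2
    convert neg_mem e2 using 1
    push_cast
    ring

theorem frob_kro [IsGalois ℚ M] (hδ : δ ^ 2 = d) (hs : Squarefree d) (hp : p.Prime) [Q.IsPrime]
    (hQ : (p : 𝓞 M) ∈ Q) {φ : M ≃ₐ[ℚ] M} (hφ : IsArithFrobAt ℤ φ Q) :
    (kro d p = 0 ∧ ∃ τ ∈ Q.inertia (M ≃ₐ[ℚ] M), τ δ = -δ) ∨
      ((∀ τ ∈ Q.inertia (M ≃ₐ[ℚ] M), τ δ = δ) ∧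
        ((φ δ = δ ∧ kro d p = 1) ∨ (φ δ = -δ ∧ kro d p = -1))) := by
  have z : (p : ℤ) ∣ cond d → kro d p = 0 := fun h => (pchr_kro hs).zero _ fun k =>
    (Nat.prime_iff_prime_int.1 hp).not_isUnit (k.isUnit_of_dvd' dvd_rfl h)
  by_cases hd : (p : ℤ) ∣ d
  · exact .inl ⟨z (hd.trans (dvd_cond hs)), exists_ine hδ hs hp hQ hd⟩
  rcases hp.eq_two_or_odd' with rfl | ho
  · by_cases h4 : d % 4 = 1
    · refine .inr ⟨fun τ => ine_fix hδ h4 hp hQ hd, ?_⟩
      rw [kro, chi2, if_pos h4, one_mul, odp, if_pos (by omega)]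
      exact frob_rt hδ h4 hp hQ hd hφ
    · refine .inl ⟨z ?_, exists_ine2 hδ (by omega) hQ⟩
      rw [cond_eq hs, if_neg h4]
      omega
  · rw [kro_odd hs ho]
    exact .inr (frob_odd hδ hp ho hQ hd hφ)

end

theorem entire_kro {d : ℤ} (hd : Squarefree d) {r : ℕ∞}
    (h : BSD (-12987 * d ^ 2) (-263466 * d ^ 3) r) : ∃ G : ℂ → ℂ, Differentiable ℂ G ∧
      (∀ s : ℂ, (3 : ℝ) / 2 < s.re → G s = LSeries (fun n => (kro d n : ℂ) * a15 n) s) ∧
      analyticOrderAt G 1 = r := by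
  obtain ⟨F, hF, hP, -, -, hr⟩ := h
  have hc := pchr_kro hd
  obtain ⟨τ, -, hL⟩ := hc.sum_Ladd
  have hG : Differentiable ℂ fun s => τ * LD d s := (LD_diff hd).const_mul τ
  refine ⟨_, hG, hL, ?_⟩
  set D := 2 * (-4 * (-12987 * d ^ 2) ^ 3 - 27 * (-263466 * d ^ 3) ^ 2) with hD
  have hD0 : D ≠ 0 := by
    rw [show D = 2 * (81 * 225 * 144) ^ 2 * d ^ 6 by rw [hD]; ring]
    have := hd.ne_zero
    positivity
  let P := fun s => ∏ p ∈ D.natAbs.primeFactors,
    loc (fun n => (kro d n : ℂ)) a15 (fun p => if p ∣ 15 then 0 else p) p s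
  have dP : Differentiable ℂ P := Differentiable.fun_finsetProd fun p hp =>
    loc_differentiable _ _ _ (Nat.mem_primeFactors.mp hp).1.ne_zero
  have e : F = P * fun s => τ * LD d s := by
    refine AnalyticOnNhd.eq_of_eventuallyEq (hF.differentiableOn.analyticOnNhd isOpen_univ)
      ((dP.mul hG).differentiableOn.analyticOnNhd isOpen_univ) (z₀ := 2) ?_
    filter_upwards [(isOpen_lt continuous_const Complex.continuous_re).mem_nhds
      (show (3 : ℝ) / 2 < (2 : ℂ).re by norm_num)] with s hs'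
    rw [Pi.mul_apply, LD, hL s hs']
    refine (hP s hs').unique (hasProd_frozen hecke15 (ξ := fun n => (kro d n : ℂ))
      (by simp [hc.one]) (fun m n => by simp [hc.mul]) (summable_twist (fun n => by
        rcases hc.cases n with h | h | h <;> simp [h]) (a15_summable hs')) hD0 _ fun p hp hd' => ?_)
    rw [dvd_disc p hp, not_or, ← Int.natCast_dvd] at hd'
    have h2 : p ≠ 2 := fun h => hd'.1 (h ▸ by norm_num)
    refine ⟨lf_trace hd hp hd'.1 hd'.2, ?_,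
      by simp [show ¬ p ∣ 15 from fun h => hd'.1 (h.trans (by norm_num))]⟩
    exact_mod_cast hc.sq (Nat.isCoprime_iff_coprime.2 (hp.coprime_iff_not_dvd.2
      (mt (odd_dvd_cond hd (hp.odd_of_ne_two h2)).1 hd'.2)))
  have P1 : P 1 ≠ 0 := Finset.prod_ne_zero_iff.2 fun p hp => by
    obtain ⟨hp, hd', -⟩ := Nat.mem_primeFactors.mp hp
    exact lf_loc hd hp (((dvd_disc p hp).1 (Int.natCast_dvd.2 hd')).imp_right Int.natCast_dvd.2)
  rw [← hr, e, analyticOrderAt_mul (dP.analyticAt 1) (hG.analyticAt 1),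
    (dP.analyticAt 1).analyticOrderAt_eq_zero.2 P1, zero_add]

section

variable {M L : Type} [Field M] [NumberField M] [IsGalois ℚ M] [Field L] [Algebra L ℂ]
  {V : Rep L (M ≃ₐ[ℚ] M)} {d : Fin 4 → ℤ}

theorem eul_kro (hV : Splits V d) (hd : ∀ i, Squarefree (d i)) {p : ℕ} (hp : p.Prime)
    {Q : Ideal (𝓞 M)} [Q.IsPrime] (hQ : (p : 𝓞 M) ∈ Q) {φ : M ≃ₐ[ℚ] M} (hφ : IsArithFrobAt ℤ φ Q)
    (a : ℕ → ℤ) (s : ℂ) : eul (onInv (bc ℂ V) (Q.inertia (M ≃ₐ[ℚ] M)) φ) (a p) p s =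
      ∏ i, loc (fun n => (kro (d i) n : ℂ)) a (fun p => if p ∣ 15 then 0 else p) p s := by
  obtain ⟨v, δ, h⟩ := hV
  let w : Module.Basis (Fin 4) ℂ (bc ℂ V) := v.baseChange ℂ
  have hw : ∀ i, w i = (1 : ℂ) ⊗ₜ[L] v i := fun i => v.baseChange_apply ℂ i
  have h1 : ∀ i σ, σ (δ i) = δ i → (bc ℂ V).ρ σ (w i) = w i := fun i σ e => by
    rw [hw, bc_tmul, ((h i).2 σ).1 e]
  have h2 : ∀ i σ, σ (δ i) = -δ i → (bc ℂ V).ρ σ (w i) = -w i := fun i σ e => by
    rw [hw, bc_tmul, ((h i).2 σ).2 e, TensorProduct.tmul_neg]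
    rfl
  have key : ∀ i, onInv (bc ℂ V) (Q.inertia (M ≃ₐ[ℚ] M)) φ (w i) = (kro (d i) p : ℂ) • w i := by
    intro i
    rcases frob_kro (h i).1 (hd i) hp hQ hφ with ⟨j, τ, hτ, e⟩ | ⟨k, l⟩
    · rw [onInv_zero _ _ _ hτ (h2 i τ e), j, Int.cast_zero, zero_smul]
    · rw [onInv_fix _ _ _ fun τ hτ => h1 i τ (k τ hτ)]
      rcases l with ⟨e, j⟩ | ⟨e, j⟩
      · rw [h1 i φ e, j, Int.cast_one, one_smul]
      · rw [h2 i φ e, j, Int.cast_neg, Int.cast_one, neg_one_smul]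
  refine det_diag w _ _ fun i => ?_
  have hp0 : (p : ℂ) ≠ 0 := Nat.cast_ne_zero.2 hp.ne_zero
  have e : (p : ℂ) ^ (1 - 2 * s) = p * ((p : ℂ) ^ (-s)) ^ 2 := by
    rw [sub_eq_add_neg, Complex.cpow_add _ _ hp0, Complex.cpow_one, sq, ← Complex.cpow_add _ _ hp0]
    congr 2
    ring
  simp only [LinearMap.add_apply, LinearMap.sub_apply, LinearMap.smul_apply, sq,
    Module.End.mul_apply, Module.End.one_apply, key, map_smul, smul_smul, loc, e, add_smul,
    sub_smul, one_smul]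
  congr 2
  · congr 1
    ring
  · split_ifs <;> simp
    ring

theorem beil_all (hV : Splits V d) (hd : ∀ i, Squarefree (d i))
    (h : ∀ i, BSD (-12987 * d i ^ 2) (-263466 * d i ^ 3) (if rootNo (d i) = 1 then 0 else 1)) :
    Beil a15 V (univ.filter fun i => rootNo (d i) = -1).card := by
  have : CharZero L := (algebraMap L ℂ).charZero
  obtain ⟨r, hr⟩ : ∃ r : Fin 4 → ℕ, r = fun i => if rootNo (d i) = -1 then 1 else 0 := ⟨_, rfl⟩
  have h' : ∀ i, BSD (-12987 * d i ^ 2) (-263466 * d i ^ 3) (r i) := fun i => by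
    have k := h i
    rcases rootNo_cases (hd i).ne_zero with j | j <;> simpa [hr, j] using k
  rw [card_filter, show (∑ i, if rootNo (d i) = -1 then 1 else 0) = ∑ i, r i by rw [hr]]
  clear h
  choose G h1 h2 h3 using fun i => entire_kro (hd i) (h' i)
  obtain ⟨k1, k2⟩ := hom_dim hV (fun i => (hd i).ne_zero) fun i => (h' i).choose_spec.2.2.2.1
  have k3 : Module.finrank L (HomG V) = ∑ i, r i := k2.trans (Finset.sum_congr rfl fun i _ => by
    obtain ⟨F, -, -, e1, -, e2⟩ := h' i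
    exact_mod_cast e1.symm.trans e2)
  refine ⟨∏ i, G i, Differentiable.finsetProd fun i _ => h1 i, fun Q φ hQ s hs => ?_, k1, ?_, k3⟩
  · rw [Finset.prod_apply]
    convert hasProd_prod (s := Finset.univ) fun i _ => hasProd_loc hecke15
      (ξ := fun n => (kro (d i) n : ℂ)) (by simp [(pchr_kro (hd i)).one])
      (fun m n => by simp [(pchr_kro (hd i)).mul]) (summable_twist (fun n => by
        rcases (pchr_kro (hd i)).cases n with h | h | h <;> simp [h]) (a15_summable hs))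
      using 2 with p i
    · split_ifs with hp
      · obtain ⟨q1, q2, q3⟩ := hQ p hp
        rw [eul_kro hV hd hp q2 q3, Finset.prod_inv_distrib]
      · simp
    · exact h2 i s hs
  · rw [k3, Fin.prod_univ_four, Fin.sum_univ_four]
    have a := fun i => (h1 i).analyticAt 1
    rw [analyticOrderAt_mul (((a 0).mul (a 1)).mul (a 2)) (a 3),
      analyticOrderAt_mul ((a 0).mul (a 1)) (a 2), analyticOrderAt_mul (a 0) (a 1), h3, h3, h3, h3]
    push_cast
    rfl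

end

theorem eq_sqf {n c : ℤ} (hn : n ≠ 0) (hc : Squarefree c) (h : IsSquare (n * c)) : c = sqf n := by
  obtain ⟨k1, u, u0, k2⟩ := sqf_spec hn
  obtain ⟨v, hv⟩ := h
  exact (eq_of_sq k1 hc (c := u * c) (c' := v) (mul_ne_zero u0 hc.ne_zero) (by
    linear_combination c * hv - c ^ 2 * k2)).symm

theorem tendsto_all {P C : ℤ → Prop} {e : Fin 4 → ℤ} (he : ∀ i, e i ≠ 0)
    (hC : ∀ ε : ℝ, 0 < ε → ∃ X0 : ℕ, ∀ X ≥ X0,
      (((Icc (-(X : ℤ)) X).filter fun d => Squarefree d ∧ ¬ C d).card : ℝ) ≤ ε * X)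
    (hP : ∀ d, d ≠ 0 → (∀ i, C (sqf (d * e i))) → P d) :
    Tendsto (fun X : ℕ => (Set.ncard {d : ℤ | |d| ≤ X ∧ Squarefree d ∧ P d} : ℝ) /
        (Set.ncard {d : ℤ | |d| ≤ X ∧ Squarefree d} : ℝ)) atTop (𝓝 1) := by
  rw [Metric.tendsto_nhds]
  intro ε hε
  let B : ℕ := ∑ i, (e i).natAbs
  have hB : ∀ i, (e i).natAbs ≤ B := fun i =>
    single_le_sum (f := fun i => (e i).natAbs) (fun _ _ => Nat.zero_le _) (mem_univ i)
  have B1 : 1 ≤ B := (Int.natAbs_pos.2 (he 0)).trans_le (hB 0)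
  have B0 : (0 : ℝ) < B := by exact_mod_cast B1
  obtain ⟨X0, h0⟩ := hC (ε / (100 * B)) (by positivity)
  filter_upwards [eventually_ge_atTop X0,
    (tendsto_natCast_atTop_atTop (R := ℝ)).eventually_ge_atTop 600] with X h1 h3
  have e1 : {d : ℤ | |d| ≤ X ∧ Squarefree d ∧ P d} = ↑((cF X).filter P) := by
    ext d
    simp [cF, abs_le, and_assoc]
  have e2 : {d : ℤ | |d| ≤ X ∧ Squarefree d} = ↑(cF X) := by
    ext d
    simp [cF, abs_le, and_assoc]
  rw [e1, e2, Set.ncard_coe_finset, Set.ncard_coe_finset, Real.dist_eq]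
  have b := h0 (B * X) (h1.trans (Nat.le_mul_of_pos_left X B1))
  have c : ((B2.gfS X).card : ℝ) ≤ (cF X).card := by
    refine Nat.cast_le.2 (card_le_card_of_injOn (fun N : ℕ => (N : ℤ)) (fun N hN => ?_)
      fun a _ b _ h => by simpa using h)
    simp only [B2.gfS, cF, coe_filter, mem_range, mem_Icc, Set.mem_ofPred_eq] at hN ⊢
    exact ⟨by omega, Int.squarefree_natCast.2 hN.2.1⟩
  have g := (B2.gf_big X).trans c
  have k : ∀ i, ((cF X).filter fun d => ¬ C (sqf (d * e i))).card ≤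
      ((Icc (-((B * X : ℕ) : ℤ)) (B * X : ℕ)).filter fun d => Squarefree d ∧ ¬ C d).card := by
    intro i
    refine card_le_card_of_injOn (fun d => sqf (d * e i)) (fun d hd => ?_) fun d hd d' hd' k => ?_
    · simp only [cF, coe_filter, mem_filter, mem_Icc, Set.mem_ofPred_eq, ← abs_le] at hd ⊢
      obtain ⟨k1, c, c0, k2⟩ := sqf_spec (mul_ne_zero hd.1.2.ne_zero (he i))
      refine ⟨?_, k1, hd.2⟩
      have k3 : |sqf (d * e i)| ≤ |d * e i| := by
        conv_rhs => rw [k2, abs_mul]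
        exact le_mul_of_one_le_left (abs_nonneg _) (Int.one_le_abs (pow_ne_zero 2 c0))
      refine k3.trans ?_
      rw [abs_mul, mul_comm, Nat.cast_mul]
      refine mul_le_mul ?_ hd.1.1 (abs_nonneg _) (by positivity)
      rw [Int.abs_eq_natAbs]
      exact_mod_cast hB i
    · simp only [cF, coe_filter, mem_filter, Set.mem_ofPred_eq] at hd hd' k
      obtain ⟨-, c, c0, k2⟩ := sqf_spec (mul_ne_zero hd.1.2.ne_zero (he i))
      obtain ⟨-, c', c0', k2'⟩ := sqf_spec (mul_ne_zero hd'.1.2.ne_zero (he i))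
      rw [k] at k2
      exact eq_of_sq hd.1.2 hd'.1.2 c0' (c' := c) (mul_right_cancel₀ (he i) (by
        linear_combination c' ^ 2 * k2 - c ^ 2 * k2'))
  have k1 : ((cF X).filter fun d => ¬ P d).card ≤
      ∑ i, ((cF X).filter fun d => ¬ C (sqf (d * e i))).card := by
    refine (card_le_card fun d hd => ?_).trans card_biUnion_le
    simp only [mem_biUnion, mem_univ, true_and, mem_filter] at hd ⊢
    by_contra! k
    exact hd.2 (hP d (mem_filter.1 hd.1).2.ne_zero fun i => k i hd.1)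
  have k2 := k1.trans (sum_le_card_nsmul _ _ _ fun i _ => k i)
  rw [card_univ, Fintype.card_fin, smul_eq_mul, ← Nat.cast_le (α := ℝ), Nat.cast_mul] at k2
  have k3 := card_filter_add_card_filter_not (s := cF X) P
  rw [← Nat.cast_inj (R := ℝ), Nat.cast_add] at k3
  have a0 : (0 : ℝ) < (cF X).card := by linarith
  rw [show ε / (100 * B) * (B * X : ℕ) = ε / 100 * X by push_cast; field_simp] at b
  have a1 : ε * X ≤ ε * (20 * (cF X).card) := mul_le_mul_of_nonneg_left (by linarith) hε.le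
  have a2 := mul_pos hε a0
  have a3 : (0 : ℝ) ≤ ((cF X).filter fun d => ¬ P d).card := Nat.cast_nonneg _
  rw [abs_lt, lt_sub_iff_add_lt, sub_lt_iff_lt_add, lt_div_iff₀ a0, div_lt_iff₀ a0]
  rw [Nat.cast_ofNat] at k2
  constructor <;> nlinarith

end Pool.Agent.Lib.MP_60ff09_nt.V4
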