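import Pool.Agent.Lib.MP_60ff09_nt.V6Main
import Pool.Agent.Lib.MP_60ff09_nt.V5All
import Pool.Agent.Lib.MP_696deb_nt.B7.EP

/-! The conjecture of Beilinson for a sum of arbitrary quadratic characters, and densities. -/

set_option autoImplicit false

open scoped Classical TensorProduct
open Finset Filter Topology NumberField NumberTheorySymbols
open Pool.Agent.Lib.MP_696deb_nt Pool.Agent.B6 Pool.Agent.B4

namespace Pool.Agent.Lib.MP_60ff09_nt.V6

open V4 hiding hom_dim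
open B3 (kro pchr_kro)

section

variable {M L : Type} [Field M] [NumberField M] [IsGalois ℚ M] [Field L] [Algebra L ℂ]
  {V : Rep L (M ≃ₐ[ℚ] M)} {d : Fin 4 → ℤ}

theorem eulN_kro (N : ℕ) (hV : Splits V d) (hd : ∀ i, Squarefree (d i)) {p : ℕ}
    (hp : p.Prime) {Q : Ideal (𝓞 M)} [Q.IsPrime] (hQ : (p : 𝓞 M) ∈ Q) {φ : M ≃ₐ[ℚ] M}
    (hφ : IsArithFrobAt ℤ φ Q) (a : ℕ → ℤ) (s : ℂ) :
    eulN N (onInv (bc ℂ V) (Q.inertia (M ≃ₐ[ℚ] M)) φ) (a p) p s =
      ∏ i, loc (fun n => (kro (d i) n : ℂ)) a (fun p => if p ∣ N then 0 else p) p s := by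
  obtain ⟨v, δ, h⟩ := hV
  let w : Module.Basis (Fin 4) ℂ (bc ℂ V) := v.baseChange ℂ
  have hw : ∀ i, w i = (1 : ℂ) ⊗ₜ[L] v i := fun i => v.baseChange_apply ℂ i
  have h1 : ∀ i σ, σ (δ i) = δ i → (bc ℂ V).ρ σ (w i) = w i := fun i σ e => by
    rw [hw, bc_tmul, ((h i).2 σ).1 e]
  have h2 : ∀ i σ, σ (δ i) = -δ i → (bc ℂ V).ρ σ (w i) = -w i := fun i σ e => by
    rw [hw, bc_tmul, ((h i).2 σ).2 e, TensorProduct.tmul_neg]
    rfl
  have key : ∀ i, onInv (bc ℂ V) (Q.inertia (M ≃ₐ[ℚ] M)) φ (w i) = (kro (d i) p : ℂ) • w i := by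
    intro i
    rcases frob_kro (h i).1 (hd i) hp hQ hφ with ⟨j, τ, hτ, e⟩ | ⟨k, l⟩
    · rw [onInv_zero _ _ _ hτ (h2 i τ e), j, Int.cast_zero, zero_smul]
    · rw [onInv_fix _ _ _ fun τ hτ => h1 i τ (k τ hτ)]
      rcases l with ⟨e, j⟩ | ⟨e, j⟩
      · rw [h1 i φ e, j, Int.cast_one, one_smul]
      · rw [h2 i φ e, j, Int.cast_neg, Int.cast_one, neg_one_smul]
  refine det_diag w _ _ fun i => ?_
  have hp0 : (p : ℂ) ≠ 0 := Nat.cast_ne_zero.2 hp.ne_zero
  have e : (p : ℂ) ^ (1 - 2 * s) = p * ((p : ℂ) ^ (-s)) ^ 2 := by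
    rw [sub_eq_add_neg, Complex.cpow_add _ _ hp0, Complex.cpow_one, sq, ← Complex.cpow_add _ _ hp0]
    congr 2
    ring
  simp only [LinearMap.add_apply, LinearMap.sub_apply, LinearMap.smul_apply, sq,
    Module.End.mul_apply, Module.End.one_apply, key, map_smul, smul_smul, loc, e, add_smul,
    sub_smul, one_smul]
  congr 2
  · congr 1
    ring
  · split_ifs <;> simp
    ring

end

/-- The form is new and its eigenvalues are the traces of the curve. -/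
structure Nt [Cs] (D : GE.MD Wu NN) : Prop where
  nw : G5.Nw D
  tr : ∀ (l : ℕ) [Fact l.Prime], ¬ l ∣ 2 * NN → D.c l = tr l cub

theorem nt_of [Cs] {D : GE.MD Wu NN} (n : G5.Nw D) (hE : ∀ l : ℕ, l.Prime → ¬ l ∣ NN →
    D.c l = l + 1 - Nat.card (WZ.map (Int.castRingHom (ZMod l))).toAffine.Point) : Nt D := by
  refine ⟨n, fun l hl e => ?_⟩
  rw [cub_fun]
  refine (hE l hl.out fun k => e (k.mul_left _)).trans ?_
  rw [card_mod (fun k => e (k ▸ dvd_mul_right _ _))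
    (fun k => e (((dvd_Δ hl.out).1 k).mul_left _)) rfl rfl rfl, sub_sub_cancel]

section

variable {M L : Type} [Field M] [NumberField M] [IsGalois ℚ M] [Field L] [Algebra L ℂ]
  {V : Rep L (M ≃ₐ[ℚ] M)} {d : Fin 4 → ℤ} [Cs] {D : GE.MD Wu NN}

theorem entire_kro7 (h : Nt D) {e : ℤ} (hs : Squarefree e) {r : ℕ} (k : Bsd e r) :
    ∃ G : ℂ → ℂ, Differentiable ℂ G ∧
      (∀ s : ℂ, (3 : ℝ) / 2 < s.re → G s = LSeries (fun n => (kro e n : ℂ) * D.c n) s) ∧
      analyticOrderAt G 1 = r := by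
  obtain ⟨τ, hτ, H⟩ := B7.md_LX D (pchr_kro hs)
  have dH := B7.LKr_diff (G5.md_ci D) D.N0 hs
  refine ⟨fun s => τ * B7.LKr D.par.F e s, dH.const_mul τ, H, ?_⟩
  rw [← anr_unique (r := analyticOrderAt (B7.LKr D.par.F e) 1)
    (B7.md_anrX D h.nw (pchr_kro hs) (sh_ne hs.ne_zero) (B7.trs_all h.tr hs)) k.1]
  have := analyticOrderAt_mul (analyticAt_const (v := τ)) (dH.analyticAt 1)
  rw [analyticAt_const.analyticOrderAt_eq_zero.2 hτ, zero_add] at this
  exact this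

theorem beil_kro (h : Nt D) (hV : Splits V d) (hd : ∀ i, Squarefree (d i)) {r : Fin 4 → ℕ}
    (k : ∀ i, Bsd (d i) (r i)) : BeilN Wu NN D.c V (∑ i, r i) := by
  have : CharZero L := (algebraMap L ℂ).charZero
  choose G h1 h2 h3 using fun i => entire_kro7 h (hd i) (k i)
  obtain ⟨k1, k2⟩ := hom_dim hV (fun i => (hd i).ne_zero) fun i => (k i).2.1
  have k3 : Module.finrank L (HomW Wu V) = ∑ i, r i :=
    k2.trans (Finset.sum_congr rfl fun i _ => (k i).2.2)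
  refine ⟨∏ i, G i, Differentiable.finsetProd fun i _ => h1 i, fun Q φ hQ s hs => ?_, k1, ?_, k3⟩
  · rw [Finset.prod_apply]
    convert hasProd_prod (s := Finset.univ) fun i _ => hasProd_loc (G5.md_hecke D h.nw)
      (ξ := fun n => (kro (d i) n : ℂ)) (by simp [(pchr_kro (hd i)).one])
      (fun m n => by simp [(pchr_kro (hd i)).mul]) (summable_twist (fun n => by
        rcases (pchr_kro (hd i)).cases n with h | h | h <;> simp [h]) (G5.md_summable D hs))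
      using 2 with p i
    · split_ifs with hp
      · obtain ⟨q1, q2, q3⟩ := hQ p hp
        rw [eulN_kro NN hV hd hp q2 q3, Finset.prod_inv_distrib]
      · simp
    · exact h2 i s hs
  · rw [k3, Fin.prod_univ_four, Fin.sum_univ_four]
    have a := fun i => (h1 i).analyticAt 1
    rw [analyticOrderAt_mul (((a 0).mul (a 1)).mul (a 2)) (a 3),
      analyticOrderAt_mul ((a 0).mul (a 1)) (a 2), analyticOrderAt_mul (a 0) (a 1), h3, h3, h3, h3]
    push_cast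
    rfl

end

theorem sqf_four {n : ℤ} (h4 : n % 4 = 1) : sqf n % 4 = 1 := by
  obtain ⟨-, c, -, e⟩ := sqf_spec (n := n) (by omega)
  generalize sqf n = a at e
  subst e
  obtain ⟨k, rfl | rfl⟩ := Int.even_or_odd' c
  · rw [show (2 * k) ^ 2 * a = 4 * (k ^ 2 * a) by ring] at h4
    omega
  · rw [show (2 * k + 1) ^ 2 * a = 4 * ((k ^ 2 + k) * a) + a by ring] at h4
    omega

theorem tendsto_fam {A P C : ℤ → Prop} {e : Fin 4 → ℤ} (he : ∀ i, e i ≠ 0)
    (hA : ∀ d, d % 4 = 1 → A d)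
    (hC : ∀ ε : ℝ, 0 < ε → ∃ X0 : ℕ, ∀ X ≥ X0,
      (((Icc (-(X : ℤ)) X).filter fun d => Squarefree d ∧ ¬ C d).card : ℝ) ≤ ε * X)
    (hP : ∀ d : ℤ, Squarefree d → A d → (∀ i, C (sqf (d * e i))) → P d) :
    Tendsto (fun X : ℕ => (Set.ncard {d : ℤ | |d| ≤ X ∧ Squarefree d ∧ A d ∧ P d} : ℝ) /
        (Set.ncard {d : ℤ | |d| ≤ X ∧ Squarefree d ∧ A d} : ℝ)) atTop (𝓝 1) := by
  rw [Metric.tendsto_nhds]
  intro ε hε
  let B : ℕ := ∑ i, (e i).natAbs
  have hB : ∀ i, (e i).natAbs ≤ B := fun i =>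
    single_le_sum (f := fun i => (e i).natAbs) (fun _ _ => Nat.zero_le _) (mem_univ i)
  have B1 : 1 ≤ B := (Int.natAbs_pos.2 (he 0)).trans_le (hB 0)
  have B0 : (0 : ℝ) < B := by exact_mod_cast B1
  obtain ⟨δ, hδ, e0⟩ : ∃ δ : ℝ, 0 < δ ∧ δ * 8 = ε / 5 := ⟨ε / 40, by positivity, by ring⟩
  obtain ⟨X0, h0⟩ := hC (δ / B) (by positivity)
  filter_upwards [eventually_ge_atTop X0,
    (tendsto_natCast_atTop_atTop (R := ℝ)).eventually_gt_atTop 0] with X h1 h3
  obtain ⟨S, hS⟩ : ∃ S : Finset ℤ, ∀ d, d ∈ S ↔ |d| ≤ X ∧ Squarefree d ∧ A d :=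
    ⟨(Icc (-(X : ℤ)) X).filter fun d => Squarefree d ∧ A d, fun d => by simp [abs_le]⟩
  have e1 : {d : ℤ | |d| ≤ X ∧ Squarefree d ∧ A d ∧ P d} = ↑(S.filter P) := by
    ext d
    simp [hS, and_assoc]
  have e2 : {d : ℤ | |d| ≤ X ∧ Squarefree d ∧ A d} = ↑S := by
    ext d
    simp [hS]
  rw [e1, e2, Set.ncard_coe_finset, Set.ncard_coe_finset, Real.dist_eq]
  have b := h0 (B * X) (h1.trans (Nat.le_mul_of_pos_left X B1))
  have c : ((B2.V.gfF 1 X).card : ℝ) = (B2.V.gfS 1 X).card := by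
    simpa using B2.V.gf_sum 1 X fun _ => 1
  have g := B2.V.gf_big 1 one_ne_zero X
  have g' : ((B2.V.gfF 1 X).card : ℝ) ≤ S.card := Nat.cast_le.2 (card_le_card fun d hd => by
    simp only [B2.V.gfF, mem_filter, mem_Icc, ← abs_le] at hd
    exact (hS d).2 ⟨hd.1, hd.2.1, hA d hd.2.2.1⟩)
  rw [← c, Nat.cast_one, mul_one] at g
  replace g : (X : ℝ) ≤ 8 * S.card := by linarith
  have k : ∀ i, (S.filter fun d => ¬ C (sqf (d * e i))).card ≤
      ((Icc (-((B * X : ℕ) : ℤ)) (B * X : ℕ)).filter fun d => Squarefree d ∧ ¬ C d).card := by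
    intro i
    refine card_le_card_of_injOn (fun d => sqf (d * e i)) (fun d hd => ?_) fun d hd d' hd' k => ?_
    · simp only [coe_filter, mem_Icc, Set.mem_ofPred_eq, ← abs_le, hS] at hd ⊢
      obtain ⟨k1, c, c0, k2⟩ := sqf_spec (mul_ne_zero hd.1.2.1.ne_zero (he i))
      refine ⟨?_, k1, hd.2⟩
      have k3 : |sqf (d * e i)| ≤ |d * e i| := by
        conv_rhs => rw [k2, abs_mul]
        exact le_mul_of_one_le_left (abs_nonneg _) (Int.one_le_abs (pow_ne_zero 2 c0))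
      refine k3.trans ?_
      rw [abs_mul, mul_comm, Nat.cast_mul]
      refine mul_le_mul ?_ hd.1.1 (abs_nonneg _) (by positivity)
      rw [Int.abs_eq_natAbs]
      exact_mod_cast hB i
    · simp only [coe_filter, Set.mem_ofPred_eq, hS] at hd hd' k
      obtain ⟨-, c, c0, k2⟩ := sqf_spec (mul_ne_zero hd.1.2.1.ne_zero (he i))
      obtain ⟨-, c', c0', k2'⟩ := sqf_spec (mul_ne_zero hd'.1.2.1.ne_zero (he i))
      rw [k] at k2
      exact eq_of_sq hd.1.2.1 hd'.1.2.1 c0' (c' := c) (mul_right_cancel₀ (he i) (by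
        linear_combination c' ^ 2 * k2 - c ^ 2 * k2'))
  have k1 : (S.filter fun d => ¬ P d).card ≤
      ∑ i, (S.filter fun d => ¬ C (sqf (d * e i))).card := by
    refine (card_le_card fun d hd => ?_).trans card_biUnion_le
    simp only [mem_biUnion, mem_univ, true_and, mem_filter] at hd ⊢
    by_contra! k
    have := (hS d).1 hd.1
    exact hd.2 (hP d this.2.1 this.2.2 fun i => k i hd.1)
  have k2 := k1.trans (sum_le_card_nsmul _ _ _ fun i _ => k i)
  rw [card_univ, Fintype.card_fin, smul_eq_mul, ← Nat.cast_le (α := ℝ), Nat.cast_mul] at k2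
  have k3 := card_filter_add_card_filter_not (s := S) P
  rw [← Nat.cast_inj (R := ℝ), Nat.cast_add] at k3
  have a0 : (0 : ℝ) < S.card := by linarith
  rw [show δ / B * (B * X : ℕ) = δ * X by push_cast; field_simp] at b
  have a1 : δ * X ≤ ε / 5 * S.card := by
    rw [← e0, mul_assoc]
    exact mul_le_mul_of_nonneg_left g hδ.le
  have a2 := mul_pos hε a0
  have a3 : (0 : ℝ) ≤ (S.filter fun d => ¬ P d).card := Nat.cast_nonneg _
  rw [abs_lt, lt_sub_iff_add_lt, sub_lt_iff_lt_add, lt_div_iff₀ a0, div_lt_iff₀ a0]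
  rw [Nat.cast_ofNat] at k2
  constructor <;> nlinarith

theorem smith_ne [Cs] (hs : Smith) (ε : ℝ) (hε : 0 < ε) : ∃ X0 : ℕ, ∀ X ≥ X0,
    (((Icc (-(X : ℤ)) X).filter fun d => Squarefree d ∧ ¬ (Cork d ∧ d ≠ 1)).card : ℝ) ≤ ε * X := by
  obtain ⟨X0, h⟩ := hs (ε / 2) (half_pos hε)
  obtain ⟨n, hn⟩ := exists_nat_ge (2 / ε)
  refine ⟨max X0 n, fun X hX => ?_⟩
  have a := h X (le_of_max_le_left hX)
  have b := (div_le_iff₀ hε).1 (hn.trans (Nat.cast_le.2 (le_of_max_le_right hX)))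
  have c := (card_le_card (s := (Icc (-(X : ℤ)) X).filter fun d => Squarefree d ∧
    ¬ (Cork d ∧ d ≠ 1)) (t := insert 1 ((Icc (-(X : ℤ)) X).filter fun d => Squarefree d ∧ ¬ Cork d))
    fun d hd => by
      simp only [mem_insert, mem_filter] at hd ⊢
      tauto).trans (card_insert_le _ _)
  rw [← Nat.cast_le (α := ℝ), Nat.cast_add, Nat.cast_one] at c
  linarith

/-- The conjecture holds for almost all twists in a family. -/
theorem density7 [Cs] {D : GE.MD Wu NN} (h : Nt D) (hs : Smith) {A : ℤ → Prop}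
    (hA : ∀ d, d % 4 = 1 → A d) {e : Fin 4 → ℤ} (he : ∀ i, e i ≠ 0)
    (hc : ∀ d, Squarefree d → A d → ∀ i, sqf (d * e i) ≠ 1 → B7.Cnv D.c (sqf (d * e i))) :
    Tendsto (fun X : ℕ =>
      (Set.ncard {d : ℤ | |d| ≤ X ∧ Squarefree d ∧ A d ∧ ∀ a : Fin 4 → ℤ,
        (∀ i, Squarefree (a i) ∧ IsSquare (d * e i * a i)) →
        HoldsN Wu NN D.c (fun i => d * e i) (univ.filter fun i => (a i).sign *
          ∏ p ∈ NN.primeFactors.filter (fun p : ℕ => ¬ (p : ℤ) ∣ a i),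
            -D.c p * J(a i | p) = 1).card} : ℝ) /
        (Set.ncard {d : ℤ | |d| ≤ X ∧ Squarefree d ∧ A d} : ℝ)) atTop (𝓝 1) := by
  refine tendsto_fam (C := fun d => Cork d ∧ d ≠ 1) he hA
    (fun ε hε => by simpa only [not_and_or] using smith_ne hs ε hε)
    fun d hd hA hC a ha M L _ _ _ _ _ Vg Vh _ _ hV => ?_
  have k0 : ∀ i, d * e i ≠ 0 := fun i => mul_ne_zero hd.ne_zero (he i)
  obtain rfl : a = fun i => sqf (d * e i) := funext fun i => eq_sqf (k0 i) (ha i).1 (ha i).2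
  rw [card_filter]
  refine beil_kro h (hV.sqf k0) (fun i => (ha i).1) fun i => ?_
  have k := hc d hd hA i (hC i).2 (hC i).1
  have j := B7.nw_cases h.nw (ha i).1.ne_zero
  simp only [B7.rootNo, B7.rt0, B7.lvS, mul_neg, neg_eq_iff_eq_neg, neg_neg] at k j
  rcases j with j | j
  · rw [if_pos j] at k
    rwa [if_neg (by simp only [neg_mul] at j ⊢; omega)]
  · rw [if_neg (by omega)] at k
    rwa [if_pos j]

end Pool.Agent.Lib.MP_60ff09_nt.V6
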