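import Pool.Agent.Lib.MP_696deb_nt.ClassFour

set_option autoImplicit false

open WeierstrassCurve WeierstrassCurve.Affine Polynomial
open Pool.Agent.Lib.MP_696deb_nt

namespace Pool.Agent.Lib.MP_60ff09_nt

section FinX

variable {K : Type*} [Field K]

/-- Finitely many abscissae on the curve `y^2 = g x`. -/
def FinX (g : K → K) : Prop := {x : K | ∃ y : K, y ^ 2 = g x}.Finite

theorem finite_quad (a b : K) : {x : K | x ^ 2 + a * x + b = 0}.Finite := by
  classical
  have hp : (X ^ 2 + C a * X + C b : K[X]) ≠ 0 := by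
    have : (X ^ 2 + C a * X + C b : K[X]).Monic := by monicity!
    exact this.ne_zero
  refine (Finset.finite_toSet (X ^ 2 + C a * X + C b : K[X]).roots.toFinset).subset ?_
  intro x hx
  simp only [Finset.mem_coe, Multiset.mem_toFinset, mem_roots hp, IsRoot.def]
  simpa using hx

theorem FinX.affine {g g' : K → K} (h : FinX g') {u v c : K} (hu : u ≠ 0)
    (e : ∀ x, g' (u * x + v) = c ^ 2 * g x) : FinX g := by
  have hinj : Function.Injective fun x : K => u * x + v := fun x y hxy => by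
    apply mul_left_cancel₀ hu
    simpa using hxy
  refine (h.preimage hinj.injOn).subset ?_
  rintro x ⟨y, hy⟩
  exact ⟨c * y, by rw [e, ← hy]; ring⟩

theorem FinX.isog {a b : K} (h : FinX fun x : K => x * (x ^ 2 - 2 * a * x + (a ^ 2 - 4 * b))) :
    FinX fun x : K => x * (x ^ 2 + a * x + b) := by
  refine ((h.biUnion fun Z _ => finite_quad (a - Z) b).insert 0).subset ?_
  rintro x ⟨y, hy⟩
  by_cases hx : x = 0
  · exact Or.inl hx
  right
  simp only [Set.mem_iUnion]
  refine ⟨x + a + b / x, ⟨y / x * (x - b / x), ?_⟩, ?_⟩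
  · have : (y / x * (x - b / x)) ^ 2 = y ^ 2 * ((x - b / x) / x) ^ 2 := by ring
    rw [this, hy]
    field_simp
    ring
  · simp only [Set.mem_ofPred_eq]
    field_simp
    ring

theorem finite_point_of_finX {W : WeierstrassCurve K}
    (h : FinX fun x : K => 4 * x ^ 3 + W.b₂ * x ^ 2 + 2 * W.b₄ * x + W.b₆) :
    Finite W.toAffine.Point := by
  have hS : {p : K × K | W.toAffine.Nonsingular p.1 p.2}.Finite := by
    refine (h.biUnion fun x _ => (finite_quad (W.a₁ * x + W.a₃)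
      (-(x ^ 3 + W.a₂ * x ^ 2 + W.a₄ * x + W.a₆))).image (fun y => (x, y))).subset ?_
    rintro ⟨x, y⟩ hp
    have he := (Affine.equation_iff _ _).mp hp.1
    simp only [toAffine] at he
    simp only [Set.mem_iUnion]
    refine ⟨x, ⟨2 * y + W.a₁ * x + W.a₃, ?_⟩, y, ?_, rfl⟩
    · simp only [b₂, b₄, b₆]
      linear_combination 4 * he
    · simp only [Set.mem_ofPred_eq]
      linear_combination he
  have := hS.to_subtype
  refine Finite.of_surjective
    (fun o : Option {p : K × K | W.toAffine.Nonsingular p.1 p.2} =>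
      match o with
      | none => (0 : W.toAffine.Point)
      | some p => Point.some p.1.1 p.1.2 p.2) ?_
  rintro (_ | ⟨x, y, hp⟩)
  · exact ⟨none, rfl⟩
  · exact ⟨some ⟨(x, y), hp⟩, rfl⟩

theorem finX_of_split {W : WeierstrassCurve K} {e1 e2 e3 : K} (h : Split W e1 e2 e3)
    (hf : Finite W.toAffine.Point) : FinX fun x : K => (x - e1) * (x - e2) * (x - e3) := by
  refine (Set.finite_range (fun P : W.toAffine.Point =>
    match P with
    | .zero => (0 : K)
    | .some x _ _ => x)).subset ?_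
  rintro x ⟨y, hy⟩
  exact ⟨.some x y ((h.nonsingular_iff x y).mpr hy), rfl⟩

end FinX

/-- The curve `y^2 = x (x - 1) (x - 81)`. -/
def curveA2 : WeierstrassCurve ℚ := ⟨0, -82, 0, 81, 0⟩

theorem split_A2 : Split curveA2 0 1 81 := by
  refine ⟨rfl, rfl, ?_, ?_, ?_, ?_, ?_, ?_, two_ne_zero⟩ <;> norm_num [curveA2]

theorem sqfree_dvd {d : ℤ} (hd : Squarefree d) {n : ℤ} (hn : n ≠ 0)
    (h : ∀ p : ℕ, p.Prime → (p : ℤ) ∣ d → (p : ℤ) ∣ n) : d ∣ n :=
  dvd_of_squarefree_of_primes hd hn h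

theorem no_three {s w t : ℤ} (hc : IsCoprime (3 * s) w)
    (h : 3 * t ^ 2 = (3 * s ^ 2 - 1 * w ^ 2) * (3 * s ^ 2 - 81 * w ^ 2)) : False := by
  have hw : ¬ (3 : ℤ) ∣ w := fun h3 =>
    Int.prime_three.not_isUnit (hc.isUnit_of_dvd' (Dvd.intro _ rfl) h3)
  have mod3 : ∀ a b c k : ℤ, ¬ (3 : ℤ) ∣ a → ¬ (3 : ℤ) ∣ b → c ^ 2 + a ^ 2 * b ^ 2 = 3 * k → False := by
    intro a b c k ha hb e
    have e' := congrArg (Int.cast : ℤ → ZMod 3) e
    rw [← Int.cast_ofNat (R := ℤ) 3] at ha hb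
    have ha' : (a : ZMod 3) ≠ 0 := fun h0 => ha ((ZMod.intCast_zmod_eq_zero_iff_dvd a 3).mp h0)
    have hb' : (b : ZMod 3) ≠ 0 := fun h0 => hb ((ZMod.intCast_zmod_eq_zero_iff_dvd b 3).mp h0)
    push_cast at e'
    have h3 : (3 : ZMod 3) = 0 := rfl
    rw [h3, zero_mul] at e'
    revert ha' hb' e'
    generalize (a : ZMod 3) = a
    generalize (b : ZMod 3) = b
    generalize (c : ZMod 3) = c
    revert a b c; decide
  have h1 : t ^ 2 = (3 * s ^ 2 - w ^ 2) * (s ^ 2 - 27 * w ^ 2) := by linarith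
  by_cases hs : (3 : ℤ) ∣ s
  swap
  · exact mod3 s w t (s ^ 4 - 27 * s ^ 2 * w ^ 2 + 9 * w ^ 4) hs hw (by rw [h1]; ring)
  obtain ⟨s1, rfl⟩ := hs
  have ht : (3 : ℤ) ∣ t := Int.prime_three.dvd_of_dvd_pow (n := 2)
    ⟨(27 * s1 ^ 2 - w ^ 2) * 3 * (s1 ^ 2 - 3 * w ^ 2), by rw [h1]; ring⟩
  obtain ⟨t1, rfl⟩ := ht
  have h2 : t1 ^ 2 = (27 * s1 ^ 2 - w ^ 2) * (s1 ^ 2 - 3 * w ^ 2) := by linarith
  by_cases hs : (3 : ℤ) ∣ s1
  swap
  · exact mod3 s1 w t1 (9 * s1 ^ 4 - 27 * s1 ^ 2 * w ^ 2 + w ^ 4) hs hw (by rw [h2]; ring)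
  obtain ⟨s2, rfl⟩ := hs
  have ht : (3 : ℤ) ∣ t1 := Int.prime_three.dvd_of_dvd_pow (n := 2)
    ⟨(243 * s2 ^ 2 - w ^ 2) * (3 * s2 ^ 2 - w ^ 2), by rw [h2]; ring⟩
  obtain ⟨t2, rfl⟩ := ht
  apply hw
  apply Int.prime_three.dvd_of_dvd_pow (n := 4)
  exact ⟨t2 ^ 2 - 243 * s2 ^ 4 + 82 * s2 ^ 2 * w ^ 2, by linarith⟩

theorem no_two {d s w t : ℤ} (hd : d % 2 = 1) (hc : IsCoprime (2 * d * s) w)
    (h : 2 * d * t ^ 2 = (2 * d * s ^ 2 - (-1) * w ^ 2) * (2 * d * s ^ 2 - 80 * w ^ 2)) : False := by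
  have hw : ¬ (2 : ℤ) ∣ w := fun h3 =>
    Int.prime_two.not_isUnit (hc.isUnit_of_dvd' ⟨d * s, by ring⟩ h3)
  have h1 : d * t ^ 2 = (2 * d * s ^ 2 + w ^ 2) * (d * s ^ 2 - 40 * w ^ 2) := by linarith
  obtain ⟨d0, rfl⟩ : ∃ d0, d = 2 * d0 + 1 := ⟨d / 2, by omega⟩
  obtain ⟨w0, rfl⟩ : ∃ w0, w = 2 * w0 + 1 := ⟨w / 2, by omega⟩
  rcases Int.even_or_odd' s with ⟨s1, rfl | rfl⟩
  swap
  · have e' := congrArg (Int.cast : ℤ → ZMod 4) h1
    push_cast at e'
    revert e'
    generalize (d0 : ZMod 4) = a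
    generalize (w0 : ZMod 4) = b
    generalize (s1 : ZMod 4) = c
    generalize (t : ZMod 4) = e
    revert a b c e; decide +kernel
  have ht : (2 : ℤ) ∣ t := by
    rcases Int.even_or_odd' t with ⟨t1, rfl | rfl⟩
    · exact ⟨t1, rfl⟩
    · exfalso
      have e' := congrArg (Int.cast : ℤ → ZMod 2) h1
      push_cast at e'
      revert e'
      generalize (d0 : ZMod 2) = a
      generalize (w0 : ZMod 2) = b
      generalize (s1 : ZMod 2) = c
      generalize (t1 : ZMod 2) = e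
      revert a b c e; decide +kernel
  obtain ⟨t1, rfl⟩ := ht
  have h2 : (2 * d0 + 1) * t1 ^ 2 = (8 * (2 * d0 + 1) * s1 ^ 2 + (2 * w0 + 1) ^ 2) *
      ((2 * d0 + 1) * s1 ^ 2 - 10 * (2 * w0 + 1) ^ 2) := by linarith
  have e' := congrArg (Int.cast : ℤ → ZMod 8) h2
  push_cast at e'
  revert e'
  generalize (d0 : ZMod 8) = a
  generalize (w0 : ZMod 8) = b
  generalize (s1 : ZMod 8) = c
  generalize (t1 : ZMod 8) = e
  revert a b c e; decide +kernel

theorem first_A2 {x y : ℚ} (hy : y ≠ 0) (h : y ^ 2 = (x - 0) * (x - 1) * (x - 81)) :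
    IsSquare x := by
  obtain ⟨d, s, w, t, hd, hs, hw, hc, hx, he⟩ :=
    exists_torsor (A := 1) (B := 81) (x := x) hy (by rw [h]; push_cast; ring)
  have hd3 : d ∣ 3 := by
    refine dvd_of_squarefree_of_primes hd (by norm_num) fun p hp hpd => ?_
    have := Fact.mk hp
    rcases local_support (n := 1) (a := 1) (b := 81) (t := t) hpd hc (by rw [he]; ring) with h' | h' | h'
    · exact h'.trans (by norm_num)
    · exact h'.trans (by norm_num)
    · obtain rfl : p = 3 := prime_dvd_small hp (k := 4) Nat.prime_three (by simpa using h')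
      rfl
  have hpos : 0 < d := by
    by_contra h0
    have h0 : d ≤ 0 := by omega
    have a1 : 0 < w ^ 2 := by positivity
    have a2 : d * s ^ 2 ≤ 0 := mul_nonpos_of_nonpos_of_nonneg h0 (sq_nonneg s)
    have a3 : d * t ^ 2 ≤ 0 := mul_nonpos_of_nonpos_of_nonneg h0 (sq_nonneg t)
    have : 0 < (d * s ^ 2 - 1 * w ^ 2) * (d * s ^ 2 - 81 * w ^ 2) :=
      mul_pos_of_neg_of_neg (by linarith) (by linarith)
    linarith
  have hle : d ≤ 3 := Int.le_of_dvd (by norm_num) hd3
  have hw' : (w : ℚ) ≠ 0 := by exact_mod_cast hw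
  interval_cases d
  · refine ⟨s / w, ?_⟩
    field_simp
    push_cast at hx
    linear_combination hx
  · omega
  · exact (no_three hc he).elim

theorem second_A2 {x y : ℚ} (hy : y ≠ 0) (h : y ^ 2 = (x - 0) * (x - 1) * (x - 81)) :
    IsSquare (x - 1) ∨ IsSquare ((x - 1) * (-1)) ∨ IsSquare ((x - 1) * (-5)) ∨
      IsSquare ((x - 1) * 5) := by
  obtain ⟨d, s, w, t, hd, hs, hw, hc, hx, he⟩ :=
    exists_torsor (A := -1) (B := 80) (x := x - 1) hy (by rw [h]; push_cast; ring)
  have hodd : ¬ (2 : ℤ) ∣ d := by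
    rintro ⟨d0, rfl⟩
    refine no_two (d := d0) ?_ hc he
    by_contra h0
    obtain ⟨d1, rfl⟩ : (2 : ℤ) ∣ d0 := by omega
    exact Int.prime_two.not_isUnit (hd 2 ⟨d1, by ring⟩)
  have hd5 : d ∣ 5 := by
    refine dvd_of_squarefree_of_primes hd (by norm_num) fun p hp hpd => ?_
    have := Fact.mk hp
    rcases local_support (n := 1) (a := -1) (b := 80) (t := t) hpd hc (by rw [he]; ring) with h' | h' | h'
    · exact h'.trans (by norm_num)
    · exact h'.trans (by norm_num)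
    · have : (p : ℤ) ∣ 2 ^ 4 * 5 := by simpa using h'
      rcases (Nat.prime_iff_prime_int.mp hp).dvd_or_dvd this with h'' | h''
      · obtain rfl : p = 2 := prime_dvd_small hp (k := 4) Nat.prime_two (by simpa using h'')
        exact absurd hpd hodd
      · exact h''
  have hw' : (w : ℚ) ≠ 0 := by exact_mod_cast hw
  have hle : d ≤ 5 := Int.le_of_dvd (by norm_num) hd5
  have hge : -d ≤ 5 := Int.le_of_dvd (by norm_num) (Int.neg_dvd.mpr hd5)
  have : d = 1 ∨ d = -1 ∨ d = -5 ∨ d = 5 := by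
    have hge' : -5 ≤ d := by omega
    have hd0 := hd.ne_zero
    clear hc he hx hd
    interval_cases d <;> first | omega | (exfalso; revert hd5; decide)
  rcases this with rfl | rfl | rfl | rfl <;> push_cast at hx
  · exact Or.inl ⟨s / w, by field_simp; linear_combination hx⟩
  · exact Or.inr (Or.inl ⟨s / w, by field_simp; linear_combination -hx⟩)
  · exact Or.inr (Or.inr (Or.inl ⟨5 * s / w, by field_simp; linear_combination -hx⟩))
  · exact Or.inr (Or.inr (Or.inr ⟨5 * s / w, by field_simp; linear_combination hx⟩))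

theorem finite_A2 : Finite curveA2.toAffine.Point := by
  refine split_A2.finite_point fun x y hy h => ?_
  have s1 := first_A2 hy h
  have hx0 : x ≠ 0 := by
    intro h0; apply pow_ne_zero 2 hy; rw [h, h0]; ring
  have hx1 : x - 1 ≠ 0 := by
    intro h0; apply pow_ne_zero 2 hy; rw [h, h0]; ring
  have third : ∀ b : ℚ, IsSquare ((x - 1) * b) → IsSquare ((x - 81) * b) := by
    rintro b ⟨s, hs⟩
    obtain ⟨r, hr⟩ := s1
    refine Split.isSquare_of_mul (mul_ne_zero hx0 hx1) rfl ⟨y * r * s, ?_⟩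
    have : y * r * s * (y * r * s) = y ^ 2 * (r * r) * (s * s) := by ring
    rw [this, h, ← hr, ← hs]; ring
  rcases second_A2 hy h with s2 | s2 | s2 | s2
  · exact Or.inl ⟨s2, by simpa using third 1 (by simpa using s2)⟩
  · exact Or.inr (Or.inl ⟨isSquare_scale (c := 1) s2 (by ring),
      isSquare_scale (c := 9) (third _ s2) (by ring)⟩)
  · exact Or.inr (Or.inr (Or.inl ⟨isSquare_scale (c := 1) s1 (by ring),
      isSquare_scale (c := 4) (third _ s2) (by ring)⟩))
  · exact Or.inr (Or.inr (Or.inr ⟨isSquare_scale (c := 4) s2 (by ring),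
      isSquare_scale (c := 9) s1 (by ring)⟩))

/-- Finitely many rational abscissae on `X_0(15)`. -/
theorem finX_A1 : FinX fun x : ℚ => x * (x - 9) * (x - 25) := by
  have h2 := finX_of_split split_A2 finite_A2
  have h3 : FinX fun x : ℚ => x * (x ^ 2 + 41 * x + 400) :=
    FinX.isog (h2.affine (u := 1) (v := 0) (c := 1) one_ne_zero fun x => by ring)
  exact h3.affine (u := 1) (v := -25) (c := 1) one_ne_zero fun x => by ring

theorem finX_twist {N : ℤ} (hN : N ≠ 0) (h : Finite (twist15 (-N)).toAffine.Point) :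
    FinX fun x : ℚ => -N * (x * (x - 9) * (x - 25)) := by
  have h1 := finX_of_split (split_twist15 (D := -N) (by omega)) h
  have hN' : (N : ℚ) ≠ 0 := by exact_mod_cast hN
  exact h1.affine (u := -9 * N) (v := 102 * N) (c := 27 * N) (by simpa using hN')
    fun x => by push_cast; ring

/-- The curve `y^2 = x (x - 9) (x - 25)`. -/
def curveA1 : WeierstrassCurve ℚ := ⟨0, -34, 0, 225, 0⟩

variable {K : Type*} [Field K] [NumberField K]

theorem split_A1 : Split (curveA1.baseChange K) 0 9 25 := by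
  refine ⟨?_, ?_, ?_, ?_, ?_, ?_, ?_, ?_, two_ne_zero⟩ <;> norm_num [curveA1, WeierstrassCurve.baseChange]

theorem finite_A1_quadratic {N : ℤ} (hN : 0 < N) (hK : Module.finrank ℚ K = 2) {δ : K}
    (hδ : δ ^ 2 = -N) (h : Finite (twist15 (-N)).toAffine.Point) :
    Finite (curveA1.baseChange K).toAffine.Point := by
  classical
  have hS := split_A1 (K := K)
  have := hS.isElliptic
  obtain ⟨σ, hσ⟩ := exists_conj hK hN hδ
  have hσq : ∀ r s : ℚ, σ (r + s * δ) = r - s * δ := fun r s => by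
    simp [hσ, sub_eq_add_neg]
  have hδ0 : δ ≠ 0 := by
    rintro rfl
    have : ((N : ℤ) : K) = 0 := by simpa using hδ
    exact hN.ne' (by exact_mod_cast this)
  have hfix : ∀ z : K, σ z = z → ∃ r : ℚ, z = r := fun z hz => by
    obtain ⟨r, s, rfl⟩ := exists_coords hK hN hδ z
    rw [hσq] at hz
    have : (s : K) * δ = 0 := by linear_combination (-1 / 2 : K) * hz
    exact ⟨r, by rw [this, add_zero]⟩
  have hanti : ∀ z : K, σ z = -z → ∃ s : ℚ, z = s * δ := fun z hz => by
    obtain ⟨r, s, rfl⟩ := exists_coords hK hN hδ z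
    rw [hσq] at hz
    have : (r : K) = 0 := by linear_combination (1 / 2 : K) * hz
    exact ⟨s, by rw [this, zero_add]⟩
  have hσσ : ∀ z : K, σ (σ z) = z := fun z => by
    obtain ⟨r, s, rfl⟩ := exists_coords hK hN hδ z
    rw [hσq]
    have := hσq r (-s)
    push_cast at this
    rw [sub_eq_add_neg, ← neg_mul, this]; ring
  let τ : (curveA1.baseChange K).toAffine.Point →+ (curveA1.baseChange K).toAffine.Point :=
    Point.map (W' := curveA1.toAffine) (S := ℚ) σ.toRatAlgHom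
  have hττ : ∀ P, τ (τ P) = P := by
    rintro (_ | ⟨x, y, hP⟩)
    · rfl
    · change Point.some _ _ _ = Point.some _ _ _
      congr 1
      · exact hσσ x
      · exact hσσ y
  have key : ∀ (A : AddSubgroup (curveA1.baseChange K).toAffine.Point) (T : Set ℚ), T.Finite →
      (∀ x y hP, Point.some x y hP ∈ A → ∃ r ∈ T, x = (r : K)) → ∀ P ∈ A, IsOfFinAddOrder P := by
    intro A T hT hA P hP
    have hfin : (A : Set (curveA1.baseChange K).toAffine.Point).Finite := by
      have hx : {p : K × K | ∃ r ∈ T, p.1 = (r : K) ∧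
          p.2 ^ 2 = (p.1 - 0) * (p.1 - 9) * (p.1 - 25)}.Finite := by
        refine (hT.biUnion fun r _ => (finite_quad (0 : K)
          (-(((r : K) - 0) * (r - 9) * (r - 25)))).image (fun y => ((r : K), y))).subset ?_
        rintro ⟨x, y⟩ ⟨r, hr, rfl, hy⟩
        simp only [Set.mem_iUnion]
        exact ⟨r, hr, y, by simp only [Set.mem_ofPred_eq]; linear_combination hy, rfl⟩
      refine ((hx.image fun p => if hp : (curveA1.baseChange K).toAffine.Nonsingular p.1 p.2 then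
        Point.some p.1 p.2 hp else 0).insert 0).subset ?_
      rintro (_ | ⟨x, y, hQ⟩) hQA
      · exact Or.inl rfl
      · obtain ⟨r, hr, hxr⟩ := hA x y hQ hQA
        exact Or.inr ⟨(x, y), ⟨r, hr, hxr, (hS.nonsingular_iff x y).mp hQ⟩, by simp [hQ]⟩
    have : Finite A := hfin.to_subtype
    exact A.subtype.isOfFinAddOrder (isOfFinAddOrder_of_finite (⟨P, hP⟩ : A))
  refine finite_point_of_two_divisible_mod_torsion _ fun P => ⟨P, 0, ?_, by simp⟩
  have h1 : IsOfFinAddOrder (P + τ P) := by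
    refine key (τ - AddMonoidHom.id _).ker _ finX_A1 (fun x y hQ hA => ?_) _ (by
      simp [AddMonoidHom.mem_ker, hττ, add_comm])
    have hA' : τ (Point.some x y hQ) = Point.some x y hQ := by
      simpa [AddMonoidHom.mem_ker, sub_eq_zero] using hA
    obtain ⟨hx, hy⟩ := Point.some.inj hA'
    obtain ⟨r, rfl⟩ := hfix x hx
    obtain ⟨s, rfl⟩ := hfix y hy
    refine ⟨r, ⟨s, ?_⟩, rfl⟩
    have := (hS.nonsingular_iff _ _).mp hQ
    rw [sub_zero] at this
    exact_mod_cast this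
  have h2 : IsOfFinAddOrder (P - τ P) := by
    refine key (τ + AddMonoidHom.id _).ker _ (finX_twist hN.ne' h) (fun x y hQ hA => ?_) _ (by
      simp [AddMonoidHom.mem_ker, hττ])
    have hA' : τ (Point.some x y hQ) = -Point.some x y hQ := by
      simpa [AddMonoidHom.mem_ker, add_eq_zero_iff_eq_neg] using hA
    obtain ⟨hx, hy⟩ := Point.some.inj hA'
    rw [hS.negY_eq] at hy
    obtain ⟨r, rfl⟩ := hfix x hx
    obtain ⟨s, rfl⟩ := hanti y hy
    refine ⟨r, ⟨N * s, ?_⟩, rfl⟩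
    have := (hS.nonsingular_iff _ _).mp hQ
    rw [sub_zero, mul_pow, hδ] at this
    have h' : (s : ℚ) ^ 2 * -N = r * (r - 9) * (r - 25) := by exact_mod_cast this
    beta_reduce
    rw [← h']; ring
  have h3 : IsOfFinAddOrder (2 • P) := by
    have : 2 • P = (P + τ P) + (P - τ P) := by rw [two_nsmul]; abel
    rw [this]; exact h1.add h2
  exact h3.of_nsmul two_ne_zero

/-- The curve `y^2 + x y + y = x^3 + x^2` has finitely many points over `K`. -/
theorem finite_X115 {N : ℤ} (hN : 0 < N) (hK : Module.finrank ℚ K = 2) {δ : K}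
    (hδ : δ ^ 2 = -N) (h : Finite (twist15 (-N)).toAffine.Point) :
    Finite ((⟨1, 1, 1, 0, 0⟩ : WeierstrassCurve ℚ).baseChange K).toAffine.Point := by
  have h1 := finX_of_split split_A1 (finite_A1_quadratic hN hK hδ h)
  have h2 : FinX fun x : K => x * (x ^ 2 + 17 * x + 16) :=
    FinX.isog (h1.affine (u := 1) (v := 0) (c := 1) one_ne_zero fun x => by ring)
  have h3 : FinX fun x : K => x * (x ^ 2 + (-7) * x + 16) :=
    FinX.isog (h2.affine (u := 1) (v := -1) (c := 1) one_ne_zero fun x => by ring)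
  refine finite_point_of_finX
    (h3.affine (u := 4) (v := 4) (c := 4) (by norm_num) fun x => ?_)
  simp [WeierstrassCurve.baseChange, b₂, b₄, b₆]
  ring

end Pool.Agent.Lib.MP_60ff09_nt
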