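import Pool.Agent.Lib.MP_60ff09_nt.Isog
import Pool.Agent.Lib.MP_696deb_nt.Final

/-! The order of vanishing of the triple product and the space of equivariant maps. -/

set_option autoImplicit false

open Finset NumberTheorySymbols TensorProduct
open Pool.Agent.Lib.MP_696deb_nt

namespace Pool.Agent.Lib.MP_60ff09_nt

theorem exists_twist {N : ℕ} (hN : Squarefree N) (h12 : N % 12 = 11) (h5 : ¬ 5 ∣ N)
    (hB : CondB N) : ∃ G : ℂ → ℂ, Differentiable ℂ G ∧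
      (∀ s : ℂ, (3 : ℝ) / 2 < s.re → G s = LSeries (fun n => xi N n * a15 n) s) ∧
      analyticOrderAt G 1 = ((if N % 5 = 1 ∨ N % 5 = 4 then 1 else 0 : ℕ) : ℕ∞) ∧
      Module.finrank ℤ (twist15 (-(N : ℤ))).toAffine.Point =
        if N % 5 = 1 ∨ N % 5 = 4 then 1 else 0 := by
  have h4 : N % 4 = 3 := by omega
  have h3 : N % 3 = 2 := by omega
  split_ifs with h
  · have hn : Good N := ⟨hN, h4, Nat.Coprime.mul_right (m := 3) (n := 5)
      ((Nat.Prime.coprime_iff_not_dvd Nat.prime_three).mpr (by omega)).symm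
      ((Nat.Prime.coprime_iff_not_dvd Nat.prime_five).mpr h5).symm⟩
    obtain ⟨r, hr⟩ := exists_root h4 h3 h
    obtain ⟨R, hR⟩ := Gal.exists_hreps (-N) r hn.neg
    have hy := Gal.not_tors vData hn hB hr hR
    have h1 := gz hn hr hR.freps (by simpa [hP, gch] using hy)
      (matchB hn hr hR.freps) (nData.one hn hr hR.freps) (exists_aux_disc nData hn)
    simp only [sum_Ico_zero] at h1
    have hN0 : (N : ℤ) ≠ 0 := by omega
    obtain ⟨τ, hτ, hL⟩ := sum_Ladd_eq (Nat.odd_iff.mpr (by omega)) hN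
    set H := fun s => ∑ k ∈ range N, (J((k : ℤ) | N) : ℂ) * Ladd k N s with hH
    have dH : Differentiable ℂ H :=
      Differentiable.fun_sum fun k _ => (Ladd_differentiable k hN0).const_mul _
    have H1 : H 1 = 0 := by
      simpa only [hH, Ladd_one _ hN0, perA] using perA_eq_zero hn (TYZ.jac15 hn hr)
    refine ⟨_, dH.const_mul τ, hL, ?_, Gal.finrank_eq_one hn hB hr hR hy⟩
    refine ((dH.const_mul τ).analyticAt 1).analyticOrderAt_eq_one_of_zero_deriv_ne_zero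
      (by simp [H1]) ?_
    rw [((dH 1).hasDerivAt.const_mul τ).deriv]
    exact mul_ne_zero hτ h1
  · obtain ⟨G, h1, h2, h0⟩ := core hN h4 h3 (by omega) hB
    have := finite_twist15_of_condB hN h4 h3 (by omega) hB
    exact ⟨G, h1, h2, (h1.analyticAt 1).analyticOrderAt_eq_zero.mpr h0,
      finrank_eq_zero_of_finite⟩

theorem exists_triple' {N : ℕ} (G : ℂ → ℂ) (hG : Differentiable ℂ G)
    (hGL : ∀ s : ℂ, (3 : ℝ) / 2 < s.re → G s = LSeries (fun n => xi N n * a15 n) s) :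
    ∃ F : ℂ → ℂ, Differentiable ℂ F ∧
      (∀ s : ℂ, (3 : ℝ) / 2 < s.re → F s = LSeries (fun n => (a15 n : ℂ)) s ^ 2 *
        LSeries (fun n => ((jacobiSym n N : ℤ) : ℂ) * a15 n) s ^ 2) ∧
      analyticOrderAt F 1 = 2 * analyticOrderAt G 1 := by
  obtain ⟨G0, h1, h2, h3⟩ := exists_entire_one
  refine ⟨G0 ^ 2 * G ^ 2, (h1.pow 2).mul (hG.pow 2), fun s hs => by
    rw [Pi.mul_apply, Pi.pow_apply, Pi.pow_apply, h2 s hs, hGL s hs]; rfl, ?_⟩
  rw [analyticOrderAt_mul ((h1.analyticAt 1).pow 2) ((hG.analyticAt 1).pow 2),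
    analyticOrderAt_pow (h1.analyticAt 1), analyticOrderAt_pow (hG.analyticAt 1),
    (h1.analyticAt 1).analyticOrderAt_eq_zero.mpr h3]
  simp

/-- Equivariant maps from the tensor square of the regular representation. -/
theorem exists_equiv {G M : Type} [Group G] [AddCommGroup M] [Module ℚ M] (ρ : G → M →ₗ[ℚ] M)
    (h1 : ∀ x, ρ 1 x = x) (hm : ∀ σ τ x, ρ (σ * τ) x = ρ σ (ρ τ x)) {X : Type} [AddCommGroup X]
    [Module ℚ X] (c : X →ₗ[ℚ] ((G →₀ ℚ) ⊗[ℚ] (G →₀ ℚ) →ₗ[ℚ] M)) (hc : Function.Injective c)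
    (hX : ∀ φ, φ ∈ Set.range c ↔ ∀ σ, φ ∘ₗ map (Finsupp.lmapDomain ℚ ℚ fun τ => σ * τ)
      (Finsupp.lmapDomain ℚ ℚ fun τ => σ * τ) = ρ σ ∘ₗ φ) : Nonempty (X ≃ₗ[ℚ] (G → M)) := by
  have ext : ∀ φ ψ : (G →₀ ℚ) ⊗[ℚ] (G →₀ ℚ) →ₗ[ℚ] M, (∀ a b, φ (.single a 1 ⊗ₜ .single b 1) =
      ψ (.single a 1 ⊗ₜ .single b 1)) → φ = ψ := fun φ ψ h => by
    ext a b
    exact h a b
  refine ⟨.ofBijective ((LinearMap.pi fun τ =>
    LinearMap.applyₗ (Finsupp.single 1 1 ⊗ₜ Finsupp.single τ 1)) ∘ₗ c) ⟨?_, fun m => ?_⟩⟩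
  · rw [injective_iff_map_eq_zero]
    refine fun x hx => hc ((ext _ _ fun a b => ?_).trans (map_zero c).symm)
    have := LinearMap.congr_fun ((hX _).mp ⟨x, rfl⟩ a) (.single 1 1 ⊗ₜ .single (a⁻¹ * b) 1)
    simpa [show c x (.single 1 1 ⊗ₜ .single (a⁻¹ * b) 1) = 0 from congr_fun hx _] using this
  · obtain ⟨x, hx⟩ := (hX (Finsupp.linearCombination ℚ (fun p : G × G => ρ p.1 (m (p.1⁻¹ * p.2))) ∘ₗ
      (finsuppTensorFinsupp' ℚ G G).toLinearMap)).mpr fun σ => ext _ _ fun a b => by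
        simp [hm, mul_assoc]
    exact ⟨x, funext fun τ => by simp [hx, h1]⟩

end Pool.Agent.Lib.MP_60ff09_nt
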