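import Mathlib

/-! Both sides of the conjecture of Beilinson for the newform of level 15 and an Artin
representation. -/

set_option autoImplicit false

open scoped Classical
open NumberField CategoryTheory MonoidalCategory

namespace Pool.Agent.Lib.MP_60ff09_nt.V4

/-- The modular curve `X_1(15)`, the elliptic curve `y^2 + x y + y = x^3 + x^2` over `ℚ`. -/
def X115 : WeierstrassCurve ℚ := { a₁ := 1, a₂ := 1, a₃ := 1, a₄ := 0, a₆ := 0 }

/-- The group of `H`-points of `W` with its Galois action. -/
noncomputable def pts (W : WeierstrassCurve ℚ) (H : Type) [Field H] [Algebra ℚ H] :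
    Rep ℤ (H ≃ₐ[ℚ] H) :=
  Rep.of (X := (W.baseChange H).toAffine.Point)
    { toFun := fun σ =>
        (WeierstrassCurve.Affine.Point.map (W' := W.toAffine) (σ : H →ₐ[ℚ] H)).toIntLinearMap
      map_one' := LinearMap.ext fun P => by cases P <;> rfl
      map_mul' := fun _ _ => LinearMap.ext fun P => by cases P <;> rfl }

/-- Extension of scalars of a representation. -/
noncomputable def bc {R G : Type} [CommRing R] [Group G] (S : Type) [CommRing S] [Algebra R S]
    (A : Rep R G) : Rep S G :=
  Rep.of ((Module.End.baseChangeHom R S A).toMonoidHom.comp A.ρ)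

variable {M L : Type} [Field M] [NumberField M] [IsGalois ℚ M] [Field L]

instance normalFix (K : Subgroup (M ≃ₐ[ℚ] M)) [K.Normal] :
    Normal ℚ (IntermediateField.fixedField K) :=
  (IsGalois.of_fixedField_normal_subgroup K).to_normal

/-- The representation `L ⊗ W(H)` of the Galois group of `M`, for a normal subfield `H`. -/
noncomputable def mw (L : Type) [Field L] (W : WeierstrassCurve ℚ) (H : IntermediateField ℚ M)
    [Normal ℚ H] : Rep L (M ≃ₐ[ℚ] M) :=
  Rep.res (AlgEquiv.restrictNormalHom H) (bc L (pts W H))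

/-- The space of equivariant linear maps from `V` to `L ⊗ X_1(15)(H)`, where `H` is the field
fixed by the kernel of `V`. -/
noncomputable def HomG (V : Rep L (M ≃ₐ[ℚ] M)) : ModuleCat L :=
  ModuleCat.of L (V ⟶ mw L X115 (IntermediateField.fixedField V.ρ.ker))

/-- The element `φ` acting on the invariants of the subgroup `I`, extended by zero on the
invariant complement. -/
noncomputable def onInv {G : Type} [Group G] (V : Rep ℂ G) (I : Subgroup G) (φ : G) :
    Module.End ℂ V :=
  (Nat.card I : ℂ)⁻¹ • ∑ᶠ τ : I, V.ρ (φ * τ)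

/-- The inverse of the Euler factor at `p` of the tensor product with the newform of level 15
whose `p`-th coefficient is `a`; here `T` is the Frobenius on the inertia invariants. -/
noncomputable def eul {V : Type} [AddCommGroup V] [Module ℂ V] (T : Module.End ℂ V) (a : ℤ) (p : ℕ)
    (s : ℂ) : ℂ :=
  LinearMap.det (1 - (a * (p : ℂ) ^ (-s)) • T +
    (if p ∣ 15 then 0 else (p : ℂ) ^ (1 - 2 * s)) • T ^ 2)

/-- The representation `V` is the direct sum of the quadratic characters of the fields generated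
by the square roots of the `d i`. -/
def Splits (V : Rep L (M ≃ₐ[ℚ] M)) (d : Fin 4 → ℤ) : Prop :=
  ∃ (v : Module.Basis (Fin 4) L V) (δ : Fin 4 → M), ∀ i, δ i ^ 2 = d i ∧ ∀ σ : M ≃ₐ[ℚ] M,
    (σ (δ i) = δ i → V.ρ σ (v i) = v i) ∧ (σ (δ i) = -δ i → V.ρ σ (v i) = -v i)

/-- The function `F` is the Euler product of the tensor product of the complex representation `V`
with the newform of level 15 with coefficients `a`, in its half plane of convergence. -/
def IsL (a : ℕ → ℤ) (V : Rep ℂ (M ≃ₐ[ℚ] M)) (F : ℂ → ℂ) : Prop :=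
  ∀ (Q : ℕ → Ideal (𝓞 M)) (φ : ℕ → M ≃ₐ[ℚ] M),
    (∀ p : ℕ, p.Prime → (Q p).IsPrime ∧ (p : 𝓞 M) ∈ Q p ∧ IsArithFrobAt ℤ (φ p) (Q p)) →
    ∀ s : ℂ, (3 : ℝ) / 2 < s.re → HasProd (fun p : ℕ => if p.Prime then
      (eul (onInv V ((Q p).inertia (M ≃ₐ[ℚ] M)) (φ p)) (a p) p s)⁻¹ else 1) (F s)

/-- The conjecture of Beilinson for the newform with coefficients `a` and the representation `V`,
both sides being `r`. -/
def Beil [Algebra L ℂ] (a : ℕ → ℤ) (V : Rep L (M ≃ₐ[ℚ] M)) (r : ℕ) : Prop :=
  ∃ F : ℂ → ℂ, Differentiable ℂ F ∧ IsL a (bc ℂ V) F ∧ Module.Finite L (HomG V) ∧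
    analyticOrderAt F 1 = (Module.finrank L (HomG V) : ℕ∞) ∧ Module.finrank L (HomG V) = r

/-- The conjecture holds for all pairs of two-dimensional representations of the Galois group of
`M` over `L` whose tensor product is the sum of the quadratic characters attached to the `d i`,
both sides being `r`. -/
def HoldsAt (M L : Type) [Field M] [NumberField M] [IsGalois ℚ M] [Field L] [Algebra L ℂ]
    (a : ℕ → ℤ) (d : Fin 4 → ℤ) (r : ℕ) : Prop :=
  ∀ Vg Vh : Rep L (M ≃ₐ[ℚ] M), Module.finrank L Vg = 2 → Module.finrank L Vh = 2 →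
    Splits (Vg ⊗ Vh) d → Beil a (Vg ⊗ Vh) r

/-- The same for all finite Galois extensions `M` of `ℚ` and all coefficient fields `L`. -/
def Holds (a : ℕ → ℤ) (d : Fin 4 → ℤ) (r : ℕ) : Prop :=
  ∀ (M L : Type) [Field M] [NumberField M] [IsGalois ℚ M] [Field L] [Algebra L ℂ],
    HoldsAt M L a d r

end Pool.Agent.Lib.MP_60ff09_nt.V4
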