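import Pool.Agent.Lib.MP_60ff09_nt.V4Main
import Pool.Agent.Lib.MP_696deb_nt.B2.GF

/-! Reduction to squarefree discriminants and counting. -/

set_option autoImplicit false

open scoped Classical
open Finset Filter Topology NumberField NumberTheorySymbols Pool.Agent.Lib.MP_696deb_nt

namespace Pool.Agent.Lib.MP_60ff09_nt.V4

theorem exists_sqf (n : ℤ) : ∃ a c : ℤ, n ≠ 0 → n = c ^ 2 * a ∧ Squarefree a := by
  obtain ⟨a, c, h1, h2⟩ := Nat.sq_mul_squarefree n.natAbs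
  refine ⟨n.sign * a, c, fun hn => ⟨?_, ?_⟩⟩
  · rw [mul_left_comm, ← Nat.cast_pow, ← Nat.cast_mul, h1, Int.sign_mul_natAbs]
  · rw [← Int.squarefree_natAbs, Int.natAbs_mul, Int.natAbs_sign_of_ne_zero hn, one_mul]
    exact h2

/-- The squarefree part of an integer. -/
noncomputable def sqf (n : ℤ) : ℤ := (exists_sqf n).choose

theorem sqf_spec {n : ℤ} (hn : n ≠ 0) : Squarefree (sqf n) ∧ ∃ c, c ≠ 0 ∧ n = c ^ 2 * sqf n := by
  obtain ⟨c, h⟩ := (exists_sqf n).choose_spec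
  exact ⟨(h hn).2, c, fun k => hn (by rw [(h hn).1, k]; simp), (h hn).1⟩

theorem eq_of_sq {d d' c c' : ℤ} (h : Squarefree d) (h' : Squarefree d') (hc : c ≠ 0)
    (e : d * c ^ 2 = d' * c' ^ 2) : d = d' := by
  have key : ∀ {d d' c c' : ℤ}, Squarefree d → c ≠ 0 → d * c ^ 2 = d' * c' ^ 2 → d ∣ d' := by
    intro d d' c c' h hc e
    obtain ⟨g, x, y, hg, co, rfl, rfl⟩ := Int.exists_gcd_one' (Int.gcd_pos_of_ne_zero_left c' hc)
    have e' : d * x ^ 2 = d' * y ^ 2 := mul_right_cancel₀ (b := (g : ℤ) ^ 2) (by positivity)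
      (by linear_combination e)
    have co' := Int.isCoprime_iff_gcd_eq_one.2 co
    have u : IsUnit y := h y (by
      rw [← sq]
      exact (co'.symm.pow (m := 2) (n := 2)).dvd_of_dvd_mul_right ⟨d', by linear_combination e'⟩)
    exact (u.pow 2).dvd_mul_right.1 ⟨x ^ 2, e'.symm⟩
  have hc' : c' ≠ 0 := fun k => mul_ne_zero h.ne_zero (pow_ne_zero 2 hc) (by rw [e, k]; simp)
  rcases Int.associated_iff.1 (associated_of_dvd_dvd (key h hc e) (key h' hc' e.symm)) with k | k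
  · exact k
  · have := h'.ne_zero
    rw [k] at e
    have : d' * (c ^ 2 + c' ^ 2) = 0 := by linear_combination -e
    have : c ^ 2 + c' ^ 2 ≠ 0 := by positivity
    simp_all

theorem sqf_cls {n : ℤ} (h4 : n % 4 = 1) (h3 : ¬ 3 ∣ n) (h5 : ¬ 5 ∣ n) :
    sqf n % 4 = 1 ∧ ¬ 3 ∣ sqf n ∧ ¬ 5 ∣ sqf n ∧ |sqf n| ≤ |n| ∧
      J(-15 | (sqf n).natAbs) = J(-15 | n.natAbs) := by
  obtain ⟨h1, c, c0, e⟩ := sqf_spec (n := n) (by omega)
  generalize sqf n = a at h1 e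
  subst e
  refine ⟨?_, fun k => h3 (k.mul_left _), fun k => h5 (k.mul_left _), ?_, ?_⟩
  · obtain ⟨k, rfl | rfl⟩ := Int.even_or_odd' c
    · rw [show (2 * k) ^ 2 * a = 4 * (k ^ 2 * a) by ring] at h4
      omega
    · rw [show (2 * k + 1) ^ 2 * a = 4 * ((k ^ 2 + k) * a) + a by ring] at h4
      omega
  · rw [abs_mul]
    exact le_mul_of_one_le_left (abs_nonneg a) (Int.one_le_abs (pow_ne_zero 2 c0))
  · have : NeZero a.natAbs := ⟨Int.natAbs_ne_zero.2 h1.ne_zero⟩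
    have : NeZero (c.natAbs ^ 2) := ⟨pow_ne_zero 2 (Int.natAbs_ne_zero.2 c0)⟩
    rw [Int.natAbs_mul, Int.natAbs_pow, jacobiSym.mul_right, jacobiSym.pow_right,
      jacobiSym.sq_one, one_mul]
    have : Nat.Coprime (3 * 5) c.natAbs := Nat.Coprime.mul_left
      ((Nat.Prime.coprime_iff_not_dvd Nat.prime_three).2 fun k =>
        h3 (((Int.natCast_dvd.2 k).pow two_ne_zero).mul_right _))
      ((Nat.Prime.coprime_iff_not_dvd Nat.prime_five).2 fun k =>
        h5 (((Int.natCast_dvd.2 k).pow two_ne_zero).mul_right _))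
    exact this

variable {M L : Type} [Field M] [NumberField M] [Field L]

theorem Splits.sqf {V : Rep L (M ≃ₐ[ℚ] M)} {d : Fin 4 → ℤ} (h : Splits V d) (hd : ∀ i, d i ≠ 0) :
    Splits V fun i => sqf (d i) := by
  obtain ⟨v, δ, h⟩ := h
  choose c c0 e using fun i => (sqf_spec (hd i)).2
  have c1 : ∀ i, (c i : M) ≠ 0 := fun i => Int.cast_ne_zero.2 (c0 i)
  refine ⟨v, fun i => δ i / c i, fun i => ⟨?_, fun σ => ?_⟩⟩
  · rw [div_pow, (h i).1, div_eq_iff (pow_ne_zero 2 (c1 i)), mul_comm]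
    exact_mod_cast congrArg (Int.cast : ℤ → M) (e i)
  · rw [map_div₀, map_intCast, ← neg_div, div_left_inj' (c1 i), div_left_inj' (c1 i)]
    exact (h i).2 σ

theorem card_eq_sum {d : Fin 4 → ℤ} (h3 : ∀ i, ¬ 3 ∣ d i) (h5 : ∀ i, ¬ 5 ∣ d i) :
    (univ.filter fun i => J(-15 | (d i).natAbs) = -1).card =
      ∑ i, if J(-15 | (d i).natAbs) = 1 then 0 else 1 := by
  rw [card_filter]
  refine sum_congr rfl fun i _ => ?_
  have : Nat.Coprime (3 * 5) (d i).natAbs := Nat.Coprime.mul_left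
    ((Nat.Prime.coprime_iff_not_dvd Nat.prime_three).2 fun k => h3 i (Int.natCast_dvd.2 k))
    ((Nat.Prime.coprime_iff_not_dvd Nat.prime_five).2 fun k => h5 i (Int.natCast_dvd.2 k))
  have j : J(-15 | (d i).natAbs) = 1 ∨ J(-15 | (d i).natAbs) = -1 := by
    refine jacobiSym.eq_one_or_neg_one ?_
    exact this
  rcases j with j | j <;> simp [j]

theorem tendsto_one {P C : ℤ → Prop} {e : Fin 4 → ℤ} (he : ∀ i, e i ≠ 0)
    (hC : ∀ ε : ℝ, 0 < ε → ∃ X0 : ℕ, ∀ X ≥ X0,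
      (((Icc (-(X : ℤ)) X).filter fun d => Squarefree d ∧ ¬ C d).card : ℝ) ≤ ε * X)
    (hP : ∀ d, d % 4 = 1 → ¬ 3 ∣ d → ¬ 5 ∣ d → (∀ i, C (sqf (d * e i))) → P d) :
    Tendsto (fun X : ℕ =>
      (Set.ncard {d : ℤ | |d| ≤ X ∧ Squarefree d ∧ d % 4 = 1 ∧ ¬ 3 ∣ d ∧ ¬ 5 ∣ d ∧ P d} : ℝ) /
        (Set.ncard {d : ℤ | |d| ≤ X ∧ Squarefree d ∧ d % 4 = 1 ∧ ¬ 3 ∣ d ∧ ¬ 5 ∣ d} : ℝ))
      atTop (𝓝 1) := by
  rw [Metric.tendsto_nhds]
  intro ε hε
  let B : ℕ := ∑ i, (e i).natAbs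
  have hB : ∀ i, (e i).natAbs ≤ B := fun i =>
    single_le_sum (f := fun i => (e i).natAbs) (fun _ _ => Nat.zero_le _) (mem_univ i)
  have B1 : 1 ≤ B := (Int.natAbs_pos.2 (he 0)).trans_le (hB 0)
  have B0 : (0 : ℝ) < B := by exact_mod_cast B1
  obtain ⟨X0, h0⟩ := hC (ε / (100 * B)) (by positivity)
  filter_upwards [eventually_ge_atTop X0,
    (tendsto_natCast_atTop_atTop (R := ℝ)).eventually_ge_atTop 600] with X h1 h3
  have e1 : {d : ℤ | |d| ≤ X ∧ Squarefree d ∧ d % 4 = 1 ∧ ¬ 3 ∣ d ∧ ¬ 5 ∣ d ∧ P d} =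
      ↑((B2.gfF X).filter P) := by
    ext d
    simp [B2.gfF, abs_le, and_assoc]
  have e2 : {d : ℤ | |d| ≤ X ∧ Squarefree d ∧ d % 4 = 1 ∧ ¬ 3 ∣ d ∧ ¬ 5 ∣ d} = ↑(B2.gfF X) := by
    ext d
    simp [B2.gfF, abs_le, and_assoc]
  rw [e1, e2, Set.ncard_coe_finset, Set.ncard_coe_finset, Real.dist_eq]
  have b := h0 (B * X) (h1.trans (Nat.le_mul_of_pos_left X B1))
  have c : ((B2.gfF X).card : ℝ) = (B2.gfS X).card := by simpa using B2.gf_sum X fun _ => 1
  have g := B2.gf_big X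
  rw [← c] at g
  have k : ∀ i, ((B2.gfF X).filter fun d => ¬ C (sqf (d * e i))).card ≤
      ((Icc (-((B * X : ℕ) : ℤ)) (B * X : ℕ)).filter fun d => Squarefree d ∧ ¬ C d).card := by
    intro i
    refine card_le_card_of_injOn (fun d => sqf (d * e i)) (fun d hd => ?_) fun d hd d' hd' k => ?_
    · simp only [B2.gfF, coe_filter, mem_filter, mem_Icc, Set.mem_ofPred_eq, ← abs_le] at hd ⊢
      obtain ⟨k1, c, c0, k2⟩ := sqf_spec (mul_ne_zero hd.1.2.1.ne_zero (he i))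
      refine ⟨?_, k1, hd.2⟩
      have k3 : |sqf (d * e i)| ≤ |d * e i| := by
        conv_rhs => rw [k2, abs_mul]
        exact le_mul_of_one_le_left (abs_nonneg _) (Int.one_le_abs (pow_ne_zero 2 c0))
      refine k3.trans ?_
      rw [abs_mul, mul_comm, Nat.cast_mul]
      refine mul_le_mul ?_ hd.1.1 (abs_nonneg _) (by positivity)
      rw [Int.abs_eq_natAbs]
      exact_mod_cast hB i
    · simp only [B2.gfF, coe_filter, mem_filter, Set.mem_ofPred_eq] at hd hd' k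
      obtain ⟨-, c, c0, k2⟩ := sqf_spec (mul_ne_zero hd.1.2.1.ne_zero (he i))
      obtain ⟨-, c', c0', k2'⟩ := sqf_spec (mul_ne_zero hd'.1.2.1.ne_zero (he i))
      rw [k] at k2
      exact eq_of_sq hd.1.2.1 hd'.1.2.1 c0' (c' := c) (mul_right_cancel₀ (he i) (by
        linear_combination c' ^ 2 * k2 - c ^ 2 * k2'))
  have k1 : ((B2.gfF X).filter fun d => ¬ P d).card ≤
      ∑ i, ((B2.gfF X).filter fun d => ¬ C (sqf (d * e i))).card := by
    refine (card_le_card fun d hd => ?_).trans card_biUnion_le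
    simp only [mem_biUnion, mem_univ, true_and, mem_filter] at hd ⊢
    by_contra! k
    have := mem_filter.1 hd.1
    exact hd.2 (hP d this.2.2.1 this.2.2.2.1 this.2.2.2.2 fun i => k i hd.1)
  have k2 := k1.trans (sum_le_card_nsmul _ _ _ fun i _ => k i)
  rw [card_univ, Fintype.card_fin, smul_eq_mul, ← Nat.cast_le (α := ℝ), Nat.cast_mul] at k2
  have k3 := card_filter_add_card_filter_not (s := B2.gfF X) P
  rw [← Nat.cast_inj (R := ℝ), Nat.cast_add] at k3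
  have a0 : (0 : ℝ) < (B2.gfF X).card := by linarith
  rw [show ε / (100 * B) * (B * X : ℕ) = ε / 100 * X by push_cast; field_simp] at b
  have a1 : ε * X ≤ ε * (20 * (B2.gfF X).card) := mul_le_mul_of_nonneg_left (by linarith) hε.le
  have a2 := mul_pos hε a0
  have a3 : (0 : ℝ) ≤ ((B2.gfF X).filter fun d => ¬ P d).card := Nat.cast_nonneg _
  rw [abs_lt, lt_sub_iff_add_lt, sub_lt_iff_lt_add, lt_div_iff₀ a0, div_lt_iff₀ a0]
  rw [Nat.cast_ofNat] at k2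
  constructor <;> nlinarith

end Pool.Agent.Lib.MP_60ff09_nt.V4
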