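import Pool.Agent.Lib.MP_60ff09_nt.V4Defs

/-! Equivariant maps from a sum of characters, and eigenspaces after extension of scalars. -/

set_option autoImplicit false

open scoped Classical TensorProduct
open CategoryTheory

namespace Pool.Agent.Lib.MP_60ff09_nt.V4

variable {R G : Type} [CommRing R] [Group G]

/-- The eigenspace of a character with integer values. -/
def eig (A : Rep R G) (χ : G → ℤ) : Submodule R A where
  carrier := {x | ∀ σ, A.ρ σ x = χ σ • x}
  add_mem' := fun h h' σ => by rw [map_add, h σ, h' σ, smul_add]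
  zero_mem' := fun σ => by simp
  smul_mem' := fun c x h σ => by rw [map_smul, h σ, smul_comm]

theorem hom_equiv {ι : Type} (V W : Rep R G) (v : Module.Basis ι R V) (χ : ι → G → ℤ)
    (h : ∀ i σ, V.ρ σ (v i) = χ i σ • v i) : Nonempty ((V ⟶ W) ≃ₗ[R] ∀ i, eig W (χ i)) := by
  let f : (V ⟶ W) →ₗ[R] ∀ i, eig W (χ i) :=
    { toFun := fun φ i => ⟨φ.hom (v i), fun σ => by rw [← Rep.hom_comm_apply, h, map_zsmul]⟩
      map_add' := fun _ _ => rfl
      map_smul' := fun _ _ => rfl }
  refine ⟨.ofBijective f ⟨fun φ ψ e => ?_, fun w => ?_⟩⟩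
  · exact Rep.hom_ext (Representation.IntertwiningMap.ext
      (v.ext fun i => congrArg Subtype.val (congrFun e i)))
  · refine ⟨Rep.ofHom ⟨v.constr ℕ fun i => (w i).1, fun σ => v.ext fun i => ?_⟩,
      funext fun i => Subtype.ext (v.constr_basis ℕ _ i)⟩
    rw [LinearMap.comp_apply, LinearMap.comp_apply, h, map_zsmul, v.constr_basis, (w i).2 σ]

theorem rank_eig [Finite G] (L : Type) [Field L] [CharZero L] [Algebra R L] [Module.Flat R L]
    [FaithfulSMul R L] (A : Rep.{0} R G) (χ : G → ℤ)
    (h1 : ∀ σ τ, χ (σ * τ) = χ σ * χ τ) (h2 : ∀ σ, χ σ * χ σ = 1) :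
    Module.rank L (eig (bc L A) χ) = Module.rank R (eig A χ) := by
  have := Fintype.ofFinite G
  let f : L ⊗[R] eig A χ →ₗ[L] bc L A := (eig A χ).subtype.baseChange L
  let t : L → A →+ bc L A := fun l => (TensorProduct.mk R L A l).toAddMonoidHom
  have ht : ∀ l σ x, (bc L A).ρ σ (t l x) = t l (A.ρ σ x) := fun _ _ _ => rfl
  have ind : ∀ S : AddSubgroup (bc L A), (∀ l x, t l x ∈ S) → ∀ w, w ∈ S := fun S h w =>
    TensorProduct.induction_on (motive := fun w => w ∈ S) w S.zero_mem h fun _ _ => S.add_mem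
  have inj : Function.Injective f :=
    Module.Flat.lTensor_preserves_injective_linearMap _ (eig A χ).injective_subtype
  have hr : LinearMap.range f = eig (bc L A) χ := by
    refine le_antisymm ?_ fun w hw => ?_
    · rintro _ ⟨x, rfl⟩
      induction x using TensorProduct.induction_on with
      | zero => simp
      | add x y hx hy => exact map_add f x y ▸ add_mem hx hy
      | tmul l x => exact fun σ => (congrArg (t l) (x.2 σ)).trans (map_zsmul (t l) _ _)
    · let P : bc L A →ₗ[L] bc L A := ∑ σ, χ σ • (bc L A).ρ σ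
      have hP : ∀ x, P x = ∑ σ, χ σ • (bc L A).ρ σ x := fun x => by simp [P]
      have k := ind ((LinearMap.range f).comap P).toAddSubgroup (fun l x => by
        refine ⟨l ⊗ₜ ⟨∑ σ, χ σ • A.ρ σ x, fun τ => ?_⟩, ?_⟩
        · rw [map_sum, Finset.smul_sum, ← Equiv.sum_comp (Equiv.mulLeft τ) fun σ => χ τ • _]
          refine Finset.sum_congr rfl fun σ _ => ?_
          rw [map_zsmul, Equiv.coe_mulLeft, map_mul, smul_smul, h1, ← mul_assoc, h2, one_mul]
          rfl
        · rw [hP]
          change t l (∑ σ, χ σ • A.ρ σ x) = _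
          simp only [map_sum, map_zsmul, ht]) w
      change P w ∈ LinearMap.range f at k
      rw [hP, Finset.sum_congr rfl fun σ _ => by rw [hw σ, smul_smul, h2, one_smul],
        Finset.sum_const, ← Nat.cast_smul_eq_nsmul L] at k
      exact (Submodule.smul_mem_iff _ (Nat.cast_ne_zero.2 Finset.univ_nonempty.card_ne_zero)).1 k
  rw [← hr, rank_range_of_injective f inj, (TensorProduct.isBaseChange R (eig A χ) L).rank_eq]

end Pool.Agent.Lib.MP_60ff09_nt.V4
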