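import Pool.Agent.Lib.MP_60ff09_nt.V4Hom
import Pool.Agent.Lib.MP_60ff09_nt.Isog

/-! The rank of an eigenspace of the group of points is the rank of the twist. -/

set_option autoImplicit false

open scoped Classical
open Complex WeierstrassCurve WeierstrassCurve.Affine
open Pool.Agent.Shared.Weier Pool.Agent.Lib.MP_696deb_nt Pool.Agent.Lib.MP_696deb_nt.Gal

namespace Pool.Agent.Lib.MP_60ff09_nt.V4

/-- Complex points on which automorphisms act through the sign of `δ`. -/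
def Tw {W : WeierstrassCurve ℚ} (δ : ℂ) (Q : Pt W ℂ) : Prop := ∀ σ : ℂ ≃+* ℂ,
  (σ δ = δ → pmap (σ : ℂ →+* ℂ) Q = Q) ∧ (σ δ = -δ → pmap (σ : ℂ →+* ℂ) Q = -Q)

theorem Tw.map {W W' : WeierstrassCurve ℚ} {δ : ℂ} {Q : Pt W ℂ} (h : Tw δ Q) {Φ : Pt W ℂ →+ Pt W' ℂ}
    (k : ∀ (σ : ℂ ≃+* ℂ) P, pmap (σ : ℂ →+* ℂ) (Φ P) = Φ (pmap (σ : ℂ →+* ℂ) P)) : Tw δ (Φ Q) :=
  fun σ => ⟨fun e => by rw [k, (h σ).1 e], fun e => by rw [k, (h σ).2 e, map_neg]⟩

variable {d : ℤ} {δ : ℂ}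

theorem tw_hom (hd : d ≠ 0) (hδ : δ ^ 2 = d) (P : (twist15 d).toAffine.Point) :
    Tw (W := W15) δ ((vc_twist hd hδ).hom P) := by
  intro σ
  rcases P with _ | ⟨x, y, hP⟩
  · exact ⟨fun _ => rfl, fun _ => rfl⟩
  refine ⟨fun e => IsPer.some_congr (by simp [e, map_ofNat]) (by simp [e, map_ofNat]), fun e => ?_⟩
  rw [VC.hom_some, Point.neg_some]
  refine IsPer.some_congr (by simp [e, map_ofNat]) ?_
  simp [e, map_ofNat, negY, W15]
  ring

theorem tw_range (hd : d ≠ 0) (hδ : δ ^ 2 = d) {Q : Pt W15 ℂ} (hQ : Tw δ Q) :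
    ∃ P, (vc_twist hd hδ).hom P = Q := by
  have h0 : δ ≠ 0 := (by simpa using (vc_twist hd hδ).hu)
  have pm : ∀ σ : ℂ ≃+* ℂ, σ δ = δ ∨ σ δ = -δ := fun σ =>
    sq_eq_sq_iff_eq_or_eq_neg.1 (by rw [← map_pow, hδ, map_intCast])
  obtain ⟨a, ha⟩ := Gal.mem_range_of_fixed (K := ℚ) (a := xco Q) fun σ _ => by
    rw [← RingHom.coe_coe, ← xco_pmap]
    rcases pm σ with e | e
    · rw [(hQ σ).1 e]
    · rw [(hQ σ).2 e, xco_neg]
  obtain ⟨b, hb⟩ := Gal.mem_range_of_fixed (K := ℚ) (a := δ * (2 * yco Q + xco Q)) fun σ _ => by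
    have e1 := xco_pmap (σ : ℂ →+* ℂ) Q
    have e2 := yco_pmap (σ : ℂ →+* ℂ) Q
    rw [RingHom.coe_coe] at e1 e2
    rw [map_mul, map_add, map_mul, map_ofNat, ← e1, ← e2]
    rcases pm σ with e | e
    · rw [(hQ σ).1 e, e]
    · rw [(hQ σ).2 e, e]
      rcases Q with _ | ⟨X, Y, hP⟩
      · change -δ * (2 * 0 + 0) = δ * (2 * 0 + 0)
        ring
      · rw [Point.neg_some]
        simp only [xco_some, yco_some, negY, toAffine, W15_a₁, W15_a₃]
        ring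
  rcases Q with _ | ⟨X, Y, hP⟩
  · exact ⟨0, rfl⟩
  simp only [xco_some, yco_some, eq_ratCast] at ha hb
  refine VC.mem_range _ hP (x := 36 * d * (a - 7 / 12)) (y := 108 * d * b) ?_ ?_ <;>
    simp only [eq_ratCast] <;> push_cast
  · rw [ha, ← hδ]
    field_simp
    ring
  · rw [ha, hb, ← hδ]
    field_simp
    ring

theorem rank_tw {H : Type} [Field H] [NumberField H] [Normal ℚ H] (hd : d ≠ 0) {δ : H}
    (hδ : δ ^ 2 = d) (E : AddSubgroup (Pt W1 H)) (hE : ∀ P, P ∈ E ↔ ∀ τ : H ≃ₐ[ℚ] H,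
      (τ δ = δ → pmap (τ : H →+* H) P = P) ∧ (τ δ = -δ → pmap (τ : H →+* H) P = -P)) :
    Module.rank ℤ E = Module.rank ℤ (twist15 d).toAffine.Point := by
  obtain ⟨ι⟩ : Nonempty (H →+* ℂ) := inferInstance
  let _ := ι.toAlgebra
  have : Countable H := Finsupp.Countable.of_moduleFinite (R := ℚ)
  have hc : ι δ ^ 2 = d := by rw [← map_pow, hδ, map_intCast]
  have h4 : ∀ z ∈ Unif.L15.lattice, ((4 : ℕ) : ℂ) * z ∈ L1.lattice := fun z hz =>
    isPer1.unif_eq_zero_iff.mp (by rw [← nsmul_eq_mul, map_nsmul]; exact (u1_L15 hz).1)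
  have h1 : ∀ z ∈ L1.lattice, ((1 : ℕ) : ℂ) * z ∈ Unif.L15.lattice := fun z hz => by
    simpa using kl.le hz
  have key : ∀ P, P ∈ E ↔ Tw (ι δ) (pmap ι P) := fun P => by
    rw [hE]
    refine ⟨fun h σ => ?_, fun h τ => ?_⟩
    · let σ' : ℂ ≃ₐ[ℚ] ℂ := AlgEquiv.ofRingEquiv (f := σ) fun x => by simp
      let τ := σ'.restrictNormal H
      have e : ∀ x, σ (ι x) = ι (τ x) := fun x => (σ'.restrictNormal_commutes H x).symm
      rw [pmap_pmap, show (σ : ℂ →+* ℂ).comp ι = ι.comp τ from RingHom.ext e, ← pmap_pmap, e,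
        ← map_neg, ← map_neg]
      exact ⟨fun k => by rw [(h τ).1 (ι.injective k)], fun k => by rw [(h τ).2 (ι.injective k)]⟩
    · obtain ⟨σ, e⟩ := Gal.exists_aut ι (ι.comp τ) ι.injective (RingHom.injective _)
      have k := h σ
      rw [pmap_pmap, show (σ : ℂ →+* ℂ).comp ι = ι.comp τ from RingHom.ext e, ← pmap_pmap, e,
        ← map_neg, ← map_neg] at k
      exact ⟨fun l => pmap_injective ι (k.1 (congrArg ι l)),
        fun l => pmap_injective ι (k.2 (congrArg ι l))⟩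
  refine le_antisymm ?_ ?_
  · obtain ⟨Φ, k1, k2⟩ := exists_isog isPer1 Unif.isPer15 one_pos four_pos h1 h4
    exact rank_le_of_range (Φ.comp ((pmap ι).comp E.subtype)) (vc_twist hd hc).hom
      (fun P hP => E.subtype_injective.isOfFinAddOrder_iff.mp
        ((pmap_injective ι).isOfFinAddOrder_iff.mp (k1 _ hP)))
      fun P => tw_range hd hc (((key P).1 P.2).map k2)
  · obtain ⟨Φ, k1, k2⟩ := exists_isog Unif.isPer15 isPer1 four_pos one_pos h4 h1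
    refine rank_le_of_range (Φ.comp (vc_twist hd hc).hom) ((pmap ι).comp E.subtype)
      (fun P hP => (vc_twist hd hc).hom_injective.isOfFinAddOrder_iff.mp (k1 _ hP)) fun P => ?_
    have k := (tw_hom hd hc P).map k2
    obtain ⟨R, hR⟩ := mem_range_pmap ι (Q := Φ ((vc_twist hd hc).hom P))
      (Gal.mem_range_of_fixed (K := H) fun σ hσ => by
        rw [← RingHom.coe_coe, ← xco_pmap, (k σ).1 (hσ δ)])
      (Gal.mem_range_of_fixed (K := H) fun σ hσ => by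
        rw [← RingHom.coe_coe, ← yco_pmap, (k σ).1 (hσ δ)])
    exact ⟨⟨R, (key R).2 (hR ▸ k)⟩, hR⟩

end Pool.Agent.Lib.MP_60ff09_nt.V4
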