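import Pool.Agent.Lib.MP_60ff09_nt.V4Defs

/-! Both sides of the conjecture of Beilinson for the newform of an elliptic curve and an Artin
representation. -/

set_option autoImplicit false

open scoped Classical
open NumberField CategoryTheory MonoidalCategory

namespace Pool.Agent.Lib.MP_60ff09_nt.V6

open V4 (mw bc onInv Splits)

variable {M L : Type} [Field M] [NumberField M] [IsGalois ℚ M] [Field L]

/-- The space of equivariant linear maps from `V` to `L ⊗ W(H)`, where `H` is the field fixed by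
the kernel of `V`. -/
noncomputable def HomW (W : WeierstrassCurve ℚ) (V : Rep L (M ≃ₐ[ℚ] M)) : ModuleCat L :=
  ModuleCat.of L (V ⟶ mw L W (IntermediateField.fixedField V.ρ.ker))

/-- The inverse of the Euler factor at `p` of the tensor product with a newform of level `N` whose
`p`-th coefficient is `a`; here `T` is the Frobenius on the inertia invariants. -/
noncomputable def eulN (N : ℕ) {V : Type} [AddCommGroup V] [Module ℂ V] (T : Module.End ℂ V) (a : ℤ)
    (p : ℕ) (s : ℂ) : ℂ :=
  LinearMap.det (1 - (a * (p : ℂ) ^ (-s)) • T +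
    (if p ∣ N then 0 else (p : ℂ) ^ (1 - 2 * s)) • T ^ 2)

/-- The function `F` is the Euler product of the tensor product of the complex representation `V`
with the newform of level `N` with coefficients `a`, in its half plane of convergence. -/
def IsLN (N : ℕ) (a : ℕ → ℤ) (V : Rep ℂ (M ≃ₐ[ℚ] M)) (F : ℂ → ℂ) : Prop :=
  ∀ (Q : ℕ → Ideal (𝓞 M)) (φ : ℕ → M ≃ₐ[ℚ] M),
    (∀ p : ℕ, p.Prime → (Q p).IsPrime ∧ (p : 𝓞 M) ∈ Q p ∧ IsArithFrobAt ℤ (φ p) (Q p)) →
    ∀ s : ℂ, (3 : ℝ) / 2 < s.re → HasProd (fun p : ℕ => if p.Prime then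
      (eulN N (onInv V ((Q p).inertia (M ≃ₐ[ℚ] M)) (φ p)) (a p) p s)⁻¹ else 1) (F s)

/-- The conjecture of Beilinson for the newform of level `N` with coefficients `a`, its elliptic
curve `W` and the representation `V`, both sides being `r`. -/
def BeilN [Algebra L ℂ] (W : WeierstrassCurve ℚ) (N : ℕ) (a : ℕ → ℤ) (V : Rep L (M ≃ₐ[ℚ] M))
    (r : ℕ) : Prop :=
  ∃ F : ℂ → ℂ, Differentiable ℂ F ∧ IsLN N a (bc ℂ V) F ∧ Module.Finite L (HomW W V) ∧
    analyticOrderAt F 1 = (Module.finrank L (HomW W V) : ℕ∞) ∧ Module.finrank L (HomW W V) = r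

/-- The conjecture holds for all pairs of two-dimensional representations of the Galois group of
`M` over `L` whose tensor product is the sum of the quadratic characters attached to the `d i`,
both sides being `r`. -/
def AtN (M L : Type) [Field M] [NumberField M] [IsGalois ℚ M] [Field L] [Algebra L ℂ]
    (W : WeierstrassCurve ℚ) (N : ℕ) (a : ℕ → ℤ) (d : Fin 4 → ℤ) (r : ℕ) : Prop :=
  ∀ Vg Vh : Rep L (M ≃ₐ[ℚ] M), Module.finrank L Vg = 2 → Module.finrank L Vh = 2 →
    Splits (Vg ⊗ Vh) d → BeilN W N a (Vg ⊗ Vh) r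

/-- The same for all finite Galois extensions `M` of `ℚ` and all coefficient fields `L`. -/
def HoldsN (W : WeierstrassCurve ℚ) (N : ℕ) (a : ℕ → ℤ) (d : Fin 4 → ℤ) (r : ℕ) : Prop :=
  ∀ (M L : Type) [Field M] [NumberField M] [IsGalois ℚ M] [Field L] [Algebra L ℂ],
    AtN M L W N a d r

end Pool.Agent.Lib.MP_60ff09_nt.V6
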