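import Pool.Agent.Lib.MP_60ff09_nt.V6Rk
import Pool.Agent.Lib.MP_696deb_nt.B6.GF

/-! The conjecture of Beilinson for a sum of quadratic characters from the rank statement for the
quadratic twists, and densities. -/

set_option autoImplicit false

open scoped Classical TensorProduct
open Finset Filter Topology NumberField NumberTheorySymbols
open Pool.Agent.Lib.MP_696deb_nt Pool.Agent.B6 Pool.Agent.B4

namespace Pool.Agent.Lib.MP_60ff09_nt.V6

open V4

theorem anr_unique {a b : ℤ} {r r' : ℕ∞} (h : G5.AnR a b r) (h' : G5.AnR a b r') : r = r' := by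
  obtain ⟨F, f1, f2, rfl⟩ := h
  obtain ⟨G, g1, g2, rfl⟩ := h'
  congr 1
  refine AnalyticOnNhd.eq_of_eventuallyEq (f1.differentiableOn.analyticOnNhd isOpen_univ)
    (g1.differentiableOn.analyticOnNhd isOpen_univ) (z₀ := 2) ?_
  filter_upwards [(isOpen_lt continuous_const Complex.continuous_re).mem_nhds
    (show (3 : ℝ) / 2 < (2 : ℂ).re by norm_num)] with s hs
  exact (f2 s hs).unique (g2 s hs)

section

variable {M L : Type} [Field M] [NumberField M] [IsGalois ℚ M] [Field L] [Algebra L ℂ]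
  {V : Rep L (M ≃ₐ[ℚ] M)} {d : Fin 4 → ℤ}

theorem eul_eq (N : ℕ) (hV : Splits V d) (hd : ∀ i, Squarefree (d i) ∧ d i % 4 = 1) {p : ℕ}
    (hp : p.Prime) {Q : Ideal (𝓞 M)} [Q.IsPrime] (hQ : (p : 𝓞 M) ∈ Q) {φ : M ≃ₐ[ℚ] M}
    (hφ : IsArithFrobAt ℤ φ Q) (a : ℕ → ℤ) (s : ℂ) :
    eulN N (onInv (bc ℂ V) (Q.inertia (M ≃ₐ[ℚ] M)) φ) (a p) p s =
      ∏ i, loc (xi (d i).natAbs) a (fun p => if p ∣ N then 0 else p) p s := by
  obtain ⟨v, δ, h⟩ := hV
  let w : Module.Basis (Fin 4) ℂ (bc ℂ V) := v.baseChange ℂ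
  have hw : ∀ i, w i = (1 : ℂ) ⊗ₜ[L] v i := fun i => v.baseChange_apply ℂ i
  have h1 : ∀ i σ, σ (δ i) = δ i → (bc ℂ V).ρ σ (w i) = w i := fun i σ e => by
    rw [hw, bc_tmul, ((h i).2 σ).1 e]
  have h2 : ∀ i σ, σ (δ i) = -δ i → (bc ℂ V).ρ σ (w i) = -w i := fun i σ e => by
    rw [hw, bc_tmul, ((h i).2 σ).2 e, TensorProduct.tmul_neg]
    rfl
  have key : ∀ i, onInv (bc ℂ V) (Q.inertia (M ≃ₐ[ℚ] M)) φ (w i) = xi (d i).natAbs p • w i := by
    intro i
    by_cases hi : (p : ℤ) ∣ d i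
    · obtain ⟨τ, hτ, e⟩ := exists_ine (h i).1 (hd i).1 hp hQ hi
      have : NeZero (d i).natAbs := ⟨by have := (hd i).2; omega⟩
      rw [onInv_zero _ _ _ hτ (h2 i τ e), xi, jacobiSym.eq_zero_iff_not_coprime.2, Int.cast_zero,
        zero_smul]
      rw [Int.gcd_natCast_natCast]
      exact fun k => (Nat.Prime.coprime_iff_not_dvd hp).1 k (Int.natCast_dvd.1 hi)
    · rw [onInv_fix _ _ _ fun τ hτ => h1 i τ (ine_fix (h i).1 (hd i).2 hp hQ hi hτ), xi]
      rcases frob_rt (h i).1 (hd i).2 hp hQ hi hφ with ⟨e, j⟩ | ⟨e, j⟩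
      · rw [h1 i φ e, j, Int.cast_one, one_smul]
      · rw [h2 i φ e, j, Int.cast_neg, Int.cast_one, neg_one_smul]
  refine det_diag w _ _ fun i => ?_
  have hp0 : (p : ℂ) ≠ 0 := Nat.cast_ne_zero.2 hp.ne_zero
  have e : (p : ℂ) ^ (1 - 2 * s) = p * ((p : ℂ) ^ (-s)) ^ 2 := by
    rw [sub_eq_add_neg, Complex.cpow_add _ _ hp0, Complex.cpow_one, sq, ← Complex.cpow_add _ _ hp0]
    congr 2
    ring
  simp only [LinearMap.add_apply, LinearMap.sub_apply, LinearMap.smul_apply, sq,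
    Module.End.mul_apply, Module.End.one_apply, key, map_smul, smul_smul, loc, e, add_smul,
    sub_smul, one_smul]
  congr 2
  · congr 1
    ring
  · split_ifs <;> simp
    ring

variable [Cs] {D : GE.MD Wu NN}

theorem entire_of (n : G5.Nw D) (t : ∀ (l : ℕ) [Fact l.Prime], ¬ l ∣ 2 * NN → D.c l = tr l cub)
    {e : ℤ} (hs : Squarefree e) (h4 : e % 4 = 1) {r : ℕ} (h : Bsd e r) :
    ∃ G : ℂ → ℂ, Differentiable ℂ G ∧
      (∀ s : ℂ, (3 : ℝ) / 2 < s.re → G s = LSeries (fun n => xi e.natAbs n * D.c n) s) ∧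
      analyticOrderAt G 1 = r := by
  have o : Odd e.natAbs := Int.natAbs_odd.2 ⟨e / 2, by omega⟩
  have q := Int.squarefree_natAbs.2 hs
  obtain ⟨τ, hτ, H⟩ := G5.md_LA D o q
  have dH := (G5.md_ci D).LA_differentiable D.N0 q.ne_zero
  refine ⟨fun s => τ * G5.LA D.par.F e.natAbs s, dH.const_mul τ, H, ?_⟩
  rw [← anr_unique (G5.md_anr D n q o (sh_ne hs.ne_zero) (trs_short t h4)) h.1]
  have := analyticOrderAt_mul (analyticAt_const (v := τ)) (dH.analyticAt 1)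
  rw [analyticAt_const.analyticOrderAt_eq_zero.2 hτ, zero_add] at this
  exact this

theorem beil_of_bsd (n : G5.Nw D)
    (t : ∀ (l : ℕ) [Fact l.Prime], ¬ l ∣ 2 * NN → D.c l = tr l cub) (hV : Splits V d)
    (hd : ∀ i, Squarefree (d i) ∧ d i % 4 = 1) {r : Fin 4 → ℕ} (h : ∀ i, Bsd (d i) (r i)) :
    BeilN Wu NN D.c V (∑ i, r i) := by
  have : CharZero L := (algebraMap L ℂ).charZero
  choose G h1 h2 h3 using fun i => entire_of n t (hd i).1 (hd i).2 (h i)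
  obtain ⟨k1, k2⟩ := hom_dim hV (fun i => (hd i).1.ne_zero) fun i => (h i).2.1
  have k3 : Module.finrank L (HomW Wu V) = ∑ i, r i :=
    k2.trans (Finset.sum_congr rfl fun i _ => (h i).2.2)
  refine ⟨∏ i, G i, Differentiable.finsetProd fun i _ => h1 i, fun Q φ hQ s hs => ?_, k1, ?_, k3⟩
  · rw [Finset.prod_apply]
    convert hasProd_prod (s := Finset.univ) fun i _ => hasProd_loc (G5.md_hecke D n)
      (xi_one (d i).natAbs) (xi_mul _) (summable_twist (norm_xi_le _) (G5.md_summable D hs))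
      using 2 with p i
    · split_ifs with hp
      · obtain ⟨q1, q2, q3⟩ := hQ p hp
        rw [eul_eq NN hV hd hp q2 q3, Finset.prod_inv_distrib]
      · simp
    · exact h2 i s hs
  · rw [k3, Fin.prod_univ_four, Fin.sum_univ_four]
    have a := fun i => (h1 i).analyticAt 1
    rw [analyticOrderAt_mul (((a 0).mul (a 1)).mul (a 2)) (a 3),
      analyticOrderAt_mul ((a 0).mul (a 1)) (a 2), analyticOrderAt_mul (a 0) (a 1), h3, h3, h3, h3]
    push_cast
    rfl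

end

variable {N : ℕ}

theorem gcd_one {n : ℤ} (h : IsCoprime n N) : Int.gcd (-N) n.natAbs = 1 := by
  rw [Int.gcd, Int.natAbs_neg]
  exact ((B2.V.gf_cop N).1 h).symm

theorem sqf_cls {n : ℤ} (h4 : n % 4 = 1) (h : IsCoprime n N) :
    sqf n % 4 = 1 ∧ IsCoprime (sqf n) N ∧ J(-N | (sqf n).natAbs) = J(-N | n.natAbs) := by
  obtain ⟨h1, c, c0, e⟩ := sqf_spec (n := n) (by omega)
  generalize sqf n = a at h1 e
  subst e
  refine ⟨?_, h.of_mul_left_right, ?_⟩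
  · obtain ⟨k, rfl | rfl⟩ := Int.even_or_odd' c
    · rw [show (2 * k) ^ 2 * a = 4 * (k ^ 2 * a) by ring] at h4
      omega
    · rw [show (2 * k + 1) ^ 2 * a = 4 * ((k ^ 2 + k) * a) + a by ring] at h4
      omega
  · have : NeZero a.natAbs := ⟨Int.natAbs_ne_zero.2 h1.ne_zero⟩
    have : NeZero (c.natAbs ^ 2) := ⟨pow_ne_zero 2 (Int.natAbs_ne_zero.2 c0)⟩
    rw [Int.natAbs_mul, Int.natAbs_pow, jacobiSym.mul_right, jacobiSym.pow_right,
      jacobiSym.sq_one (gcd_one (sq c ▸ h.of_mul_left_left).of_mul_left_left), one_mul]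

theorem card_eq_sum {d : Fin 4 → ℤ} (h : ∀ i, IsCoprime (d i) N) :
    (univ.filter fun i => J(-N | (d i).natAbs) = -1).card =
      ∑ i, if J(-N | (d i).natAbs) = 1 then 0 else 1 := by
  rw [card_filter]
  refine sum_congr rfl fun i _ => ?_
  rcases jacobiSym.eq_one_or_neg_one (gcd_one (h i)) with j | j <;> simp [j]

theorem tendsto_one (hN : N ≠ 0) {P C : ℤ → Prop} {e : Fin 4 → ℤ} (he : ∀ i, e i ≠ 0)
    (hC : ∀ ε : ℝ, 0 < ε → ∃ X0 : ℕ, ∀ X ≥ X0,
      (((Icc (-(X : ℤ)) X).filter fun d => Squarefree d ∧ ¬ C d).card : ℝ) ≤ ε * X)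
    (hP : ∀ d : ℤ, d % 4 = 1 → IsCoprime d N → (∀ i, C (sqf (d * e i))) → P d) :
    Tendsto (fun X : ℕ =>
      (Set.ncard {d : ℤ | |d| ≤ X ∧ Squarefree d ∧ d % 4 = 1 ∧ IsCoprime d N ∧ P d} : ℝ) /
        (Set.ncard {d : ℤ | |d| ≤ X ∧ Squarefree d ∧ d % 4 = 1 ∧ IsCoprime d N} : ℝ))
      atTop (𝓝 1) := by
  rw [Metric.tendsto_nhds]
  intro ε hε
  let B : ℕ := ∑ i, (e i).natAbs
  have hB : ∀ i, (e i).natAbs ≤ B := fun i =>
    single_le_sum (f := fun i => (e i).natAbs) (fun _ _ => Nat.zero_le _) (mem_univ i)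
  have B1 : 1 ≤ B := (Int.natAbs_pos.2 (he 0)).trans_le (hB 0)
  have B0 : (0 : ℝ) < B := by exact_mod_cast B1
  have N0 : (0 : ℝ) < N := Nat.cast_pos.2 (Nat.pos_of_ne_zero hN)
  obtain ⟨δ, hδ, e0⟩ : ∃ δ : ℝ, 0 < δ ∧ δ * (8 * N) = ε / 5 :=
    ⟨ε / (40 * N), by positivity, by field_simp; norm_num⟩
  obtain ⟨X0, h0⟩ := hC (δ / B) (by positivity)
  filter_upwards [eventually_ge_atTop X0,
    (tendsto_natCast_atTop_atTop (R := ℝ)).eventually_gt_atTop 0] with X h1 h3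
  have e1 : {d : ℤ | |d| ≤ X ∧ Squarefree d ∧ d % 4 = 1 ∧ IsCoprime d N ∧ P d} =
      ↑((B2.V.gfF N X).filter P) := by
    ext d
    simp [B2.V.gfF, abs_le, and_assoc]
  have e2 : {d : ℤ | |d| ≤ X ∧ Squarefree d ∧ d % 4 = 1 ∧ IsCoprime d N} = ↑(B2.V.gfF N X) := by
    ext d
    simp [B2.V.gfF, abs_le, and_assoc]
  rw [e1, e2, Set.ncard_coe_finset, Set.ncard_coe_finset, Real.dist_eq]
  have b := h0 (B * X) (h1.trans (Nat.le_mul_of_pos_left X B1))
  have c : ((B2.V.gfF N X).card : ℝ) = (B2.V.gfS N X).card := by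
    simpa using B2.V.gf_sum N X fun _ => 1
  have g := B2.V.gf_big N hN X
  rw [← c] at g
  have k : ∀ i, ((B2.V.gfF N X).filter fun d => ¬ C (sqf (d * e i))).card ≤
      ((Icc (-((B * X : ℕ) : ℤ)) (B * X : ℕ)).filter fun d => Squarefree d ∧ ¬ C d).card := by
    intro i
    refine card_le_card_of_injOn (fun d => sqf (d * e i)) (fun d hd => ?_) fun d hd d' hd' k => ?_
    · simp only [B2.V.gfF, coe_filter, mem_filter, mem_Icc, Set.mem_ofPred_eq, ← abs_le] at hd ⊢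
      obtain ⟨k1, c, c0, k2⟩ := sqf_spec (mul_ne_zero hd.1.2.1.ne_zero (he i))
      refine ⟨?_, k1, hd.2⟩
      have k3 : |sqf (d * e i)| ≤ |d * e i| := by
        conv_rhs => rw [k2, abs_mul]
        exact le_mul_of_one_le_left (abs_nonneg _) (Int.one_le_abs (pow_ne_zero 2 c0))
      refine k3.trans ?_
      rw [abs_mul, mul_comm, Nat.cast_mul]
      refine mul_le_mul ?_ hd.1.1 (abs_nonneg _) (by positivity)
      rw [Int.abs_eq_natAbs]
      exact_mod_cast hB i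
    · simp only [B2.V.gfF, coe_filter, mem_filter, Set.mem_ofPred_eq] at hd hd' k
      obtain ⟨-, c, c0, k2⟩ := sqf_spec (mul_ne_zero hd.1.2.1.ne_zero (he i))
      obtain ⟨-, c', c0', k2'⟩ := sqf_spec (mul_ne_zero hd'.1.2.1.ne_zero (he i))
      rw [k] at k2
      exact eq_of_sq hd.1.2.1 hd'.1.2.1 c0' (c' := c) (mul_right_cancel₀ (he i) (by
        linear_combination c' ^ 2 * k2 - c ^ 2 * k2'))
  have k1 : ((B2.V.gfF N X).filter fun d => ¬ P d).card ≤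
      ∑ i, ((B2.V.gfF N X).filter fun d => ¬ C (sqf (d * e i))).card := by
    refine (card_le_card fun d hd => ?_).trans card_biUnion_le
    simp only [mem_biUnion, mem_univ, true_and, mem_filter] at hd ⊢
    by_contra! k
    have := mem_filter.1 hd.1
    exact hd.2 (hP d this.2.2.1 this.2.2.2 fun i => k i hd.1)
  have k2 := k1.trans (sum_le_card_nsmul _ _ _ fun i _ => k i)
  rw [card_univ, Fintype.card_fin, smul_eq_mul, ← Nat.cast_le (α := ℝ), Nat.cast_mul] at k2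
  have k3 := card_filter_add_card_filter_not (s := B2.V.gfF N X) P
  rw [← Nat.cast_inj (R := ℝ), Nat.cast_add] at k3
  have a0 : (0 : ℝ) < (B2.V.gfF N X).card :=
    (mul_pos_iff_of_pos_left (by positivity)).1 (h3.trans_le g)
  rw [show δ / B * (B * X : ℕ) = δ * X by push_cast; field_simp] at b
  have a1 : δ * X ≤ ε / 5 * (B2.V.gfF N X).card := by
    rw [← e0, mul_assoc]
    exact mul_le_mul_of_nonneg_left g hδ.le
  have a2 := mul_pos hε a0
  have a3 : (0 : ℝ) ≤ ((B2.V.gfF N X).filter fun d => ¬ P d).card := Nat.cast_nonneg _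
  rw [abs_lt, lt_sub_iff_add_lt, sub_lt_iff_lt_add, lt_div_iff₀ a0, div_lt_iff₀ a0]
  rw [Nat.cast_ofNat] at k2
  constructor <;> nlinarith

/-- The conjecture holds for almost all twists. -/
theorem density [Cs] {D : GE.MD Wu NN} (n : G5.Nw D)
    (t : ∀ (l : ℕ) [Fact l.Prime], ¬ l ∣ 2 * NN → D.c l = tr l cub) (hs : Smith) (hc : Conv)
    {e : Fin 4 → ℤ} (he : ∀ i, e i % 4 = 1 ∧ IsCoprime (e i) NN) :
    Tendsto (fun X : ℕ =>
      (Set.ncard {d : ℤ | |d| ≤ X ∧ Squarefree d ∧ d % 4 = 1 ∧ IsCoprime d NN ∧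
        HoldsN Wu NN D.c (fun i => d * e i)
          (univ.filter fun i => J(-NN | (d * e i).natAbs) = -1).card} : ℝ) /
        (Set.ncard {d : ℤ | |d| ≤ X ∧ Squarefree d ∧ d % 4 = 1 ∧ IsCoprime d NN} : ℝ))
      atTop (𝓝 1) := by
  refine tendsto_one NN_ne (e := e) (fun i => by have := (he i).1; omega) hs
    fun d h4 h3 hC M L _ _ _ _ _ Vg Vh _ _ hV => ?_
  have k4 : ∀ i, d * e i % 4 = 1 := fun i => by rw [Int.mul_emod, h4, (he i).1]; rfl
  have k3 : ∀ i, IsCoprime (d * e i) NN := fun i => h3.mul_left (he i).2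
  have k0 : ∀ i, d * e i ≠ 0 := fun i => by have := k4 i; omega
  have c := fun i => sqf_cls (k4 i) (k3 i)
  rw [card_eq_sum k3]
  refine beil_of_bsd n t (hV.sqf k0) (fun i => ⟨(sqf_spec (k0 i)).1, (c i).1⟩) fun i => ?_
  have k := hc _ (sqf_spec (k0 i)).1 (c i).1 (c i).2.1 (hC i)
  rwa [(c i).2.2] at k

end Pool.Agent.Lib.MP_60ff09_nt.V6
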