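import Pool.Agent.Lib.MP_60ff09_nt.V6Defs
import Pool.Agent.Lib.MP_60ff09_nt.V4Den
import Pool.Agent.Lib.MP_696deb_nt.B6.LKb

/-! The dimension of the space of equivariant maps is the sum of the ranks of the twists. -/

set_option autoImplicit false

open scoped Classical
open NumberField CategoryTheory WeierstrassCurve WeierstrassCurve.Affine
open Pool.Agent.Lib.MP_696deb_nt Pool.Agent.Lib.MP_696deb_nt.B2 Pool.Agent.B6

namespace Pool.Agent.Lib.MP_60ff09_nt.V6

open V4

variable [Cw]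

theorem rank_tw {H : Type} [Field H] [NumberField H] [Normal ℚ H] {d : ℤ} (hd : d ≠ 0) {δ : H}
    (hδ : δ ^ 2 = d) (E : AddSubgroup (Pt Wu H)) (hE : ∀ P, P ∈ E ↔ ∀ τ : H ≃ₐ[ℚ] H,
      (τ δ = δ → pmap (τ : H →+* H) P = P) ∧ (τ δ = -δ → pmap (τ : H →+* H) P = -P)) :
    Module.rank ℤ E = Module.rank ℤ (Et d).toAffine.Point := by
  let j : H →ₐ[ℚ] Qbar := IsAlgClosed.lift
  let ι : H →+* Qbar := j.toRingHom
  let _ := ι.toAlgebra
  have : IsScalarTower ℚ H Qbar := IsScalarTower.of_algebraMap_eq fun q => (j.commutes q).symm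
  have hc : ι δ ^ 2 = d := by rw [← map_pow, hδ, map_intCast]
  have h0 : ι δ ≠ -ι δ := fun k => hd (by
    have : ι δ = 0 := by linear_combination k / 2
    exact_mod_cast (hc.symm.trans (by rw [this]; ring) : (d : Qbar) = 0))
  have res : ∀ (g : Gam) (τ : H ≃ₐ[ℚ] H), (∀ x, g (ι x) = ι (τ x)) → ∀ P : Pt Wu H,
      B6.tw d g (pmap ι P) = pmap ι P ↔ (τ δ = δ → pmap (τ : H →+* H) P = P) ∧
        (τ δ = -δ → pmap (τ : H →+* H) P = -P) := fun g τ e P => by
    have k := chi_spec hc g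
    have hi := pmap_injective (W := Wu) ι
    rw [B6.tw, B6.smul_pt, pmap_pmap, show (g : Qbar →+* Qbar).comp ι = ι.comp τ from RingHom.ext e,
      ← pmap_pmap]
    rw [e] at k
    rcases Int.units_eq_one_or (chi d g) with l | l <;> rw [l] at k ⊢
    · rw [Units.val_one, Int.cast_one, one_mul] at k
      rw [Units.val_one, one_smul, hi.eq_iff]
      exact ⟨fun a => ⟨fun _ => a, fun b => absurd (by rw [← map_neg, ← b, k]) h0⟩,
        fun a => a.1 (ι.injective k)⟩
    · rw [Units.val_neg, Units.val_one, Int.cast_neg, Int.cast_one, neg_one_mul] at k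
      rw [Units.val_neg, Units.val_one, neg_one_smul, neg_eq_iff_eq_neg, ← map_neg, hi.eq_iff]
      exact ⟨fun a => ⟨fun b => absurd (by rw [← k, b]) h0, fun _ => a⟩,
        fun a => a.2 (ι.injective (by rw [k, map_neg]))⟩
  have key : ∀ P, P ∈ E ↔ ∀ g, B6.tw d g (pmap ι P) = pmap ι P := fun P => by
    rw [hE]
    refine ⟨fun h g => (res g (g.restrictNormal H)
      (fun x => (g.restrictNormal_commutes H x).symm) P).2 (h _), fun h τ => ?_⟩
    exact (res (τ.liftNormal Qbar) τ (fun x => τ.liftNormal_commutes Qbar x) P).1 (h _)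
  refine le_antisymm ?_ ?_
  · exact rank_le_of_range ((pmap ι).comp E.subtype) (lk_vcQ hd).hom
      (fun P hP => by
        rw [show P = 0 from E.subtype_injective (pmap_injective ι (hP.trans (map_zero _).symm))]
        exact IsOfFinAddOrder.zero)
      fun P => (lk_pts hd _).2 ((key P).1 P.2)
  · refine rank_le_of_range (lk_vcQ hd).hom ((pmap ι).comp E.subtype)
      (fun P hP => by
        rw [show P = 0 from (lk_vcQ hd).hom_injective (hP.trans (map_zero _).symm)]
        exact IsOfFinAddOrder.zero) fun P => ?_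
    have k := (lk_pts hd _).1 ⟨P, rfl⟩
    generalize (lk_vcQ hd).hom P = Q at k
    have fx : ∀ x : Qbar, (∀ g : Gam, g • Q = Q → g x = x) → x ∈ ι.range := fun x hx => by
      have m : x ∈ IntermediateField.fixedField j.fieldRange.fixingSubgroup :=
        (IntermediateField.mem_fixedField_iff _ _).2 fun g hg => hx g (by
          have e := chi_spec hc g
          have l := k g
          rw [(IntermediateField.mem_fixingSubgroup_iff _ _).1 hg (ι δ) ⟨δ, rfl⟩] at e
          rcases Int.units_eq_one_or (chi d g) with c | c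
          · rwa [B6.tw, c, Units.val_one, one_smul] at l
          · exact absurd (by simpa [c] using e) h0)
      rwa [InfiniteGalois.fixedField_fixingSubgroup] at m
    obtain ⟨R, hR⟩ : ∃ R, pmap ι R = Q := by
      have hx := fx (xco Q) fun g e => by rw [← B6.xco_smul, e]
      have hy := fx (yco Q) fun g e => by rw [← B6.yco_smul, e]
      rcases Q with _ | ⟨_, _, hQ⟩
      · exact ⟨0, rfl⟩
      obtain ⟨x, rfl⟩ := hx
      obtain ⟨y, rfl⟩ := hy
      exact ⟨.some x y ((Wu.toAffine.baseChange_nonsingular ι.toRatAlgHom.injective x y).mp hQ), rfl⟩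
    exact ⟨⟨R, (key R).2 (hR ▸ k)⟩, hR⟩

variable {M L : Type} [Field M] [NumberField M] [IsGalois ℚ M] [Field L]
  {V : Rep L (M ≃ₐ[ℚ] M)} {d : Fin 4 → ℤ}

theorem rank_res {G H : Type} [Group G] [Field H] [NumberField H] [Normal ℚ H] {e : ℤ} (he : e ≠ 0)
    {δ : H} (hδ : δ ^ 2 = e) (f : G →* (H ≃ₐ[ℚ] H)) (hf : Function.Surjective f) (χ : G → ℤ)
    (h1 : ∀ σ, f σ δ = δ → χ σ = 1) (h2 : ∀ σ, f σ δ = -δ → χ σ = -1) :
    @Module.rank ℤ _ _ _ (eig (Rep.res f (pts Wu H)) χ).module =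
      Module.rank ℤ (Et e).toAffine.Point := by
  refine (rank_sub (A := Pt Wu H) (eig (Rep.res f (pts Wu H)) χ)).trans
    (rank_tw he hδ _ fun P => ⟨fun h τ => ?_, fun h σ => ?_⟩)
  · obtain ⟨σ, rfl⟩ := hf τ
    exact ⟨fun k => (h σ).trans (by rw [h1 σ k, one_zsmul]),
      fun k => (h σ).trans (by rw [h2 σ k, neg_one_zsmul]; rfl)⟩
  · rcases pm_of_sq hδ (f σ) with k | k
    · rw [h1 σ k, one_zsmul]
      exact (h _).1 k
    · rw [h2 σ k, neg_one_zsmul]
      exact (h _).2 k

omit [IsGalois ℚ M] in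
theorem rank_mw [Normal ℚ M] [CharZero L] (H : IntermediateField ℚ M) [Normal ℚ H] {e : ℤ}
    (he : e ≠ 0) {δ : M} (hδ : δ ^ 2 = e) (hH : δ ∈ H) :
    Module.rank L (eig (mw L Wu H) fun σ => if σ δ = δ then 1 else -1) =
      Module.rank ℤ (Et e).toAffine.Point := by
  have ne : δ ≠ -δ := fun k => he (by
    have : δ = 0 := by linear_combination k / 2
    exact_mod_cast (hδ.symm.trans (by rw [this]; ring) : (e : M) = 0))
  have c : ∀ σ : M ≃ₐ[ℚ] M, (AlgEquiv.restrictNormalHom H σ ⟨δ, hH⟩ : M) = σ δ := fun σ =>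
    σ.restrictNormal_commutes H ⟨δ, hH⟩
  have k1 := rank_eig L (Rep.res (AlgEquiv.restrictNormalHom H) (pts Wu H))
    (fun σ : M ≃ₐ[ℚ] M => if σ δ = δ then 1 else -1) (fun σ τ => by
      rcases pm_of_sq hδ σ with k | k <;> rcases pm_of_sq hδ τ with l | l <;>
        simp [k, l, ne.symm]) fun σ => by split_ifs <;> rfl
  have k2 := rank_res he (δ := (⟨δ, hH⟩ : H)) (Subtype.ext (by simpa using hδ))
    (AlgEquiv.restrictNormalHom H) (AlgEquiv.restrictNormalHom_surjective M)
    (fun σ : M ≃ₐ[ℚ] M => if σ δ = δ then 1 else -1)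
    (fun σ k => if_pos ((c σ).symm.trans (congrArg Subtype.val k)))
    fun σ k => if_neg fun l => ne (l.symm.trans ((c σ).symm.trans (congrArg Subtype.val k)))
  exact k1.trans k2

theorem hom_dim [CharZero L] (hV : Splits V d) (hd : ∀ i, d i ≠ 0)
    (hf : ∀ i, Module.Finite ℤ (Et (d i)).toAffine.Point) : Module.Finite L (HomW Wu V) ∧
      Module.finrank L (HomW Wu V) = ∑ i, Module.finrank ℤ (Et (d i)).toAffine.Point := by
  obtain ⟨v, δ, h⟩ := hV
  obtain ⟨e⟩ := hom_equiv V (mw L Wu (IntermediateField.fixedField V.ρ.ker)) v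
    (fun i σ => if σ (δ i) = δ i then 1 else -1) fun i σ => by
      split_ifs with k
      · rw [((h i).2 σ).1 k, one_zsmul]
      · rw [((h i).2 σ).2 ((pm_of_sq (h i).1 σ).resolve_left k), neg_one_zsmul]
  have k := fun i => rank_mw (L := L) (IntermediateField.fixedField V.ρ.ker) (hd i) (h i).1
    fun σ => (pm_of_sq (h i).1 σ).resolve_right fun l => v.ne_zero i (by
      have e := ((h i).2 σ).2 l
      rw [σ.2, Module.End.one_apply, eq_neg_iff_add_eq_zero, ← two_smul L] at e
      exact (smul_eq_zero.1 e).resolve_left two_ne_zero)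
  have f := fun i => Module.rank_lt_aleph0_iff.mp (k i ▸ Module.rank_lt_aleph0 ℤ _)
  refine ⟨Module.Finite.equiv e.symm, e.finrank_eq.trans ?_⟩
  rw [Module.finrank_pi_fintype]
  exact Finset.sum_congr rfl fun i _ => congrArg Cardinal.toNat (k i)

end Pool.Agent.Lib.MP_60ff09_nt.V6
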